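import Pool.Agent.LibRN31.SD

/-!
# Row P1 (MEDIUM): pairs of digits

PLAN. (1) `cell_total`: induction on `K`. `K = 0`: `b` terms `1`. Step: split `k = e + b * k'` (`e < b`, `k' < b^(K+1)`;
`LibHG31.T1.sum_range_mul_split` or `Nat` sums); `k / b^(j+1) = k' / b^j`, so the product is
`gg (k % b^2) * ∏_{j<K} gg (k'/b^j % b^2)` (`prod_range_succ'`), and `k % b^2 = e + b * (k' % b)`. For fixed `k'` at most one `e < b` has
`e + b (k' % b) ∈ {0, b^2-1}` (`k' % b = 0, e = 0` or `k' % b = b-1, e = b-1`), so `∑_e gg ≤ 1 + b ρ`.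
(2) `cell_bound`: `i + 2 ≤ K + 1`, `n = ⌊b^(i+2) x⌋₊ = ⌊b^(K+1) x⌋₊ / b^(K-1-i)` (`Nat.floor_div_natCast`), put `j = K-1-i`
(`Finset.prod_range_reflect`), `v = n % b^2`. If `v ≠ 0, b^2-1`: `b^i x = q + y` with `q = n / b^2` and
`y = (v + frac)/b^2 ∈ [1/b^2, 1 - 1/b^2]`, so `nd (b^i x) ≥ 1/b^2` and the factor is `≤ (1 - c/b^4)`. All factors of `VV` are in `[0,1]`
(`VV_factor`); the last factor `i = K` is dropped.
-/

namespace Pool.Agent.LibRN31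

open Finset Pool.Agent.LibHG31 Pool.Agent.LibHG31.TT

private theorem P1_gg_nonneg (b : ℕ) {ρ : ℝ} (hρ : 0 ≤ ρ) (v : ℕ) : 0 ≤ gg b ρ v := by
  unfold gg
  split_ifs
  · exact zero_le_one
  · exact hρ

private theorem P1_split (b M : ℕ) (f : ℕ → ℝ) :
    ∑ k ∈ range (b * M), f k = ∑ k ∈ range M, ∑ e ∈ range b, f (e + b * k) := by
  induction M with
  | zero => simp
  | succ M ih =>
    rw [Nat.mul_succ, Finset.sum_range_add, ih, sum_range_succ]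
    congr 1
    exact sum_congr rfl fun e _ => by rw [Nat.add_comm]

private theorem P1_sq {b : ℕ} (hb : 2 ≤ b) : b ≤ b ^ 2 - 1 := by
  have h : b * 2 ≤ b ^ 2 := by rw [pow_two]; exact Nat.mul_le_mul_left b hb
  omega

private theorem P1_sum (b : ℕ) (hb : 2 ≤ b) (ρ : ℝ) (hρ : 0 ≤ ρ) (k : ℕ) :
    ∑ e ∈ range b, gg b ρ ((e + b * k) % b ^ 2) ≤ 1 + b * ρ := by
  have hv : ∀ e ∈ range b, (e + b * k) % b ^ 2 = e + b * (k % b) := by
    intro e he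
    have he' := mem_range.1 he
    rw [pow_two, Nat.mod_mul, Nat.add_mul_mod_self_left, Nat.mod_eq_of_lt he',
      Nat.add_mul_div_left _ _ (by omega), Nat.div_eq_of_lt he', Nat.zero_add]
  have h1 : ∀ e ∈ range b, gg b ρ ((e + b * k) % b ^ 2) ≤
      (if e + b * (k % b) = 0 ∨ e + b * (k % b) = b ^ 2 - 1 then (1 : ℝ) else 0) + ρ := by
    intro e he
    rw [hv e he]
    unfold gg
    split_ifs with h
    · linarith
    · linarith
  refine (sum_le_sum h1).trans ?_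
  rw [sum_add_distrib, sum_const, card_range, nsmul_eq_mul, ← Finset.sum_filter, sum_const,
    nsmul_eq_mul, mul_one]
  have h2 : ((range b).filter fun e => e + b * (k % b) = 0 ∨
      e + b * (k % b) = b ^ 2 - 1).card ≤ 1 := by
    rw [Finset.card_le_one]
    intro e he e' he'
    rw [mem_filter, mem_range] at he he'
    obtain ⟨g1, g2⟩ := he
    obtain ⟨g3, g4⟩ := he'
    have g5 := P1_sq hb
    have g6 : k % b = 0 ∨ b ≤ b * (k % b) := by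
      rcases Nat.eq_zero_or_pos (k % b) with h | h
      · exact Or.inl h
      · exact Or.inr (Nat.le_mul_of_pos_right b h)
    rcases g6 with g6 | g6
    · rw [g6, Nat.mul_zero] at g2 g4
      omega
    · omega
  have h3 : (((range b).filter fun e => e + b * (k % b) = 0 ∨
      e + b * (k % b) = b ^ 2 - 1).card : ℝ) ≤ 1 := by exact_mod_cast h2
  linarith

private theorem P1_nd {b : ℕ} (hb : 2 ≤ b) (y : ℝ) (n q v : ℕ) (hn : (n : ℝ) ≤ (b : ℝ) ^ 2 * y)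
    (hn' : (b : ℝ) ^ 2 * y < n + 1) (hq : n = b ^ 2 * q + v) (h1 : 1 ≤ v) (h2 : v + 2 ≤ b ^ 2) :
    1 / (b : ℝ) ^ 2 ≤ nd y := by
  have hb0 : (0 : ℝ) < (b : ℝ) ^ 2 := by
    have : (0 : ℝ) < b := by exact_mod_cast (by omega : 0 < b)
    positivity
  have hqr : (n : ℝ) = (b : ℝ) ^ 2 * q + v := by rw [hq]; push_cast; ring
  have h1r : (1 : ℝ) ≤ v := by exact_mod_cast h1
  have h2r : (v : ℝ) + 2 ≤ (b : ℝ) ^ 2 := by exact_mod_cast h2
  rw [hqr] at hn hn'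
  have e1 : 1 / (b : ℝ) ^ 2 ≤ y - q := by
    rw [div_le_iff₀ hb0]
    nlinarith
  have e2 : 1 / (b : ℝ) ^ 2 ≤ q + 1 - y := by
    rw [div_le_iff₀ hb0]
    nlinarith
  unfold nd
  rcases le_or_gt (round y) (q : ℤ) with h | h
  · have h' : ((round y : ℤ) : ℝ) ≤ q := by exact_mod_cast h
    have := le_abs_self (y - round y)
    linarith
  · have h' : (q : ℝ) + 1 ≤ ((round y : ℤ) : ℝ) := by
      have : (q : ℤ) + 1 ≤ round y := h
      exact_mod_cast this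
    have := neg_abs_le (y - round y)
    linarith

theorem cell_total (b : ℕ) (hb : 2 ≤ b) (ρ : ℝ) (hρ : 0 ≤ ρ) (K : ℕ) :
    ∑ k ∈ range (b ^ (K + 1)), ∏ j ∈ range K, gg b ρ (k / b ^ j % b ^ 2) ≤ b * (1 + b * ρ) ^ K := by
  induction K with
  | zero => simp
  | succ K ih =>
    have hb0 : 0 < b := by omega
    rw [show b ^ (K + 1 + 1) = b * b ^ (K + 1) from by rw [pow_succ' b (K + 1)], P1_split]
    have hP : ∀ k, 0 ≤ ∏ j ∈ range K, gg b ρ (k / b ^ j % b ^ 2) := fun k =>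
      prod_nonneg fun j _ => P1_gg_nonneg b hρ _
    have hs : ∀ k ∈ range (b ^ (K + 1)), (∑ e ∈ range b,
        ∏ j ∈ range (K + 1), gg b ρ ((e + b * k) / b ^ j % b ^ 2)) ≤
        (∏ j ∈ range K, gg b ρ (k / b ^ j % b ^ 2)) * (1 + b * ρ) := by
      intro k _
      have e1 : ∀ e ∈ range b, (∏ j ∈ range (K + 1), gg b ρ ((e + b * k) / b ^ j % b ^ 2)) =
          (∏ j ∈ range K, gg b ρ (k / b ^ j % b ^ 2)) * gg b ρ ((e + b * k) % b ^ 2) := by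
        intro e he
        rw [prod_range_succ']
        congr 1
        · refine prod_congr rfl fun j _ => ?_
          rw [pow_succ', ← Nat.div_div_eq_div_mul, Nat.add_mul_div_left _ _ hb0,
            Nat.div_eq_of_lt (mem_range.1 he), Nat.zero_add]
        · rw [pow_zero, Nat.div_one]
      rw [sum_congr rfl e1, ← mul_sum]
      exact mul_le_mul_of_nonneg_left (P1_sum b hb ρ hρ k) (hP k)
    refine (sum_le_sum hs).trans ?_
    rw [← sum_mul]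
    have h1 : (0 : ℝ) ≤ 1 + b * ρ := by positivity
    calc (∑ k ∈ range (b ^ (K + 1)), ∏ j ∈ range K, gg b ρ (k / b ^ j % b ^ 2)) * (1 + b * ρ)
        ≤ (b * (1 + b * ρ) ^ K) * (1 + b * ρ) := mul_le_mul_of_nonneg_right ih h1
      _ = b * (1 + b * ρ) ^ (K + 1) := by ring

theorem cell_bound (b : ℕ) (hb : 2 ≤ b) (c : ℝ) (hc : 0 < c) (hc1 : c < 1) (T K : ℕ) (x : ℝ)
    (hx0 : 0 ≤ x) (hx1 : x < 1) :
    VV b c (K + 1) x ^ T ≤
      ∏ j ∈ range K, gg b ((1 - c / (b : ℝ) ^ 4) ^ T) (⌊(b : ℝ) ^ (K + 1) * x⌋₊ / b ^ j % b ^ 2) := by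
  have hb0 : 0 < b := by omega
  have hbr : (0 : ℝ) < b := by exact_mod_cast hb0
  obtain ⟨N, hN⟩ : ∃ N : ℕ, N = ⌊(b : ℝ) ^ (K + 1) * x⌋₊ := ⟨_, rfl⟩
  obtain ⟨ρ, hρ⟩ : ∃ ρ : ℝ, ρ = (1 - c / (b : ℝ) ^ 4) ^ T := ⟨_, rfl⟩
  rw [← hN, ← hρ]
  unfold VV
  rw [prod_range_succ]
  have hF : ∀ i : ℕ, 0 ≤ 1 - c * nd ((b : ℝ) ^ i * x) ^ 2 ∧
      1 - c * nd ((b : ℝ) ^ i * x) ^ 2 ≤ 1 := fun i => VV_factor hc hc1 _
  have h1 : (∏ i ∈ range K, (1 - c * nd ((b : ℝ) ^ i * x) ^ 2)) *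
      (1 - c * nd ((b : ℝ) ^ K * x) ^ 2) ≤ ∏ i ∈ range K, (1 - c * nd ((b : ℝ) ^ i * x) ^ 2) :=
    mul_le_of_le_one_right (prod_nonneg fun i _ => (hF i).1) (hF K).2
  have h0 : 0 ≤ (∏ i ∈ range K, (1 - c * nd ((b : ℝ) ^ i * x) ^ 2)) *
      (1 - c * nd ((b : ℝ) ^ K * x) ^ 2) :=
    mul_nonneg (prod_nonneg fun i _ => (hF i).1) (hF K).1
  refine (pow_le_pow_left₀ h0 h1 T).trans ?_
  rw [← prod_pow, ← Finset.prod_range_reflect (fun j => gg b ρ (N / b ^ j % b ^ 2)) K]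
  refine prod_le_prod (fun i _ => pow_nonneg (hF i).1 T) fun i hi => ?_
  have hiK := mem_range.1 hi
  have hfl : N / b ^ (K - 1 - i) = ⌊(b : ℝ) ^ (i + 2) * x⌋₊ := by
    rw [hN, ← Nat.floor_div_natCast]
    congr 1
    push_cast
    rw [div_eq_iff (by positivity)]
    have : (b : ℝ) ^ (K + 1) = (b : ℝ) ^ (i + 2) * (b : ℝ) ^ (K - 1 - i) := by
      rw [← pow_add]
      congr 1
      omega
    rw [this]
    ring
  show (1 - c * nd ((b : ℝ) ^ i * x) ^ 2) ^ T ≤ gg b ρ (N / b ^ (K - 1 - i) % b ^ 2)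
  rw [hfl]
  unfold gg
  split_ifs with hv
  · exact pow_le_one₀ (hF i).1 (hF i).2
  · rw [hρ]
    refine pow_le_pow_left₀ (hF i).1 ?_ T
    have hpos : 0 < b ^ 2 := by positivity
    have hmod := Nat.mod_lt ⌊(b : ℝ) ^ (i + 2) * x⌋₊ hpos
    have hv12 : 1 ≤ ⌊(b : ℝ) ^ (i + 2) * x⌋₊ % b ^ 2 ∧
        ⌊(b : ℝ) ^ (i + 2) * x⌋₊ % b ^ 2 + 2 ≤ b ^ 2 := by
      generalize ⌊(b : ℝ) ^ (i + 2) * x⌋₊ % b ^ 2 = v at hv hmod ⊢
      generalize b ^ 2 = B at hv hmod ⊢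
      omega
    have hxi : (0 : ℝ) ≤ (b : ℝ) ^ (i + 2) * x := by positivity
    have e0 : (b : ℝ) ^ 2 * ((b : ℝ) ^ i * x) = (b : ℝ) ^ (i + 2) * x := by ring
    have hnd := P1_nd hb ((b : ℝ) ^ i * x) ⌊(b : ℝ) ^ (i + 2) * x⌋₊
      (⌊(b : ℝ) ^ (i + 2) * x⌋₊ / b ^ 2) (⌊(b : ℝ) ^ (i + 2) * x⌋₊ % b ^ 2)
      (by rw [e0]; exact Nat.floor_le hxi) (by rw [e0]; exact Nat.lt_floor_add_one _)
      (Nat.div_add_mod _ _).symm hv12.1 hv12.2
    have h3 : (1 / (b : ℝ) ^ 2) ^ 2 ≤ nd ((b : ℝ) ^ i * x) ^ 2 :=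
      pow_le_pow_left₀ (by positivity) hnd 2
    have h4 : c / (b : ℝ) ^ 4 = c * (1 / (b : ℝ) ^ 2) ^ 2 := by
      field_simp
    rw [h4]
    have := mul_le_mul_of_nonneg_left h3 hc.le
    linarith

end Pool.Agent.LibRN31
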