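import Pool.Agent.LibRN31.SD

/-!
# Row P2 (MEDIUM): pointwise bound of the window product at a fraction

PLAN. `y = a/d` not an integer. For every `i`, `z = b^i a/d` is not an integer (`d` prime to `b`, `d ∤ a`), so `nd z ≥ 1/d`
(distance of a fraction with denominator `d` to an integer it is not equal to). If `nd z < 1/(2b)` then `nd (b z) = b * nd z`
(`|b z - b n| < 1/2`, so `round (b z) = b n`; or prove only `b * nd z ≤ nd (b z)`). Hence among the `m` numbers `nd (b^(i+t) a/d)`, `t < m`, one is `≥ 1/(2b)`: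
otherwise `nd (b^m z) ≥ b^m nd z ≥ b^m/d > 1`, against `nd_le_half`. So every block of `m` consecutive factors has one factor
`≤ 1 - c/(4 b^2)`, all other factors are in `[0,1]` (`VV_factor`); induct on the number of blocks `w/m`
(`VV b c w x ≤ VV b c (m * q) x`, `q = w/m`; `prod_range_add`).
-/

namespace Pool.Agent.LibRN31

open Finset Pool.Agent.LibHG31 Pool.Agent.LibHG31.TT

private theorem P2_round_eq {y : ℝ} {n : ℤ} (h : |y - n| < 1 / 2) : round y = n := by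
  rw [round_eq, Int.floor_eq_iff]
  rw [abs_lt] at h
  constructor <;> linarith [h.1, h.2]

private theorem P2_step (b : ℕ) (hb : 2 ≤ b) {z : ℝ} (hz : nd z < 1 / (2 * (b : ℝ))) :
    (b : ℝ) * nd z ≤ nd (b * z) := by
  have hb0 : (0 : ℝ) < b := by positivity
  have h1 : |(b : ℝ) * z - ((b * round z : ℤ) : ℝ)| = b * nd z := by
    unfold nd
    push_cast
    rw [← mul_sub, abs_mul, abs_of_pos hb0]
  have h2 : (b : ℝ) * nd z < 1 / 2 := by
    have := mul_lt_mul_of_pos_left hz hb0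
    have h3 : (b : ℝ) * (1 / (2 * (b : ℝ))) = 1 / 2 := by field_simp
    linarith
  have h3 : round ((b : ℝ) * z) = (b * round z : ℤ) := P2_round_eq (by rw [h1]; exact h2)
  have h4 : nd ((b : ℝ) * z) = b * nd z := by
    rw [← h1]
    unfold nd
    rw [h3]
  exact h4.ge

private theorem P2_frac (d A : ℕ) (hd : 0 < d) (hA : ¬ d ∣ A) :
    1 / (d : ℝ) ≤ nd ((A : ℝ) / d) := by
  have hd0 : (0 : ℝ) < d := by exact_mod_cast hd
  unfold nd
  set r := round ((A : ℝ) / d) with hr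
  have h1 : (A : ℝ) / d - r = (((A : ℤ) - d * r : ℤ) : ℝ) / d := by
    push_cast
    field_simp
  rw [h1, abs_div, abs_of_pos hd0]
  have h2 : ((A : ℤ) - d * r : ℤ) ≠ 0 := by
    intro h
    apply hA
    have h3 : (d : ℤ) ∣ (A : ℤ) := ⟨r, by linarith⟩
    exact_mod_cast h3
  have h3 : (1 : ℝ) ≤ |(((A : ℤ) - d * r : ℤ) : ℝ)| := by
    have h4 : 1 ≤ |(A : ℤ) - d * r| := Int.one_le_abs h2
    exact_mod_cast h4
  exact div_le_div_of_nonneg_right h3 hd0.le

private theorem P2_exists (b : ℕ) (hb : 2 ≤ b) (d A : ℕ) (hd : 0 < d) (hA : ¬ d ∣ A) (m : ℕ)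
    (hm : d < b ^ m) : ∃ t, t < m ∧ 1 / (2 * (b : ℝ)) ≤ nd ((b : ℝ) ^ t * ((A : ℝ) / d)) := by
  by_contra hcon
  push Not at hcon
  have hd0 : (0 : ℝ) < d := by exact_mod_cast hd
  have key : ∀ t, t ≤ m → (b : ℝ) ^ t * (1 / (d : ℝ)) ≤ nd ((b : ℝ) ^ t * ((A : ℝ) / d)) := by
    intro t
    induction t with
    | zero => intro _; simpa using P2_frac d A hd hA
    | succ t ih =>
      intro ht
      have h1 := ih (by omega)
      have h2 := P2_step b hb (hcon t (by omega))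
      have h3 : (b : ℝ) ^ (t + 1) * ((A : ℝ) / d) = b * ((b : ℝ) ^ t * ((A : ℝ) / d)) := by
        rw [pow_succ]; ring
      rw [h3]
      refine le_trans ?_ h2
      have h4 : (b : ℝ) ^ (t + 1) * (1 / (d : ℝ)) = b * ((b : ℝ) ^ t * (1 / (d : ℝ))) := by
        rw [pow_succ]; ring
      rw [h4]
      exact mul_le_mul_of_nonneg_left h1 (by positivity)
  have h1 := key m le_rfl
  have h2 := nd_le_half ((b : ℝ) ^ m * ((A : ℝ) / d))
  have h3 : (1 : ℝ) ≤ (b : ℝ) ^ m * (1 / (d : ℝ)) := by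
    rw [mul_one_div, le_div_iff₀ hd0, one_mul]
    exact_mod_cast hm.le
  linarith

private theorem P2_block {ι : Type*} [DecidableEq ι] (s : Finset ι) (f : ι → ℝ) (h0 : ∀ i, 0 ≤ f i)
    (h1 : ∀ i, f i ≤ 1) (t : ι) (ht : t ∈ s) : ∏ i ∈ s, f i ≤ f t := by
  rw [← Finset.mul_prod_erase s f ht]
  exact mul_le_of_le_one_right (h0 t) (prod_le_one (fun i _ => h0 i) fun i _ => h1 i)

theorem window (b : ℕ) (hb : 2 ≤ b) (c : ℝ) (hc : 0 < c) (hc1 : c < 1) (d a : ℕ) (hd : 0 < d)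
    (hcop : d.Coprime b) (ha : ¬ d ∣ a) (m : ℕ) (hm0 : 0 < m) (hm : d < b ^ m) (w : ℕ) :
    VV b c w ((a : ℝ) / d) ≤ (1 - c / (4 * (b : ℝ) ^ 2)) ^ (w / m) := by
  have hb0 : (0 : ℝ) < b := by positivity
  have hfac := fun y : ℝ => VV_factor hc hc1 y
  have hblock : ∀ i, (∏ t ∈ range m, (1 - c * nd ((b : ℝ) ^ (i + t) * ((a : ℝ) / d)) ^ 2)) ≤
      1 - c / (4 * (b : ℝ) ^ 2) := by
    intro i
    have hA : ¬ d ∣ b ^ i * a := by
      intro h
      exact ha ((Nat.Coprime.pow_right i hcop).dvd_of_dvd_mul_left h)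
    obtain ⟨t, htm, ht⟩ := P2_exists b hb d (b ^ i * a) hd hA m hm
    refine (P2_block (range m) (fun t => 1 - c * nd ((b : ℝ) ^ (i + t) * ((a : ℝ) / d)) ^ 2)
      (fun t => (hfac _).1) (fun t => (hfac _).2) t (mem_range.2 htm)).trans ?_
    have h1 : (b : ℝ) ^ t * (((b ^ i * a : ℕ) : ℝ) / d) = (b : ℝ) ^ (i + t) * ((a : ℝ) / d) := by
      push_cast
      rw [pow_add]
      ring
    rw [h1] at ht
    have h2 : (1 / (2 * (b : ℝ))) ^ 2 ≤ nd ((b : ℝ) ^ (i + t) * ((a : ℝ) / d)) ^ 2 :=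
      pow_le_pow_left₀ (by positivity) ht 2
    have h3 : c / (4 * (b : ℝ) ^ 2) = c * (1 / (2 * (b : ℝ))) ^ 2 := by
      field_simp
      norm_num
    rw [h3]
    have := mul_le_mul_of_nonneg_left h2 hc.le
    show 1 - c * nd ((b : ℝ) ^ (i + t) * ((a : ℝ) / d)) ^ 2 ≤ 1 - c * (1 / (2 * (b : ℝ))) ^ 2
    linarith
  have hnn : 0 ≤ 1 - c / (4 * (b : ℝ) ^ 2) := by
    refine le_trans ?_ (hblock 0)
    exact prod_nonneg fun _ _ => (hfac _).1
  have hmul : ∀ q, VV b c (m * q) ((a : ℝ) / d) ≤ (1 - c / (4 * (b : ℝ) ^ 2)) ^ q := by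
    intro q
    induction q with
    | zero => simp [VV]
    | succ q ih =>
      have h1 : VV b c (m * (q + 1)) ((a : ℝ) / d) = VV b c (m * q) ((a : ℝ) / d) *
          ∏ t ∈ range m, (1 - c * nd ((b : ℝ) ^ (m * q + t) * ((a : ℝ) / d)) ^ 2) := by
        unfold VV
        rw [mul_add, mul_one, prod_range_add]
      rw [h1, pow_succ]
      exact mul_le_mul ih (hblock _) (prod_nonneg fun _ _ => (hfac _).1) (pow_nonneg hnn q)
  refine le_trans ?_ (hmul (w / m))
  have h1 : w = m * (w / m) + w % m := (Nat.div_add_mod w m).symm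
  have h2 : VV b c w ((a : ℝ) / d) = VV b c (m * (w / m)) ((a : ℝ) / d) *
      ∏ t ∈ range (w % m), (1 - c * nd ((b : ℝ) ^ (m * (w / m) + t) * ((a : ℝ) / d)) ^ 2) := by
    conv_lhs => rw [h1]
    unfold VV
    rw [prod_range_add]
  rw [h2]
  exact mul_le_of_le_one_right (VV_nonneg b hc hc1 _ _)
    (prod_le_one (fun _ _ => (hfac _).1) fun _ _ => (hfac _).2)

end Pool.Agent.LibRN31
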