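import Pool.Agent.LibRN31.SD

/-!
# Row P3 (MEDIUM): blocks of the window, arithmetic-geometric mean, permutation of the residues

PLAN. `n = 8 T`. `VV w x ≤ VV (n K) x = ∏_{s<n} VV K (b^(s K) x)` (factors in `[0,1]`: `VV_factor`; `prod_range_mul`-type splitting,
`b^(sK+i) x = b^i (b^(sK) x)`). With `z_s = VV K (b^(sK) x) ^ T ≥ 0`:
`(∏ VV K ..)^(1/8) = ∏ z_s^(1/n) ≤ (1/n) ∑_s z_s` (`Real.geom_mean_le_arith_mean_weighted`, `Real.inner_le_..`; `z^(1/n) = (VV)^(T/n) = VV^(1/8)`).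
Sum over reduced `a`: for each `s`, `a ↦ b^(sK) a % d` is a permutation of `{1 ≤ a < d, (a,d) = 1}` and
`VV K (b^(sK) a/d) = VV K ((b^(sK) a % d)/d)` since `nd` has period 1 (`nd_add_int`, `nd_add_nat`): so the sum over `a` of `z_s` does not depend on `s`.
-/

namespace Pool.Agent.LibRN31

open Finset Pool.Agent.LibHG31 Pool.Agent.LibHG31.TT

private theorem P3_perm (d M : ℕ) (hM : M.Coprime d) (S : Finset ℕ) (hS : ∀ a ∈ S, a < d)
    (hf : ∀ a ∈ S, M * a % d ∈ S) (G : ℕ → ℝ) : ∑ a ∈ S, G (M * a % d) = ∑ a ∈ S, G a := by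
  classical
  have hinj : Set.InjOn (fun a => M * a % d) (S : Set ℕ) := by
    intro a ha a' ha' h
    have h1 : M * a ≡ M * a' [MOD d] := h
    have h2 : a ≡ a' [MOD d] := Nat.ModEq.cancel_left_of_coprime (Nat.Coprime.symm hM) h1
    exact Nat.ModEq.eq_of_lt_of_lt h2 (hS a ha) (hS a' ha')
  have himg : S.image (fun a => M * a % d) = S := by
    refine eq_of_subset_of_card_le ?_ ?_
    · intro x hx
      obtain ⟨a, ha, rfl⟩ := mem_image.1 hx
      exact hf a ha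
    · rw [card_image_of_injOn hinj]
  have h3 : ∑ a ∈ S.image (fun a => M * a % d), G a = ∑ a ∈ S, G (M * a % d) :=
    sum_image hinj
  rw [← h3, himg]

private theorem P3_red (d M a : ℕ) (hd : 0 < d) (F : ℝ → ℝ)
    (hF : ∀ (x : ℝ) (n : ℕ), F (x + n) = F x) :
    F ((M : ℝ) * ((a : ℝ) / d)) = F (((M * a % d : ℕ) : ℝ) / d) := by
  have hd' : (d : ℝ) ≠ 0 := by exact_mod_cast hd.ne'
  have h1 : (M : ℝ) * ((a : ℝ) / d) = ((M * a % d : ℕ) : ℝ) / d + ((M * a / d : ℕ) : ℝ) := by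
    have h2 : ((d * (M * a / d) + M * a % d : ℕ) : ℝ) = ((M * a : ℕ) : ℝ) := by
      rw [Nat.div_add_mod]
    push_cast at h2
    field_simp
    linarith
  rw [h1, hF]

private theorem P3_per (b : ℕ) (c : ℝ) (K : ℕ) (x : ℝ) (n : ℕ) : VV b c K (x + n) = VV b c K x := by
  unfold VV
  refine prod_congr rfl fun i _ => ?_
  have h1 : (b : ℝ) ^ i * (x + n) = (b : ℝ) ^ i * x + ((b ^ i * n : ℕ) : ℝ) := by
    push_cast
    ring
  rw [h1, nd_add_nat]

private theorem P3_blocks (b : ℕ) (c : ℝ) (K : ℕ) (x : ℝ) (n : ℕ) :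
    VV b c (n * K) x = ∏ s ∈ range n, VV b c K ((b : ℝ) ^ (s * K) * x) := by
  induction n with
  | zero => simp [VV]
  | succ n ih =>
    rw [prod_range_succ, ← ih]
    unfold VV
    rw [Nat.succ_mul, prod_range_add]
    congr 1
    refine prod_congr rfl fun i _ => ?_
    have h : (b : ℝ) ^ (n * K + i) * x = (b : ℝ) ^ i * ((b : ℝ) ^ (n * K) * x) := by
      rw [pow_add]
      ring
    rw [h]

private theorem P3_mono (b : ℕ) {c : ℝ} (hc : 0 < c) (hc1 : c < 1) {m w : ℕ} (h : m ≤ w) (x : ℝ) :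
    VV b c w x ≤ VV b c m x := by
  obtain ⟨k, rfl⟩ := Nat.exists_eq_add_of_le h
  have h1 : VV b c (m + k) x = VV b c m x *
      ∏ i ∈ range k, (1 - c * nd ((b : ℝ) ^ (m + i) * x) ^ 2) := by
    unfold VV
    rw [prod_range_add]
  rw [h1]
  have h2 : ∏ i ∈ range k, (1 - c * nd ((b : ℝ) ^ (m + i) * x) ^ 2) ≤ 1 :=
    prod_le_one (fun _ _ => (VV_factor hc hc1 _).1) fun _ _ => (VV_factor hc hc1 _).2
  exact mul_le_of_le_one_right (VV_nonneg b hc hc1 m x) h2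

private theorem P3_point (b : ℕ) {c : ℝ} (hc : 0 < c) (hc1 : c < 1) (T K w : ℕ) (hT : 0 < T)
    (hw : 8 * T * K ≤ w) (x : ℝ) :
    VV b c w x ^ (1 / 8 : ℝ) ≤
      ∑ s ∈ range (8 * T), (1 / ((8 * T : ℕ) : ℝ)) * VV b c K ((b : ℝ) ^ (s * K) * x) ^ T := by
  have hn : (0 : ℝ) < ((8 * T : ℕ) : ℝ) := by
    have : 0 < 8 * T := by omega
    exact_mod_cast this
  have h1 : VV b c w x ^ (1 / 8 : ℝ) ≤
      (∏ s ∈ range (8 * T), VV b c K ((b : ℝ) ^ (s * K) * x)) ^ (1 / 8 : ℝ) := by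
    rw [← P3_blocks]
    exact Real.rpow_le_rpow (VV_nonneg b hc hc1 w x) (P3_mono b hc hc1 hw x) (by norm_num)
  have h2 : (∏ s ∈ range (8 * T), VV b c K ((b : ℝ) ^ (s * K) * x)) ^ (1 / 8 : ℝ) =
      ∏ s ∈ range (8 * T), (VV b c K ((b : ℝ) ^ (s * K) * x) ^ T) ^ (1 / ((8 * T : ℕ) : ℝ)) := by
    rw [← Real.finsetProd_rpow _ _ fun s _ => VV_nonneg b hc hc1 K _]
    refine prod_congr rfl fun s _ => ?_
    rw [← Real.rpow_natCast (VV b c K ((b : ℝ) ^ (s * K) * x)) T,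
      ← Real.rpow_mul (VV_nonneg b hc hc1 K _)]
    congr 1
    have hT' : (T : ℝ) ≠ 0 := by exact_mod_cast hT.ne'
    push_cast
    field_simp
  refine h1.trans (h2.le.trans ?_)
  refine Real.geom_mean_le_arith_mean_weighted (range (8 * T)) (fun _ => 1 / ((8 * T : ℕ) : ℝ))
    (fun s => VV b c K ((b : ℝ) ^ (s * K) * x) ^ T) (fun _ _ => by positivity) ?_
    (fun s _ => pow_nonneg (VV_nonneg b hc hc1 K _) T)
  rw [sum_const, card_range, nsmul_eq_mul]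
  field_simp

theorem amgm (b : ℕ) (hb : 2 ≤ b) (c : ℝ) (hc : 0 < c) (hc1 : c < 1) (d : ℕ) (hd : 0 < d)
    (hcop : d.Coprime b) (T K w : ℕ) (hT : 0 < T) (hw : 8 * T * K ≤ w) :
    ∑ a ∈ (Ico 1 d).filter (fun a => a.Coprime d), VV b c w ((a : ℝ) / d) ^ (1 / 8 : ℝ) ≤
      ∑ a ∈ (Ico 1 d).filter (fun a => a.Coprime d), VV b c K ((a : ℝ) / d) ^ T := by
  obtain ⟨S, hS⟩ : ∃ S, S = (Ico 1 d).filter (fun a => a.Coprime d) := ⟨_, rfl⟩
  rw [← hS]
  have hSlt : ∀ a ∈ S, a < d := by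
    intro a ha
    rw [hS, mem_filter, mem_Ico] at ha
    exact ha.1.2
  have hn : (0 : ℝ) < ((8 * T : ℕ) : ℝ) := by
    have : 0 < 8 * T := by omega
    exact_mod_cast this
  have key : ∀ s ∈ range (8 * T), ∑ a ∈ S, VV b c K ((b : ℝ) ^ (s * K) * ((a : ℝ) / d)) ^ T =
      ∑ a ∈ S, VV b c K ((a : ℝ) / d) ^ T := by
    intro s _
    have hMc : (b ^ (s * K)).Coprime d := Nat.Coprime.pow_left _ hcop.symm
    have hf : ∀ a ∈ S, b ^ (s * K) * a % d ∈ S := by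
      intro a ha
      rw [hS, mem_filter, mem_Ico] at ha
      rw [hS, mem_filter, mem_Ico]
      have h1 : (b ^ (s * K) * a).Coprime d := Nat.Coprime.mul_left hMc ha.2
      have h2 : (b ^ (s * K) * a % d).Coprime d := by
        rw [Nat.Coprime, ← Nat.gcd_rec, Nat.gcd_comm]
        exact h1
      refine ⟨⟨?_, Nat.mod_lt _ hd⟩, h2⟩
      rcases Nat.eq_zero_or_pos (b ^ (s * K) * a % d) with h0 | h0
      · rw [h0, Nat.coprime_zero_left] at h2
        omega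
      · exact h0
    have h3 := P3_perm d (b ^ (s * K)) hMc S hSlt hf fun a => VV b c K ((a : ℝ) / d) ^ T
    rw [← h3]
    refine sum_congr rfl fun a _ => ?_
    have h4 := P3_red d (b ^ (s * K)) a hd (fun x => VV b c K x ^ T) fun x n => by
      show VV b c K (x + n) ^ T = VV b c K x ^ T
      rw [P3_per]
    push_cast at h4
    exact h4
  calc ∑ a ∈ S, VV b c w ((a : ℝ) / d) ^ (1 / 8 : ℝ)
      ≤ ∑ a ∈ S, ∑ s ∈ range (8 * T),
          (1 / ((8 * T : ℕ) : ℝ)) * VV b c K ((b : ℝ) ^ (s * K) * ((a : ℝ) / d)) ^ T :=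
        sum_le_sum fun a _ => P3_point b hc hc1 T K w hT hw _
    _ = ∑ s ∈ range (8 * T), (1 / ((8 * T : ℕ) : ℝ)) *
          ∑ a ∈ S, VV b c K ((b : ℝ) ^ (s * K) * ((a : ℝ) / d)) ^ T := by
        rw [sum_comm]
        refine sum_congr rfl fun s _ => ?_
        rw [mul_sum]
    _ = ∑ s ∈ range (8 * T), (1 / ((8 * T : ℕ) : ℝ)) * ∑ a ∈ S, VV b c K ((a : ℝ) / d) ^ T :=
        sum_congr rfl fun s hs => by rw [key s hs]
    _ = ∑ a ∈ S, VV b c K ((a : ℝ) / d) ^ T := by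
        rw [sum_const, card_range, nsmul_eq_mul, ← mul_assoc, mul_one_div_cancel hn.ne', one_mul]

/-- multiplying by `M` prime to `d` permutes the nonzero residues mod `d` -/
theorem perm_sum (d M : ℕ) (hd : 0 < d) (hM : M.Coprime d) (F : ℝ → ℝ) (hF : ∀ (x : ℝ) (n : ℕ), F (x + n) = F x) :
    ∑ a ∈ Ico 1 d, F ((M : ℝ) * ((a : ℝ) / d)) = ∑ a ∈ Ico 1 d, F ((a : ℝ) / d) := by
  have hf : ∀ a ∈ Ico 1 d, M * a % d ∈ Ico 1 d := by
    intro a ha
    rw [mem_Ico] at ha ⊢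
    refine ⟨?_, Nat.mod_lt _ hd⟩
    rcases Nat.eq_zero_or_pos (M * a % d) with h0 | h0
    · have h1 : d ∣ M * a := Nat.dvd_of_mod_eq_zero h0
      have h2 : d ∣ a := (Nat.Coprime.symm hM).dvd_of_dvd_mul_left h1
      have h3 := Nat.le_of_dvd (by omega) h2
      omega
    · exact h0
  rw [← P3_perm d M hM (Ico 1 d) (fun a ha => (mem_Ico.1 ha).2) hf fun a => F ((a : ℝ) / d)]
  exact sum_congr rfl fun a _ => P3_red d M a hd F hF

end Pool.Agent.LibRN31
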