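import Mathlib

/-!
# Row P4 (MEDIUM, only Mathlib): grouping by reduced fractions

PLAN. For every `d ≥ 1`: `∑_{1 ≤ a < d} F (a/d) = ∑_{e ∣ d, e ≥ 2} ∑_{1 ≤ a' < e, (a',e)=1} F (a'/e)` (`g = gcd a d`, `e = d/g`, `a' = a/g`;
`Finset.sum_bij'` or `Finset.sum_fiberwise` over `e`). All `e ∣ d` are prime to `b` if `d` is. Interchange:
`∑_d (1/d) ∑_{e ∣ d} G e = ∑_e G e ∑_{d ≤ D, e ∣ d} 1/d`, `∑_{d ≤ D, e ∣ d} 1/d = (1/e) ∑_{i ≤ D/e} 1/i ≤ (1/e) (1 + log D)`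
(`harmonic_le_one_add_log`; compare `t13_harm`, `t13_coef` in Pool/Agent/LibHG31/T13.lean). `G e ≥ 0`.
-/

namespace Pool.Agent.LibRN31

open Finset

private theorem P4_harm (D : ℕ) : ∑ g ∈ Icc 1 D, 1 / (g : ℝ) ≤ 1 + Real.log D := by
  have h := harmonic_le_one_add_log D
  rw [harmonic_eq_sum_Icc] at h
  push_cast at h
  simpa [one_div] using h

private def P4_phi (x : Σ _ : ℕ, ℕ) : (Σ _ : ℕ, ℕ) × ℕ :=
  (⟨x.1 / Nat.gcd x.2 x.1, x.2 / Nat.gcd x.2 x.1⟩, Nat.gcd x.2 x.1)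

theorem group (b D : ℕ) (F : ℝ → ℝ) (hF : ∀ x, 0 ≤ F x) :
    ∑ d ∈ (Icc 2 D).filter (fun d => d.Coprime b), (1 / (d : ℝ)) * ∑ a ∈ Ico 1 d, F ((a : ℝ) / d) ≤
      (1 + Real.log D) * ∑ d ∈ (Icc 2 D).filter (fun d => d.Coprime b), (1 / (d : ℝ)) *
        ∑ a ∈ (Ico 1 d).filter (fun a => a.Coprime d), F ((a : ℝ) / d) := by
  classical
  set A := (Icc 2 D).filter (fun d => d.Coprime b) with hA
  set P : Finset (Σ _ : ℕ, ℕ) := A.sigma (fun d => Ico 1 d) with hP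
  set R : Finset (Σ _ : ℕ, ℕ) := A.sigma (fun d => (Ico 1 d).filter (fun a => a.Coprime d)) with hR
  set g : (Σ _ : ℕ, ℕ) × ℕ → ℝ :=
    fun y => ((1 / (y.1.1 : ℝ)) * F ((y.1.2 : ℝ) / y.1.1)) * (1 / (y.2 : ℝ)) with hg
  have hgn : ∀ y, 0 ≤ g y := by
    intro y
    rw [hg]
    exact mul_nonneg (mul_nonneg (by positivity) (hF _)) (by positivity)
  have hL : ∑ d ∈ A, (1 / (d : ℝ)) * ∑ a ∈ Ico 1 d, F ((a : ℝ) / d) =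
      ∑ x ∈ P, (1 / (x.1 : ℝ)) * F ((x.2 : ℝ) / x.1) := by
    rw [hP, Finset.sum_sigma]
    refine Finset.sum_congr rfl fun d _ => ?_
    rw [Finset.mul_sum]
  have hRr : ∑ d ∈ A, (1 / (d : ℝ)) * ∑ a ∈ (Ico 1 d).filter (fun a => a.Coprime d),
      F ((a : ℝ) / d) = ∑ x ∈ R, (1 / (x.1 : ℝ)) * F ((x.2 : ℝ) / x.1) := by
    rw [hR, Finset.sum_sigma]
    refine Finset.sum_congr rfl fun d _ => ?_
    rw [Finset.mul_sum]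
  have hmemP : ∀ x ∈ P, (2 ≤ x.1 ∧ x.1 ≤ D) ∧ x.1.Coprime b ∧ 1 ≤ x.2 ∧ x.2 < x.1 := by
    intro x hx
    rw [hP, Finset.mem_sigma, hA, Finset.mem_filter, Finset.mem_Icc, Finset.mem_Ico] at hx
    exact ⟨hx.1.1, hx.1.2, hx.2.1, hx.2.2⟩
  have hgpos : ∀ x ∈ P, 0 < Nat.gcd x.2 x.1 := by
    intro x hx
    obtain ⟨-, -, h1, -⟩ := hmemP x hx
    exact Nat.gcd_pos_of_pos_left _ h1
  have hval : ∀ x ∈ P, (1 / (x.1 : ℝ)) * F ((x.2 : ℝ) / x.1) = g (P4_phi x) := by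
    intro x hx
    have h0 := hgpos x hx
    have hd : x.1 / Nat.gcd x.2 x.1 * Nat.gcd x.2 x.1 = x.1 :=
      Nat.div_mul_cancel (Nat.gcd_dvd_right _ _)
    have ha : x.2 / Nat.gcd x.2 x.1 * Nat.gcd x.2 x.1 = x.2 :=
      Nat.div_mul_cancel (Nat.gcd_dvd_left _ _)
    have hd' : ((x.1 / Nat.gcd x.2 x.1 : ℕ) : ℝ) * (Nat.gcd x.2 x.1 : ℝ) = x.1 := by
      exact_mod_cast hd
    have ha' : ((x.2 / Nat.gcd x.2 x.1 : ℕ) : ℝ) * (Nat.gcd x.2 x.1 : ℝ) = x.2 := by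
      exact_mod_cast ha
    have hg0 : (Nat.gcd x.2 x.1 : ℝ) ≠ 0 := by exact_mod_cast h0.ne'
    show _ = ((1 / ((x.1 / Nat.gcd x.2 x.1 : ℕ) : ℝ)) *
      F (((x.2 / Nat.gcd x.2 x.1 : ℕ) : ℝ) / ((x.1 / Nat.gcd x.2 x.1 : ℕ) : ℝ))) *
        (1 / (Nat.gcd x.2 x.1 : ℝ))
    have e1 : (x.2 : ℝ) / x.1 =
        ((x.2 / Nat.gcd x.2 x.1 : ℕ) : ℝ) / ((x.1 / Nat.gcd x.2 x.1 : ℕ) : ℝ) := by
      rw [← hd', ← ha', mul_div_mul_right _ _ hg0]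
    have e2 : 1 / (x.1 : ℝ) =
        1 / ((x.1 / Nat.gcd x.2 x.1 : ℕ) : ℝ) * (1 / (Nat.gcd x.2 x.1 : ℝ)) := by
      rw [← hd', hd', one_div_mul_one_div, hd']
    rw [e1, e2]
    ring
  have hinj : Set.InjOn P4_phi P := by
    intro x hx y hy hxy
    have hx' : x ∈ P := hx
    have hy' : y ∈ P := hy
    have h3 : Nat.gcd x.2 x.1 = Nat.gcd y.2 y.1 := congrArg Prod.snd hxy
    have h1 : x.1 / Nat.gcd x.2 x.1 = y.1 / Nat.gcd y.2 y.1 :=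
      congrArg (fun z : (Σ _ : ℕ, ℕ) × ℕ => z.1.1) hxy
    have h2 : x.2 / Nat.gcd x.2 x.1 = y.2 / Nat.gcd y.2 y.1 :=
      congrArg (fun z : (Σ _ : ℕ, ℕ) × ℕ => z.1.2) hxy
    have hd : x.1 / Nat.gcd x.2 x.1 * Nat.gcd x.2 x.1 = x.1 :=
      Nat.div_mul_cancel (Nat.gcd_dvd_right _ _)
    have ha : x.2 / Nat.gcd x.2 x.1 * Nat.gcd x.2 x.1 = x.2 :=
      Nat.div_mul_cancel (Nat.gcd_dvd_left _ _)
    have hd2 : y.1 / Nat.gcd y.2 y.1 * Nat.gcd y.2 y.1 = y.1 :=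
      Nat.div_mul_cancel (Nat.gcd_dvd_right _ _)
    have ha2 : y.2 / Nat.gcd y.2 y.1 * Nat.gcd y.2 y.1 = y.2 :=
      Nat.div_mul_cancel (Nat.gcd_dvd_left _ _)
    have e1 : x.1 = y.1 := by rw [← hd, ← hd2, h1, h3]
    have e2 : x.2 = y.2 := by rw [← ha, ← ha2, h2, h3]
    obtain ⟨x1, x2⟩ := x
    obtain ⟨y1, y2⟩ := y
    simp only at e1 e2
    subst e1
    subst e2
    rfl
  have hsub : P.image P4_phi ⊆ R ×ˢ Icc 1 D := by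
    intro z hz
    rw [Finset.mem_image] at hz
    obtain ⟨x, hx, rfl⟩ := hz
    have h0 := hgpos x hx
    obtain ⟨⟨h2, hD⟩, hcop, h1, hlt⟩ := hmemP x hx
    have hgd : Nat.gcd x.2 x.1 ∣ x.1 := Nat.gcd_dvd_right _ _
    have hga : Nat.gcd x.2 x.1 ∣ x.2 := Nat.gcd_dvd_left _ _
    have ha1 : 1 ≤ x.2 / Nat.gcd x.2 x.1 := Nat.div_pos (Nat.le_of_dvd h1 hga) h0
    have had : x.2 / Nat.gcd x.2 x.1 < x.1 / Nat.gcd x.2 x.1 :=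
      Nat.div_lt_div_of_lt_of_dvd hgd hlt
    have hdle : x.1 / Nat.gcd x.2 x.1 ≤ x.1 := Nat.div_le_self _ _
    rw [Finset.mem_product]
    refine ⟨?_, ?_⟩
    · rw [hR, Finset.mem_sigma, hA, Finset.mem_filter, Finset.mem_Icc, Finset.mem_filter,
        Finset.mem_Ico]
      show ((2 ≤ x.1 / Nat.gcd x.2 x.1 ∧ x.1 / Nat.gcd x.2 x.1 ≤ D) ∧
        (x.1 / Nat.gcd x.2 x.1).Coprime b) ∧ (1 ≤ x.2 / Nat.gcd x.2 x.1 ∧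
          x.2 / Nat.gcd x.2 x.1 < x.1 / Nat.gcd x.2 x.1) ∧
            (x.2 / Nat.gcd x.2 x.1).Coprime (x.1 / Nat.gcd x.2 x.1)
      refine ⟨⟨⟨by omega, by omega⟩, ?_⟩, ⟨ha1, had⟩, Nat.coprime_div_gcd_div_gcd h0⟩
      exact Nat.Coprime.coprime_dvd_left (Nat.div_dvd_of_dvd hgd) hcop
    · rw [Finset.mem_Icc]
      show 1 ≤ Nat.gcd x.2 x.1 ∧ Nat.gcd x.2 x.1 ≤ D
      exact ⟨h0, (Nat.le_of_dvd (by omega) hgd).trans hD⟩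
  have hS : 0 ≤ ∑ x ∈ R, (1 / (x.1 : ℝ)) * F ((x.2 : ℝ) / x.1) :=
    Finset.sum_nonneg fun x _ => mul_nonneg (by positivity) (hF _)
  rw [hL, hRr]
  calc ∑ x ∈ P, (1 / (x.1 : ℝ)) * F ((x.2 : ℝ) / x.1) = ∑ x ∈ P, g (P4_phi x) :=
        Finset.sum_congr rfl hval
    _ = ∑ y ∈ P.image P4_phi, g y := (Finset.sum_image hinj).symm
    _ ≤ ∑ y ∈ R ×ˢ Icc 1 D, g y :=
        Finset.sum_le_sum_of_subset_of_nonneg hsub fun y _ _ => hgn y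
    _ = (∑ x ∈ R, (1 / (x.1 : ℝ)) * F ((x.2 : ℝ) / x.1)) * ∑ k ∈ Icc 1 D, 1 / (k : ℝ) := by
        rw [Finset.sum_product, Finset.sum_mul_sum]
    _ ≤ (∑ x ∈ R, (1 / (x.1 : ℝ)) * F ((x.2 : ℝ) / x.1)) * (1 + Real.log D) :=
        mul_le_mul_of_nonneg_left (P4_harm D) hS
    _ = (1 + Real.log D) * ∑ x ∈ R, (1 / (x.1 : ℝ)) * F ((x.2 : ℝ) / x.1) := mul_comm _ _

end Pool.Agent.LibRN31
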