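import Pool.Agent.LibRN31.P1

/-!
# Row P5 (MEDIUM): one reduced fraction per cell

PLAN. Map the pair `(d, a)` (`2 ≤ d ≤ 2Y`, `1 ≤ a < d`, `(a,d) = 1`) to `k = ⌊b^(K+1) a/d⌋₊ < b^(K+1)`. It is injective: two different reduced fractions
satisfy `|a/d - a'/d'| ≥ 1/(d d') ≥ 1/(4Y^2) ≥ 1/b^(K+1)`, and two numbers with the same `k` differ by less than `1/b^(K+1)`.
`cell_bound` (P1) for each term, then the sum over the image is at most the sum over all `k < b^(K+1)` (terms `≥ 0`), `cell_total` (P1) with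
`ρ = (1 - c/b^4)^T`.
-/

namespace Pool.Agent.LibRN31

open Finset Pool.Agent.LibHG31 Pool.Agent.LibHG31.TT

private theorem P5_ne {B a d a' d' Y : ℕ} (hd : 0 < d) (hd' : 0 < d') (hdY : d ≤ 2 * Y)
    (hdY' : d' ≤ 2 * Y) (hB : 4 * Y ^ 2 ≤ B) (hlt : a * d' < a' * d) :
    ⌊(B : ℝ) * ((a : ℝ) / d)⌋₊ ≠ ⌊(B : ℝ) * ((a' : ℝ) / d')⌋₊ := by
  intro h
  have hdr : (0 : ℝ) < d := by exact_mod_cast hd
  have hdr' : (0 : ℝ) < d' := by exact_mod_cast hd'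
  have h1 : (B : ℝ) * ((a' : ℝ) / d') < ⌊(B : ℝ) * ((a' : ℝ) / d')⌋₊ + 1 := Nat.lt_floor_add_one _
  have h2 : (⌊(B : ℝ) * ((a : ℝ) / d)⌋₊ : ℝ) ≤ (B : ℝ) * ((a : ℝ) / d) :=
    Nat.floor_le (by positivity)
  rw [← h] at h1
  have h3 : (B : ℝ) * ((a' : ℝ) / d') - (B : ℝ) * ((a : ℝ) / d) < 1 := by linarith
  have h4 : (B : ℝ) * ((a' : ℝ) / d') - (B : ℝ) * ((a : ℝ) / d)
      = (B : ℝ) * ((a' : ℝ) * d - a * d') / (d * d') := by
    field_simp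
  rw [h4, div_lt_one (by positivity)] at h3
  have h5 : (a : ℝ) * d' + 1 ≤ a' * d := by exact_mod_cast hlt
  have h6 : (d : ℝ) * d' ≤ B := by
    have : d * d' ≤ B := by
      calc d * d' ≤ (2 * Y) * (2 * Y) := Nat.mul_le_mul hdY hdY'
        _ = 4 * Y ^ 2 := by ring
        _ ≤ B := hB
    exact_mod_cast this
  have h7 : (0 : ℝ) ≤ B := Nat.cast_nonneg _
  nlinarith

private theorem P5_inj {B a d a' d' Y : ℕ} (hd : 0 < d) (hd' : 0 < d') (hdY : d ≤ 2 * Y)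
    (hdY' : d' ≤ 2 * Y) (hB : 4 * Y ^ 2 ≤ B) (hc : a.Coprime d) (hc' : a'.Coprime d')
    (h : ⌊(B : ℝ) * ((a : ℝ) / d)⌋₊ = ⌊(B : ℝ) * ((a' : ℝ) / d')⌋₊) : d = d' ∧ a = a' := by
  have heq : a * d' = a' * d := by
    rcases lt_trichotomy (a * d') (a' * d) with h1 | h1 | h1
    · exact absurd h (P5_ne hd hd' hdY hdY' hB h1)
    · exact h1
    · exact absurd h.symm (P5_ne hd' hd hdY' hdY hB h1)
  have h1 : d ∣ d' := by
    have : d ∣ a * d' := heq ▸ Dvd.intro_left a' rfl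
    exact hc.symm.dvd_of_dvd_mul_left this
  have h2 : d' ∣ d := by
    have : d' ∣ a' * d := heq ▸ Dvd.intro_left a rfl
    exact hc'.symm.dvd_of_dvd_mul_left this
  have h3 : d = d' := Nat.dvd_antisymm h1 h2
  subst h3
  exact ⟨rfl, Nat.eq_of_mul_eq_mul_right hd heq⟩

theorem sep_sum (b : ℕ) (hb : 2 ≤ b) (c : ℝ) (hc : 0 < c) (hc1 : c < 1) (T K Y : ℕ)
    (hK : 4 * Y ^ 2 ≤ b ^ (K + 1)) :
    ∑ d ∈ Icc 2 (2 * Y), ∑ a ∈ (Ico 1 d).filter (fun a => a.Coprime d),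
      VV b c (K + 1) ((a : ℝ) / d) ^ T ≤ b * (1 + b * (1 - c / (b : ℝ) ^ 4) ^ T) ^ K := by
  classical
  have hb0 : (0 : ℝ) < b := by exact_mod_cast (by omega : 0 < b)
  have hb1 : (1 : ℝ) ≤ b := by exact_mod_cast (by omega : 1 ≤ b)
  have hρ0 : 0 ≤ 1 - c / (b : ℝ) ^ 4 := by
    have h1 : (1 : ℝ) ≤ (b : ℝ) ^ 4 := one_le_pow₀ hb1
    have h2 : c / (b : ℝ) ^ 4 ≤ 1 := by
      rw [div_le_one (by positivity)]
      linarith
    linarith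
  set ρ : ℝ := (1 - c / (b : ℝ) ^ 4) ^ T with hρ
  have hρn : 0 ≤ ρ := pow_nonneg hρ0 _
  have hgg : ∀ v, 0 ≤ gg b ρ v := by
    intro v
    unfold gg
    split_ifs
    · exact zero_le_one
    · exact hρn
  set S : Finset (Σ _ : ℕ, ℕ) :=
    (Icc 2 (2 * Y)).sigma (fun d => (Ico 1 d).filter (fun a => a.Coprime d)) with hS
  set φ : (Σ _ : ℕ, ℕ) → ℕ := fun x => ⌊(b : ℝ) ^ (K + 1) * ((x.2 : ℝ) / x.1)⌋₊ with hφ
  set P : ℕ → ℝ := fun k => ∏ j ∈ range K, gg b ρ (k / b ^ j % b ^ 2) with hP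
  have hmem : ∀ x ∈ S, 2 ≤ x.1 ∧ x.1 ≤ 2 * Y ∧ 1 ≤ x.2 ∧ x.2 < x.1 ∧ x.2.Coprime x.1 := by
    intro x hx
    rw [hS, mem_sigma, mem_Icc, mem_filter, mem_Ico] at hx
    exact ⟨hx.1.1, hx.1.2, hx.2.1.1, hx.2.1.2, hx.2.2⟩
  have hcast : ((b ^ (K + 1) : ℕ) : ℝ) = (b : ℝ) ^ (K + 1) := by push_cast; ring
  have hinj : Set.InjOn φ (S : Set (Σ _ : ℕ, ℕ)) := by
    intro x hx y hy hxy
    obtain ⟨h1, h2, h3, h4, h5⟩ := hmem x hx
    obtain ⟨g1, g2, g3, g4, g5⟩ := hmem y hy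
    have hxy' : ⌊((b ^ (K + 1) : ℕ) : ℝ) * ((x.2 : ℝ) / x.1)⌋₊
        = ⌊((b ^ (K + 1) : ℕ) : ℝ) * ((y.2 : ℝ) / y.1)⌋₊ := by
      rw [hcast]
      exact hxy
    obtain ⟨e1, e2⟩ := P5_inj (by omega) (by omega) h2 g2 hK h5 g5 hxy'
    obtain ⟨x1, x2⟩ := x
    obtain ⟨y1, y2⟩ := y
    simp only at e1 e2
    subst e1
    subst e2
    rfl
  have hsub : S.image φ ⊆ range (b ^ (K + 1)) := by
    intro k hk
    rw [mem_image] at hk
    obtain ⟨x, hx, rfl⟩ := hk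
    obtain ⟨h1, h2, h3, h4, h5⟩ := hmem x hx
    rw [mem_range]
    have hx1 : (0 : ℝ) < x.1 := by exact_mod_cast (by omega : 0 < x.1)
    have hlt : (x.2 : ℝ) / x.1 < 1 := by
      rw [div_lt_one hx1]
      exact_mod_cast h4
    have : (b : ℝ) ^ (K + 1) * ((x.2 : ℝ) / x.1) < ((b ^ (K + 1) : ℕ) : ℝ) := by
      rw [hcast]
      have : (0 : ℝ) < (b : ℝ) ^ (K + 1) := by positivity
      nlinarith
    exact (Nat.floor_lt (by positivity)).2 this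
  calc ∑ d ∈ Icc 2 (2 * Y), ∑ a ∈ (Ico 1 d).filter (fun a => a.Coprime d),
        VV b c (K + 1) ((a : ℝ) / d) ^ T
      = ∑ x ∈ S, VV b c (K + 1) ((x.2 : ℝ) / x.1) ^ T := by
        rw [hS, Finset.sum_sigma]
    _ ≤ ∑ x ∈ S, P (φ x) := by
        refine Finset.sum_le_sum fun x hx => ?_
        obtain ⟨h1, h2, h3, h4, h5⟩ := hmem x hx
        have hx1 : (0 : ℝ) < x.1 := by exact_mod_cast (by omega : 0 < x.1)
        refine cell_bound b hb c hc hc1 T K _ (by positivity) ?_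
        rw [div_lt_one hx1]
        exact_mod_cast h4
    _ = ∑ k ∈ S.image φ, P k := by
        rw [Finset.sum_image]
        exact fun x hx y hy h => hinj hx hy h
    _ ≤ ∑ k ∈ range (b ^ (K + 1)), P k :=
        Finset.sum_le_sum_of_subset_of_nonneg hsub fun k _ _ => prod_nonneg fun j _ => hgg _
    _ ≤ b * (1 + b * ρ) ^ K := cell_total b hb ρ hρn K

end Pool.Agent.LibRN31
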