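import Pool.Agent.LibRN31.SE
import Pool.Agent.LibRN31.P2
import Pool.Agent.LibRN31.P3
import Pool.Agent.LibRN31.P4
import Pool.Agent.LibRN31.P5

/-!
# Row P6 (STRONG/MEDIUM): the average of the window products over fractions (`AvgStmt`)

PLAN. Put `κ := 1 - c/b^4 ∈ (0,1)`; choose `T ≥ 1` with `b κ^T ≤ 1/8`, hence `(1 + b κ^T) ≤ 9/8`, `(9/8)^4 ≤ 2 ≤ b`, so
`(1 + b κ^T)^K ≤ b^(K/4)` (real exponent). `R := 2000 * T` (any large multiple of `T`), `D := b^(L/R)`.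
`group` (P4) with `F x = VV b c w x ^ (1/8)`: the sum is `≤ (1 + log D) ∑_{2≤d≤D, (d,b)=1} (1/d) S_d`, `S_d` = sum over reduced `a`. `1 + log D ≤ b (L+1)`.
Let `Y₀ := L^(2A+8)`.
(i) `d ≤ Y₀`: `window` (P2) with `m = Nat.log b Y₀ + 1` (`d ≤ Y₀ < b^m`): every term `≤ q^(w/m)`, `q = (1 - c/(4b^2))`, to the power `1/8`;
`(1/d) S_d ≤ q^((w/m)/8)`, so these `d` give `≤ Y₀ q^((w/m)/8)`, and `w/m ≥ L/(40 m) - 1`, `m = O(log L)`: smaller than any power of `1/L`.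
(ii) `Y₀ < d ≤ D`: blocks `Y < d ≤ 2Y`, `Y = Y₀ 2^i`, `i < number ≤ log_2 D + 1 ≤ b L + 1` (or `2 L b`). For such a block let `K` be least with `4 Y^2 ≤ b^(K+1)` (`K = Nat.clog b (4 Y^2)`
or `Nat.log b (4Y^2)`, so that `b^K ≤ 4 Y^2`); `8 T (K+1) ≤ w` because `b^K ≤ 4 D^2`, `K ≤ 2 L/R + 3`, `w ≥ L/40`. `amgm` (P3, with `K+1`): `S_d ≤ ∑_a VV (K+1) ^ T`; `sep_sum` (P5): the sum over
the block of `(1/d) S_d` is `≤ (1/Y) b (1 + b κ^T)^K ≤ (b/Y) (b^K)^(1/4) ≤ (b/Y) (4Y^2)^(1/4) ≤ 2 b Y^(-1/2) ≤ 2 b Y₀^(-1/2) = 2 b L^(-(A+4))`.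
Total `≤ b (L+1) (Y₀ q^((w/m)/8) + (2 b L + 1) 2 b L^(-(A+4))) ≤ 1/L^A` for large `L`.
-/

namespace Pool.Agent.LibRN31

open Finset Pool.Agent.LibHG31 Pool.Agent.LibHG31.TT

private lemma P6_dyad (s : Finset ℕ) (f : ℕ → ℝ) (Y0 : ℕ) (B : ℝ)
    (h : ∀ i : ℕ, ∑ d ∈ s.filter (fun d => Y0 * 2 ^ i < d ∧ d ≤ Y0 * 2 ^ (i + 1)), f d ≤ B) (n : ℕ) :
    ∑ d ∈ s.filter (fun d => d ≤ Y0 * 2 ^ n), f d ≤
      ∑ d ∈ s.filter (fun d => d ≤ Y0), f d + n * B := by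
  induction n with
  | zero => simp
  | succ n ih =>
    have h1 : s.filter (fun d => d ≤ Y0 * 2 ^ (n + 1)) =
        s.filter (fun d => d ≤ Y0 * 2 ^ n) ∪
          s.filter (fun d => Y0 * 2 ^ n < d ∧ d ≤ Y0 * 2 ^ (n + 1)) := by
      ext d
      have h2 : Y0 * 2 ^ n ≤ Y0 * 2 ^ (n + 1) := by
        rw [pow_succ]
        nlinarith [Nat.zero_le (Y0 * 2 ^ n)]
      simp only [mem_filter, mem_union]
      constructor
      · rintro ⟨hd, hd2⟩
        by_cases h3 : d ≤ Y0 * 2 ^ n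
        · exact Or.inl ⟨hd, h3⟩
        · exact Or.inr ⟨hd, by omega, hd2⟩
      · rintro (⟨hd, h3⟩ | ⟨hd, h3, h4⟩)
        · exact ⟨hd, h3.trans h2⟩
        · exact ⟨hd, h4⟩
    have h3 : Disjoint (s.filter (fun d => d ≤ Y0 * 2 ^ n))
        (s.filter (fun d => Y0 * 2 ^ n < d ∧ d ≤ Y0 * 2 ^ (n + 1))) := by
      rw [Finset.disjoint_left]
      intro d hd hd2
      simp only [mem_filter] at hd hd2
      omega
    rw [h1, sum_union h3]
    have h4 := h n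
    push_cast
    linarith

/-- the sum over reduced fractions with denominator `d` -/
private noncomputable def P6_S (b : ℕ) (c : ℝ) (w d : ℕ) : ℝ :=
  ∑ a ∈ (Ico 1 d).filter (fun a => a.Coprime d), VV b c w ((a : ℝ) / d) ^ (1 / 8 : ℝ)

private lemma P6_S_nonneg (b : ℕ) {c : ℝ} (hc : 0 < c) (hc1 : c < 1) (w d : ℕ) : 0 ≤ P6_S b c w d :=
  sum_nonneg fun _ _ => Real.rpow_nonneg (VV_nonneg b hc hc1 _ _) _

private lemma P6_q {b : ℕ} (hb : 2 ≤ b) {c : ℝ} (hc : 0 < c) (hc1 : c < 1) :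
    0 < 1 - c / (4 * (b : ℝ) ^ 2) ∧ 1 - c / (4 * (b : ℝ) ^ 2) < 1 := by
  have hb2 : (2 : ℝ) ≤ b := by exact_mod_cast hb
  have h1 : (0 : ℝ) < 4 * (b : ℝ) ^ 2 := by positivity
  have h2 : 0 < c / (4 * (b : ℝ) ^ 2) := div_pos hc h1
  have h3 : c / (4 * (b : ℝ) ^ 2) < 1 := by
    rw [div_lt_one h1]
    nlinarith
  constructor <;> linarith

private lemma P6_small (b : ℕ) (hb : 2 ≤ b) (c : ℝ) (hc : 0 < c) (hc1 : c < 1) (w m d : ℕ)
    (hd : 2 ≤ d) (hcop : d.Coprime b) (hm0 : 0 < m) (hm : d < b ^ m) :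
    (1 / (d : ℝ)) * P6_S b c w d ≤ ((1 - c / (4 * (b : ℝ) ^ 2)) ^ (w / m)) ^ (1 / 8 : ℝ) := by
  obtain ⟨hq0, hq1⟩ := P6_q hb hc hc1
  set E : ℝ := ((1 - c / (4 * (b : ℝ) ^ 2)) ^ (w / m)) ^ (1 / 8 : ℝ) with hE
  have hE0 : 0 ≤ E := Real.rpow_nonneg (pow_nonneg hq0.le _) _
  have h1 : P6_S b c w d ≤ d * E := by
    unfold P6_S
    have h2 : ∀ a ∈ (Ico 1 d).filter (fun a => a.Coprime d),
        VV b c w ((a : ℝ) / d) ^ (1 / 8 : ℝ) ≤ E := by
      intro a ha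
      rw [mem_filter, mem_Ico] at ha
      have h3 : ¬ d ∣ a := by
        intro h4
        have := Nat.le_of_dvd (by omega) h4
        omega
      exact Real.rpow_le_rpow (VV_nonneg b hc hc1 _ _)
        (window b hb c hc hc1 d a (by omega) hcop h3 m hm0 hm w) (by norm_num)
    refine (sum_le_sum h2).trans ?_
    rw [sum_const, nsmul_eq_mul]
    refine mul_le_mul_of_nonneg_right ?_ hE0
    have h4 : ((Ico 1 d).filter (fun a => a.Coprime d)).card ≤ d := by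
      refine (card_filter_le _ _).trans ?_
      rw [Nat.card_Ico]
      omega
    exact_mod_cast h4
  have hd0 : (0 : ℝ) < d := by
    have : 0 < d := by omega
    exact_mod_cast this
  rw [one_div, inv_mul_le_iff₀ hd0]
  exact h1

private lemma P6_kappa {b : ℕ} (hb : 2 ≤ b) {c : ℝ} (hc : 0 < c) (hc1 : c < 1) :
    0 < 1 - c / (b : ℝ) ^ 4 ∧ 1 - c / (b : ℝ) ^ 4 < 1 := by
  have hb2 : (2 : ℝ) ≤ b := by exact_mod_cast hb
  have h1 : (1 : ℝ) ≤ (b : ℝ) ^ 4 := one_le_pow₀ (by linarith)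
  have h0 : (0 : ℝ) < (b : ℝ) ^ 4 := by linarith
  have h2 : 0 < c / (b : ℝ) ^ 4 := div_pos hc h0
  have h3 : c / (b : ℝ) ^ 4 < 1 := by
    rw [div_lt_one h0]
    linarith
  constructor <;> linarith

private lemma P6_T {b : ℕ} (hb : 2 ≤ b) {c : ℝ} (hc : 0 < c) (hc1 : c < 1) :
    ∃ T : ℕ, 0 < T ∧ (b : ℝ) * (1 - c / (b : ℝ) ^ 4) ^ T ≤ 1 / 8 := by
  obtain ⟨h0, h1⟩ := P6_kappa hb hc hc1
  have hb0 : (0 : ℝ) < b := by
    have : 0 < b := by omega
    exact_mod_cast this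
  obtain ⟨n, hn⟩ := exists_pow_lt_of_lt_one (show (0 : ℝ) < 1 / (8 * b) by positivity) h1
  refine ⟨n + 1, by omega, ?_⟩
  have h2 : (1 - c / (b : ℝ) ^ 4) ^ (n + 1) ≤ (1 - c / (b : ℝ) ^ 4) ^ n :=
    pow_le_pow_of_le_one h0.le h1.le (by omega)
  have h3 : (1 - c / (b : ℝ) ^ 4) ^ (n + 1) ≤ 1 / (8 * b) := h2.trans hn.le
  calc (b : ℝ) * (1 - c / (b : ℝ) ^ 4) ^ (n + 1) ≤ b * (1 / (8 * b)) :=
        mul_le_mul_of_nonneg_left h3 hb0.le
    _ = 1 / 8 := by field_simp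

private lemma P6_block (b : ℕ) (hb : 2 ≤ b) (c : ℝ) (hc : 0 < c) (hc1 : c < 1) (T : ℕ) (hT : 0 < T)
    (hbT : (b : ℝ) * (1 - c / (b : ℝ) ^ 4) ^ T ≤ 1 / 8) (L w D Y s : ℕ)
    (hD : D = b ^ (L / (2000 * T))) (hL : 1000 * T ≤ L) (hw : L ≤ 40 * w) (hs : 0 < s)
    (hY : s ^ 2 ≤ Y) (t : Finset ℕ) (ht : ∀ d ∈ t, 2 ≤ d ∧ d ≤ D ∧ d.Coprime b ∧ Y < d ∧ d ≤ 2 * Y) :
    ∑ d ∈ t, (1 / (d : ℝ)) * P6_S b c w d ≤ 2 * b / s := by
  obtain ⟨hk0, hk1⟩ := P6_kappa hb hc hc1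
  have hb0 : (0 : ℝ) < b := by
    have : 0 < b := by omega
    exact_mod_cast this
  have hs0 : (0 : ℝ) < s := by exact_mod_cast hs
  have hY0 : 0 < Y := by
    have : 0 < s ^ 2 := by positivity
    omega
  have hY0r : (0 : ℝ) < Y := by exact_mod_cast hY0
  rcases t.eq_empty_or_nonempty with rfl | ⟨d0, hd0⟩
  · rw [sum_empty]
    positivity
  have hYD : Y ≤ D := by
    have := ht d0 hd0
    omega
  -- the number of digits
  have hY4 : 1 < 4 * Y ^ 2 := by nlinarith [Nat.one_le_two_pow (n := 1), hY0, sq_nonneg (Y : ℤ)]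
  have hclog : 0 < Nat.clog b (4 * Y ^ 2) := Nat.clog_pos (by omega) (by omega)
  obtain ⟨K, hK⟩ : ∃ K, Nat.clog b (4 * Y ^ 2) = K + 1 := ⟨Nat.clog b (4 * Y ^ 2) - 1, by omega⟩
  have hK1 : 4 * Y ^ 2 ≤ b ^ (K + 1) := by
    rw [← hK]
    exact Nat.le_pow_clog (by omega) _
  have hK2 : b ^ K < 4 * Y ^ 2 := by
    have h1 := Nat.pow_pred_clog_lt_self (b := b) (by omega) hY4
    rw [hK] at h1
    simpa using h1
  have hK3 : K + 1 ≤ 2 * (L / (2000 * T)) + 2 := by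
    have h1 : b ^ K < b ^ (2 * (L / (2000 * T)) + 2) := by
      calc b ^ K < 4 * Y ^ 2 := hK2
        _ ≤ b ^ 2 * D ^ 2 := by
            have h2 : 4 ≤ b ^ 2 := by nlinarith
            have h3 : Y ^ 2 ≤ D ^ 2 := Nat.pow_le_pow_left hYD 2
            exact Nat.mul_le_mul h2 h3
        _ = b ^ (2 * (L / (2000 * T)) + 2) := by
            rw [hD, ← pow_mul, ← pow_add]
            congr 1
            ring
    have h2 := (Nat.pow_lt_pow_iff_right (show 1 < b by omega)).1 h1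
    omega
  have hKw : 8 * T * (K + 1) ≤ w := by
    have h1 : 2000 * T * (L / (2000 * T)) ≤ L := Nat.mul_div_le _ _
    have h2 : 8 * T * (K + 1) ≤ 8 * T * (2 * (L / (2000 * T)) + 2) := Nat.mul_le_mul_left _ hK3
    have h3 : 8 * T * (2 * (L / (2000 * T)) + 2) = 16 * (T * (L / (2000 * T))) + 16 * T := by ring
    have h4 : 2000 * (T * (L / (2000 * T))) ≤ L := by
      rw [← mul_assoc]
      exact h1
    omega
  -- the power
  set X : ℝ := (9 / 8 : ℝ) ^ K with hX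
  have hX0 : 0 < X := by positivity
  have hXb : (1 + (b : ℝ) * (1 - c / (b : ℝ) ^ 4) ^ T) ^ K ≤ X := by
    refine pow_le_pow_left₀ ?_ ?_ K
    · have : 0 ≤ (1 - c / (b : ℝ) ^ 4) ^ T := pow_nonneg hk0.le _
      positivity
    · linarith
  have hX4 : X ^ 4 ≤ (2 * (Y : ℝ)) ^ 2 := by
    have h1 : X ^ 4 ≤ (b : ℝ) ^ K := by
      rw [hX, ← pow_mul, mul_comm K 4, pow_mul]
      refine pow_le_pow_left₀ (by norm_num) ?_ K
      have : (2 : ℝ) ≤ b := by exact_mod_cast hb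
      norm_num
      linarith
    have h2 : (b : ℝ) ^ K ≤ 4 * (Y : ℝ) ^ 2 := by exact_mod_cast hK2.le
    nlinarith
  have hX2 : X ^ 2 ≤ 2 * (Y : ℝ) := by
    have h1 : (X ^ 2) ^ 2 ≤ (2 * (Y : ℝ)) ^ 2 := by
      rw [← pow_mul]
      exact hX4
    exact (pow_le_pow_iff_left₀ (by positivity) (by positivity) (by norm_num)).1 h1
  have hXs : X / Y ≤ 2 / s := by
    have hYs : ((s : ℝ)) ^ 2 ≤ Y := by exact_mod_cast hY
    have h1 : (X / Y) ^ 2 ≤ (2 / s) ^ 2 := by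
      rw [div_pow, div_pow, div_le_div_iff₀ (by positivity) (by positivity)]
      have h2 : X ^ 2 * (s : ℝ) ^ 2 ≤ 2 * Y * Y := by
        have : 0 ≤ (s : ℝ) ^ 2 := by positivity
        calc X ^ 2 * (s : ℝ) ^ 2 ≤ (2 * (Y : ℝ)) * (s : ℝ) ^ 2 := mul_le_mul_of_nonneg_right hX2 this
          _ ≤ 2 * Y * Y := mul_le_mul_of_nonneg_left hYs (by positivity)
      nlinarith [sq_nonneg (Y : ℝ)]
    exact (pow_le_pow_iff_left₀ (by positivity) (by positivity) (by norm_num)).1 h1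
  -- the sum
  have hsub : t ⊆ Icc 2 (2 * Y) := by
    intro d hd
    have := ht d hd
    rw [mem_Icc]
    omega
  calc ∑ d ∈ t, (1 / (d : ℝ)) * P6_S b c w d
      ≤ ∑ d ∈ t, (1 / (Y : ℝ)) * ∑ a ∈ (Ico 1 d).filter (fun a => a.Coprime d),
          VV b c (K + 1) ((a : ℝ) / d) ^ T := by
        refine sum_le_sum fun d hd => ?_
        obtain ⟨h1, h2, h3, h4, h5⟩ := ht d hd
        have h6 : P6_S b c w d ≤ ∑ a ∈ (Ico 1 d).filter (fun a => a.Coprime d),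
            VV b c (K + 1) ((a : ℝ) / d) ^ T :=
          amgm b hb c hc hc1 d (by omega) h3 T (K + 1) w hT hKw
        have h7 : (1 : ℝ) / d ≤ 1 / Y := by
          have : (Y : ℝ) ≤ d := by exact_mod_cast h4.le
          exact one_div_le_one_div_of_le hY0r this
        exact mul_le_mul h7 h6 (P6_S_nonneg b hc hc1 w d) (by positivity)
    _ = (1 / (Y : ℝ)) * ∑ d ∈ t, ∑ a ∈ (Ico 1 d).filter (fun a => a.Coprime d),
          VV b c (K + 1) ((a : ℝ) / d) ^ T := by rw [mul_sum]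
    _ ≤ (1 / (Y : ℝ)) * ∑ d ∈ Icc 2 (2 * Y), ∑ a ∈ (Ico 1 d).filter (fun a => a.Coprime d),
          VV b c (K + 1) ((a : ℝ) / d) ^ T := by
        refine mul_le_mul_of_nonneg_left ?_ (by positivity)
        refine sum_le_sum_of_subset_of_nonneg hsub fun d _ _ => ?_
        exact sum_nonneg fun _ _ => pow_nonneg (VV_nonneg b hc hc1 _ _) _
    _ ≤ (1 / (Y : ℝ)) * (b * (1 + b * (1 - c / (b : ℝ) ^ 4) ^ T) ^ K) :=
        mul_le_mul_of_nonneg_left (sep_sum b hb c hc hc1 T K Y hK1) (by positivity)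
    _ ≤ (1 / (Y : ℝ)) * (b * X) := by
        refine mul_le_mul_of_nonneg_left ?_ (by positivity)
        exact mul_le_mul_of_nonneg_left hXb hb0.le
    _ = b * (X / Y) := by ring
    _ ≤ b * (2 / s) := mul_le_mul_of_nonneg_left hXs hb0.le
    _ = 2 * b / s := by ring

/-- powers of `L` against the window -/
private lemma P6_lim (b : ℕ) (hb : 2 ≤ b) (c : ℝ) (hc : 0 < c) (hc1 : c < 1) (A : ℕ) :
    ∃ L0 : ℕ, ∀ L w : ℕ, L0 ≤ L → L ≤ 40 * w →
      (4 * b * (L : ℝ) ^ (3 * A + 9)) *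
        ((1 - c / (4 * (b : ℝ) ^ 2)) ^ (w / (Nat.log b (L ^ (2 * A + 8)) + 1))) ^ (1 / 8 : ℝ) ≤ 1 := by
  obtain ⟨hq0, hq1⟩ := P6_q hb hc hc1
  set q : ℝ := 1 - c / (4 * (b : ℝ) ^ 2) with hq
  have hlq : Real.log q < 0 := Real.log_neg hq0 hq1
  have hb0 : (0 : ℝ) < b := by
    have : 0 < b := by omega
    exact_mod_cast this
  have hlb : 0 < Real.log b := Real.log_pos (by
    have : 1 < b := by omega
    exact_mod_cast this)
  -- the limit of the power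
  have h1 := (tendsto_rpow_mul_exp_neg_mul_atTop_nhds_zero ((6 * A + 18 : ℕ) : ℝ)
    (-Real.log q / 8) (by linarith)).const_mul (4 * (b : ℝ))
  rw [mul_zero] at h1
  have h2 : Filter.Tendsto (fun L : ℕ => Real.sqrt (L : ℝ)) Filter.atTop Filter.atTop :=
    Real.tendsto_sqrt_atTop.comp tendsto_natCast_atTop_atTop
  have h3 := (h1.comp h2).eventually (eventually_le_nhds (show (0 : ℝ) < 1 by norm_num))
  -- the logarithm
  have h4 : Filter.Tendsto (fun L : ℕ => Real.log (L : ℝ) / Real.sqrt (L : ℝ)) Filter.atTop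
      (nhds 0) := by
    have h5 : (fun x : ℝ => Real.log x) =o[Filter.atTop] fun x : ℝ => x ^ (1 / 2 : ℝ) :=
      isLittleO_log_rpow_atTop (by norm_num)
    have h6 := h5.tendsto_div_nhds_zero.comp (tendsto_natCast_atTop_atTop (R := ℝ))
    refine h6.congr fun L => ?_
    simp only [Function.comp_apply]
    rw [Real.sqrt_eq_rpow]
  have h7 : Filter.Tendsto (fun L : ℕ => (((2 * A + 8 : ℕ) : ℝ) / Real.log b) *
      (Real.log (L : ℝ) / Real.sqrt (L : ℝ))) Filter.atTop (nhds 0) := by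
    have := h4.const_mul (((2 * A + 8 : ℕ) : ℝ) / Real.log b)
    rwa [mul_zero] at this
  have h8 := h7.eventually (eventually_le_nhds (show (0 : ℝ) < 1 / 160 by norm_num))
  have h9 := h2.eventually (Filter.eventually_ge_atTop (160 : ℝ))
  obtain ⟨L0, hL0⟩ := Filter.eventually_atTop.1 ((h3.and h8).and h9)
  refine ⟨L0, fun L w hL hw => ?_⟩
  obtain ⟨⟨hA1, hA2⟩, hA3⟩ := hL0 L hL
  set x : ℝ := Real.sqrt (L : ℝ) with hx
  have hx0 : 0 < x := by linarith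
  have hxL : x ^ 2 = L := Real.sq_sqrt (Nat.cast_nonneg L)
  set m : ℕ := Nat.log b (L ^ (2 * A + 8)) + 1 with hm
  have hm1 : (m : ℝ) ≤ x / 80 := by
    have hg1 : ((Nat.log b (L ^ (2 * A + 8)) : ℕ) : ℝ) ≤ Real.logb b ((L ^ (2 * A + 8) : ℕ) : ℝ) :=
      Real.natLog_le_logb _ _
    have hg2 : Real.logb b ((L ^ (2 * A + 8) : ℕ) : ℝ) =
        (((2 * A + 8 : ℕ) : ℝ) / Real.log b) * Real.log (L : ℝ) := by
      rw [Real.logb]
      push_cast
      rw [Real.log_pow]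
      push_cast
      ring
    have hg3 : (((2 * A + 8 : ℕ) : ℝ) / Real.log b) * Real.log (L : ℝ) ≤ x / 160 := by
      have hg4 := mul_le_mul_of_nonneg_right hA2 hx0.le
      have hg5 : (((2 * A + 8 : ℕ) : ℝ) / Real.log b) * (Real.log (L : ℝ) / x) * x =
          (((2 * A + 8 : ℕ) : ℝ) / Real.log b) * Real.log (L : ℝ) := by
        field_simp
      rw [hg5] at hg4
      linarith
    rw [hm]
    push_cast
    linarith
  have hm0 : (0 : ℝ) < m := by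
    have : 0 < m := by omega
    exact_mod_cast this
  have hwm : x ≤ ((w / m : ℕ) : ℝ) := by
    have hg1 : (w : ℝ) / m < ((w / m : ℕ) : ℝ) + 1 := by
      have hg2 : w < (w / m + 1) * m := by
        have hg3 := Nat.lt_mul_div_succ w (show 0 < m by omega)
        calc w < m * (w / m + 1) := hg3
          _ = (w / m + 1) * m := by ring
      rw [div_lt_iff₀ hm0]
      exact_mod_cast hg2
    have hg2 : 2 * x ≤ (w : ℝ) / m := by
      rw [le_div_iff₀ hm0]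
      have hg3 : (L : ℝ) ≤ 40 * w := by exact_mod_cast hw
      have hg4 : 2 * x * m ≤ 2 * x * (x / 80) := mul_le_mul_of_nonneg_left hm1 (by positivity)
      have hg5 : 2 * x * (x / 80) = x ^ 2 / 40 := by ring
      rw [hg5, hxL] at hg4
      linarith
    linarith
  have hE : (q ^ (w / m)) ^ (1 / 8 : ℝ) ≤ Real.exp (-(-Real.log q / 8) * x) := by
    have hg1 : (q ^ (w / m)) ^ (1 / 8 : ℝ) = Real.exp (Real.log q * ((w / m : ℕ) : ℝ) / 8) := by
      rw [← Real.rpow_natCast, ← Real.rpow_mul hq0.le, Real.rpow_def_of_pos hq0]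
      congr 1
      ring
    rw [hg1, Real.exp_le_exp]
    nlinarith
  have hP : (4 * b * (L : ℝ) ^ (3 * A + 9)) = 4 * b * x ^ ((6 * A + 18 : ℕ) : ℝ) := by
    rw [← hxL, Real.rpow_natCast, ← pow_mul]
    congr 2
    ring
  rw [hP]
  refine (mul_le_mul_of_nonneg_left hE ?_).trans ?_
  · have : 0 ≤ x ^ ((6 * A + 18 : ℕ) : ℝ) := Real.rpow_nonneg hx0.le _
    positivity
  · have hg1 : 4 * (b : ℝ) * (x ^ ((6 * A + 18 : ℕ) : ℝ) * Real.exp (-(-Real.log q / 8) * x)) ≤ 1 :=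
      hA1
    linarith

theorem avg (b : ℕ) (hb : 2 ≤ b) : AvgStmt b := by
  intro c hc hc1
  obtain ⟨T, hT, hbT⟩ := P6_T hb hc hc1
  refine ⟨2000 * T, by omega, fun A => ?_⟩
  obtain ⟨L0, hL0⟩ := P6_lim b hb c hc hc1 A
  refine ⟨L0 + 1000 * T + 8 * b ^ 3 + 1, fun L w hL hw => ?_⟩
  have hLpos : 0 < L := by omega
  have hLr : (1 : ℝ) ≤ L := by exact_mod_cast hLpos
  have hLr0 : (0 : ℝ) < L := by linarith
  have hb2 : (2 : ℝ) ≤ b := by exact_mod_cast hb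
  have hb0 : (0 : ℝ) < b := by linarith
  set D : ℕ := b ^ (L / (2000 * T)) with hD
  set Y0 : ℕ := L ^ (2 * A + 8) with hY0
  set m : ℕ := Nat.log b Y0 + 1 with hm
  set E : ℝ := ((1 - c / (4 * (b : ℝ) ^ 2)) ^ (w / m)) ^ (1 / 8 : ℝ) with hE
  have hE0 : 0 ≤ E := Real.rpow_nonneg (pow_nonneg (P6_q hb hc hc1).1.le _) _
  have hE1 : (4 * b * (L : ℝ) ^ (3 * A + 9)) * E ≤ 1 := hL0 L w (by omega) hw
  set s : Finset ℕ := (Icc 2 D).filter (fun d => d.Coprime b) with hs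
  have hY0pos : 0 < Y0 := by positivity
  -- group
  have h1 := group b D (fun x => VV b c w x ^ (1 / 8 : ℝ))
    (fun x => Real.rpow_nonneg (VV_nonneg b hc hc1 _ _) _)
  refine h1.trans ?_
  have hF : ∑ d ∈ (Icc 2 D).filter (fun d => d.Coprime b), (1 / (d : ℝ)) *
      ∑ a ∈ (Ico 1 d).filter (fun a => a.Coprime d),
        (fun x => VV b c w x ^ (1 / 8 : ℝ)) ((a : ℝ) / d) = ∑ d ∈ s, (1 / (d : ℝ)) * P6_S b c w d := rfl
  rw [hF]
  -- the dyadic decomposition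
  have h2 := P6_dyad s (fun d => (1 / (d : ℝ)) * P6_S b c w d) Y0 (2 * b / ((L ^ (A + 4) : ℕ) : ℝ))
    (fun i => by
      refine P6_block b hb c hc hc1 T hT hbT L w D (Y0 * 2 ^ i) (L ^ (A + 4)) hD (by omega) hw
        (by positivity) ?_ _ ?_
      · rw [hY0, ← pow_mul]
        have h3 : (A + 4) * 2 = 2 * A + 8 := by ring
        rw [h3]
        exact Nat.le_mul_of_pos_right _ (by positivity)
      · intro d hd
        rw [mem_filter, hs, mem_filter, mem_Icc] at hd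
        refine ⟨hd.1.1.1, hd.1.1.2, hd.1.2, hd.2.1, ?_⟩
        have h3 := hd.2.2
        rw [pow_succ] at h3
        calc d ≤ Y0 * (2 ^ i * 2) := h3
          _ = 2 * (Y0 * 2 ^ i) := by ring) (L * b)
  have h3 : s.filter (fun d => d ≤ Y0 * 2 ^ (L * b)) = s := by
    refine filter_true_of_mem fun d hd => ?_
    rw [hs, mem_filter, mem_Icc] at hd
    have h4 : D ≤ 2 ^ (L * b) := by
      calc D ≤ b ^ L := Nat.pow_le_pow_right (by omega) (Nat.div_le_self _ _)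
        _ ≤ (2 ^ b) ^ L := Nat.pow_le_pow_left (Nat.lt_two_pow_self (n := b)).le L
        _ = 2 ^ (L * b) := by rw [← pow_mul, mul_comm]
    calc d ≤ D := hd.1.2
      _ ≤ 2 ^ (L * b) := h4
      _ ≤ Y0 * 2 ^ (L * b) := Nat.le_mul_of_pos_left _ hY0pos
  rw [h3] at h2
  have h4 : ∑ d ∈ s.filter (fun d => d ≤ Y0), (1 / (d : ℝ)) * P6_S b c w d ≤ Y0 * E := by
    have h5 : ∀ d ∈ s.filter (fun d => d ≤ Y0), (1 / (d : ℝ)) * P6_S b c w d ≤ E := by
      intro d hd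
      rw [mem_filter, hs, mem_filter, mem_Icc] at hd
      refine P6_small b hb c hc hc1 w m d hd.1.1.1 hd.1.2 (by omega) ?_
      exact lt_of_le_of_lt hd.2 (Nat.lt_pow_succ_log_self (by omega) _)
    refine (sum_le_sum h5).trans ?_
    rw [sum_const, nsmul_eq_mul]
    refine mul_le_mul_of_nonneg_right ?_ hE0
    have h6 : s.filter (fun d => d ≤ Y0) ⊆ Ioc 0 Y0 := by
      intro d hd
      rw [mem_filter, hs, mem_filter, mem_Icc] at hd
      rw [mem_Ioc]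
      omega
    have h7 := card_le_card h6
    rw [Nat.card_Ioc] at h7
    exact_mod_cast h7
  have hlog : 1 + Real.log D ≤ 2 * (b * L) := by
    have h5 : Real.log D ≤ L * b := by
      rw [hD]
      push_cast
      rw [Real.log_pow]
      have h6 : Real.log b ≤ b := by
        have := Real.log_le_sub_one_of_pos hb0
        linarith
      have h7 : ((L / (2000 * T) : ℕ) : ℝ) ≤ L := by exact_mod_cast Nat.div_le_self _ _
      have h8 : 0 ≤ Real.log b := Real.log_nonneg (by linarith)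
      exact mul_le_mul h7 h6 h8 (by positivity)
    nlinarith
  have hsum0 : 0 ≤ ∑ d ∈ s, (1 / (d : ℝ)) * P6_S b c w d :=
    sum_nonneg fun d _ => mul_nonneg (by positivity) (P6_S_nonneg b hc hc1 w d)
  have htot : ∑ d ∈ s, (1 / (d : ℝ)) * P6_S b c w d ≤
      (L : ℝ) ^ (2 * A + 8) * E + (L * b) * (2 * b / (L : ℝ) ^ (A + 4)) := by
    have h5 : ((Y0 : ℕ) : ℝ) = (L : ℝ) ^ (2 * A + 8) := by rw [hY0]; push_cast; rfl
    have h6 : ((L ^ (A + 4) : ℕ) : ℝ) = (L : ℝ) ^ (A + 4) := by push_cast; rfl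
    rw [h5] at h4
    rw [h6] at h2
    push_cast at h2
    linarith
  have hP : (0 : ℝ) < (L : ℝ) ^ A := by positivity
  rw [le_div_iff₀ hP]
  have hfin1 : 2 * (b * (L : ℝ)) * ((L : ℝ) ^ (2 * A + 8) * E) * (L : ℝ) ^ A ≤ 1 / 2 := by
    have h5 : 2 * (b * (L : ℝ)) * ((L : ℝ) ^ (2 * A + 8) * E) * (L : ℝ) ^ A =
        ((4 * b * (L : ℝ) ^ (3 * A + 9)) * E) / 2 := by
      have h6 : (L : ℝ) ^ (3 * A + 9) = L * (L : ℝ) ^ (2 * A + 8) * (L : ℝ) ^ A := by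
        rw [← pow_succ', ← pow_add]
        congr 1
        ring
      rw [h6]
      ring
    rw [h5]
    linarith
  have hfin2 : 2 * (b * (L : ℝ)) * ((L * b) * (2 * b / (L : ℝ) ^ (A + 4))) * (L : ℝ) ^ A ≤ 1 / 2 := by
    have h5 : 2 * (b * (L : ℝ)) * ((L * b) * (2 * b / (L : ℝ) ^ (A + 4))) * (L : ℝ) ^ A =
        4 * (b : ℝ) ^ 3 / (L : ℝ) ^ 2 := by
      rw [pow_add]
      field_simp
      ring
    rw [h5, div_le_iff₀ (by positivity)]
    have h6 : (8 : ℝ) * (b : ℝ) ^ 3 ≤ L := by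
      have : 8 * b ^ 3 ≤ L := by omega
      exact_mod_cast this
    nlinarith
  calc (1 + Real.log D) * (∑ d ∈ s, (1 / (d : ℝ)) * P6_S b c w d) * (L : ℝ) ^ A
      ≤ (2 * (b * L)) * ((L : ℝ) ^ (2 * A + 8) * E + (L * b) * (2 * b / (L : ℝ) ^ (A + 4))) *
          (L : ℝ) ^ A := by
        refine mul_le_mul_of_nonneg_right ?_ hP.le
        exact mul_le_mul hlog htot hsum0 (by positivity)
    _ = 2 * (b * (L : ℝ)) * ((L : ℝ) ^ (2 * A + 8) * E) * (L : ℝ) ^ A +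
          2 * (b * (L : ℝ)) * ((L * b) * (2 * b / (L : ℝ) ^ (A + 4))) * (L : ℝ) ^ A := by ring
    _ ≤ 1 := by linarith

end Pool.Agent.LibRN31
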