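import Pool.Agent.LibHG31.T0

/-! # LibRN31 R0: the reflected digital function -/

namespace Pool.Agent.LibRN31

open Finset Pool.Agent.LibHG31 Pool.Agent.LibHG31.TT

/-- the digital function of `Z - k` -/
noncomputable def rf (b u L : ℕ) (α : ℕ → ℝ) (ω : ℕ → ℕ → ℂ) (Z k : ℕ) : ℂ :=
  if k ≤ Z then fd b u L α ω (Z - k) else 0

end Pool.Agent.LibRN31
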