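import Pool.Agent.LibHG31.T12
import Pool.Agent.LibHG31.T13
import Pool.Agent.LibHG31.T14
import Pool.Agent.LibHG31.T15
import Pool.Agent.LibHG31.T2

/-! # LibRN31 R17: type I bound for residue classes (adapted from LibHG31 T16, T17) -/

namespace Pool.Agent.LibRN31

open Finset Pool.Agent.LibHG31 Pool.Agent.LibHG31.TT

private theorem R16_fd (b u L : ℕ) (hb : 2 ≤ b) (huL : 2 * u ≤ L) (α : ℕ → ℝ) (ω : ℕ → ℕ → ℂ) (c v : ℕ)
    (hv : v < b ^ (L - u)) :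
    fd b u L α ω (c * b ^ (L - u) + v) =
      ee (∑ j ∈ Ico (L - u) L, α j * dg b j (c * b ^ (L - u))) * gf b u (L - u) α (ω c) v := by
  have hb0 : 0 < b := by omega
  have hB : 0 < b ^ (L - u) := by positivity
  have h1 : (c * b ^ (L - u) + v) / b ^ (L - u) = c := by
    rw [mul_comm, Nat.mul_add_div hB, Nat.div_eq_of_lt hv, add_zero]
  have h1' : (c * b ^ (L - u)) / b ^ (L - u) = c := Nat.mul_div_cancel _ hB
  have h2 : (c * b ^ (L - u) + v) % b ^ u = v % b ^ u := by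
    obtain ⟨t, ht⟩ : ∃ t, L - u = u + t := ⟨L - u - u, by omega⟩
    have : c * b ^ (L - u) + v = v + b ^ u * (b ^ t * c) := by
      rw [ht, pow_add]; ring
    rw [this, Nat.add_mul_mod_self_left]
  have h3 : dp b L α (c * b ^ (L - u) + v) = (∑ j ∈ Ico (L - u) L, α j * dg b j (c * b ^ (L - u))) +
      dp b (L - u) α v := by
    unfold dp
    rw [← Finset.sum_range_add_sum_Ico _ (by omega : L - u ≤ L), add_comm]
    congr 1
    · refine sum_congr rfl fun j hj => ?_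
      rw [dg_eq_of_div_eq b (L - u) j (c * b ^ (L - u) + v) (c * b ^ (L - u)) (mem_Ico.1 hj).1
        (by rw [h1, h1'])]
    · refine sum_congr rfl fun j hj => ?_
      rw [show c * b ^ (L - u) + v = v + b ^ (L - u) * c by ring,
        dg_add_mul b j (L - u) v c hb0 (mem_range.1 hj)]
  unfold fd gf
  rw [h1, h2, h3, ee_add]
  ring

private theorem R16_ind (m : ℕ) (hm : 0 < m) (k a : ℕ) :
    (if k ≡ a [MOD m] then (1 : ℂ) else 0) =
      (1 / (m : ℂ)) * ∑ l ∈ range m, ee (a * ((l : ℝ) / m)) * ee (-(k * ((l : ℝ) / m))) := by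
  have h := orth m hm ((a : ℤ) - k)
  have h1 : ∀ l : ℕ, ee ((((a : ℤ) - k : ℤ) : ℝ) * l / m) =
      ee (a * ((l : ℝ) / m)) * ee (-(k * ((l : ℝ) / m))) := by
    intro l
    rw [← ee_add]
    congr 1
    push_cast
    ring
  simp_rw [h1] at h
  rw [h]
  have hiff : (m : ℤ) ∣ ((a : ℤ) - k) ↔ k ≡ a [MOD m] := (Nat.modEq_iff_dvd).symm
  have hmC : (m : ℂ) ≠ 0 := by exact_mod_cast hm.ne'
  by_cases hk : k ≡ a [MOD m]
  · rw [if_pos hk, if_pos (hiff.2 hk)]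
    field_simp
  · rw [if_neg hk, if_neg (fun h => hk (hiff.1 h))]
    simp

theorem cell_sum_cl (b u L : ℕ) (hb : 2 ≤ b) (huL : 2 * u ≤ L) (α : ℕ → ℝ) (ω : ℕ → ℕ → ℂ) (c m a : ℕ)
    (hm : 0 < m) :
    ‖∑ k ∈ (Ico (c * b ^ (L - u)) ((c + 1) * b ^ (L - u))).filter (fun k => k ≡ a [MOD m]),
      fd b u L α ω k‖ ≤
      ((b : ℝ) ^ (L - u) / m) * ∑ l ∈ range m, ‖FF b u (L - u) α (ω c) (l / m)‖ := by
  have hb0 : (0 : ℝ) < b := by exact_mod_cast (by omega : 0 < b)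
  have hbC : (b : ℂ) ^ (L - u) ≠ 0 := by
    apply pow_ne_zero
    exact_mod_cast (by omega : b ≠ 0)
  set B := b ^ (L - u) with hB
  set E : ℝ := ∑ j ∈ Ico (L - u) L, α j * dg b j (c * B) with hE
  have h1 : ∑ k ∈ (Ico (c * B) ((c + 1) * B)).filter (fun k => k ≡ a [MOD m]), fd b u L α ω k =
      ∑ l ∈ range m, (1 / (m : ℂ)) * (ee E * (ee (a * ((l : ℝ) / m)) * ee (-(((c * B : ℕ) : ℝ) * ((l : ℝ) / m))))) *
        ((b : ℂ) ^ (L - u) * FF b u (L - u) α (ω c) (l / m)) := by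
    rw [sum_filter, sum_Ico_eq_sum_range]
    have e1 : (c + 1) * B - c * B = B := by rw [add_mul, one_mul, Nat.add_sub_cancel_left]
    rw [e1]
    have e2 : ∀ v ∈ range B, (if c * B + v ≡ a [MOD m] then fd b u L α ω (c * B + v) else 0) =
        ∑ l ∈ range m, (1 / (m : ℂ)) * (ee E * (ee (a * ((l : ℝ) / m)) * ee (-(((c * B : ℕ) : ℝ) * ((l : ℝ) / m))))) *
          (gf b u (L - u) α (ω c) v * ee (-(v * ((l : ℝ) / m)))) := by
      intro v hv
      have e3 : (if c * B + v ≡ a [MOD m] then fd b u L α ω (c * B + v) else 0) =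
          fd b u L α ω (c * B + v) * (if c * B + v ≡ a [MOD m] then (1 : ℂ) else 0) := by
        split_ifs <;> simp
      rw [e3, R16_ind m hm, R16_fd b u L hb huL α ω c v (mem_range.1 hv), ← hB, ← hE, mul_sum, mul_sum]
      refine sum_congr rfl fun l _ => ?_
      have e4 : ee (-(((c * B + v : ℕ) : ℝ) * ((l : ℝ) / m))) =
          ee (-(((c * B : ℕ) : ℝ) * ((l : ℝ) / m))) * ee (-(v * ((l : ℝ) / m))) := by
        rw [← ee_add]
        congr 1
        push_cast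
        ring
      rw [e4]
      ring
    rw [sum_congr rfl e2, sum_comm]
    refine sum_congr rfl fun l _ => ?_
    rw [← mul_sum]
    congr 1
    unfold FF
    rw [mul_div_cancel₀ _ hbC, ← hB]
  rw [h1]
  refine (norm_sum_le _ _).trans ?_
  rw [mul_sum]
  refine sum_le_sum fun l _ => ?_
  rw [norm_mul, norm_mul, norm_mul, norm_mul, norm_mul, norm_ee, norm_ee, norm_ee, norm_div, norm_one, norm_pow,
    Complex.norm_natCast, Complex.norm_natCast]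
  apply le_of_eq
  ring

private theorem r17_cells (B q : ℕ) (g : ℕ → ℂ) : ∑ k ∈ range (q * B), g k =
    ∑ c ∈ range q, ∑ k ∈ Ico (c * B) ((c + 1) * B), g k := by
  induction q with
  | zero => simp
  | succ q ih =>
    rw [Finset.sum_range_succ, ← ih, Finset.range_eq_Ico,
      Finset.range_eq_Ico, Finset.sum_Ico_consecutive g (Nat.zero_le _) (Nat.mul_le_mul_right B (Nat.le_succ q))]

private theorem r17_mult (a r m c : ℕ) (hm : 0 < m) :
    (((Ico a (a + r)).filter (fun k => k ≡ c [MOD m])).card : ℝ) ≤ (r : ℝ) / m + 1 := by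
  have h2 := Nat.Ico_filter_modEq_card a (a + r) hm c
  have h3 : ((((Ico a (a + r)).filter (fun k => k ≡ c [MOD m])).card : ℤ) : ℝ) ≤ (r : ℝ) / m + 1 := by
    rw [h2]
    have hmr : (0 : ℝ) < m := by exact_mod_cast hm
    rw [Int.cast_max, Int.cast_zero]
    apply max_le
    · have h4 := Int.ceil_lt_add_one ((((a + r : ℕ) : ℚ) - (c : ℕ)) / (m : ℚ))
      have h5 := Int.le_ceil (((a : ℚ) - (c : ℕ)) / (m : ℚ))
      have h6 : ((⌈(((a + r : ℕ) : ℚ) - (c : ℕ)) / (m : ℚ)⌉ : ℚ)) - (⌈((a : ℚ) - (c : ℕ)) / (m : ℚ)⌉ : ℚ) ≤ (r : ℚ) / m + 1 := by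
        have h7 : (((a + r : ℕ) : ℚ) - (c : ℕ)) / (m : ℚ) = ((a : ℚ) - (c : ℕ)) / (m : ℚ) + (r : ℚ) / m := by
          push_cast
          ring
        rw [h7] at h4 ⊢
        linarith
      have h8 : (((⌈(((a + r : ℕ) : ℚ) - (c : ℕ)) / (m : ℚ)⌉ : ℚ) - (⌈((a : ℚ) - (c : ℕ)) / (m : ℚ)⌉ : ℚ) : ℚ) : ℝ) ≤
          (((r : ℚ) / m + 1 : ℚ) : ℝ) := by exact_mod_cast h6
      push_cast at h8 ⊢
      exact h8
    · positivity
  exact_mod_cast h3

private theorem r17_one (b u L : ℕ) (hb : 2 ≤ b) (huL : 2 * u ≤ L) (α : ℕ → ℝ) (ω : ℕ → ℕ → ℂ)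
    (hω : ∀ c v, ‖ω c v‖ ≤ 1) (m a : ℕ) (hm : 0 < m) (Y : ℕ) (hY : Y ≤ b ^ L) :
    ‖∑ k ∈ (range Y).filter (fun k => k ≡ a [MOD m]), fd b u L α ω k‖ ≤
      ∑ c ∈ range (b ^ u), (((b : ℝ) ^ (L - u) / m) * ∑ l ∈ range m, ‖FF b u (L - u) α (ω c) (l / m)‖) +
        ((b : ℝ) ^ (L - u) / m + 1) := by
  set B := b ^ (L - u) with hB
  have hB0 : 0 < B := by positivity
  set q := Y / B with hq
  set r := Y % B with hr
  have hYqr : Y = q * B + r := by rw [hq, hr, mul_comm]; exact (Nat.div_add_mod Y B).symm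
  have hrB : r < B := Nat.mod_lt _ hB0
  have hqu : q ≤ b ^ u := by
    rw [hq]
    calc Y / B ≤ b ^ L / B := Nat.div_le_div_right hY
      _ = b ^ u := by
        rw [hB]
        have : b ^ L = b ^ (L - u) * b ^ u := by rw [← pow_add]; congr 1; omega
        rw [this]
        exact Nat.mul_div_cancel_left _ (by positivity)
  have hsplit : ∑ k ∈ (range Y).filter (fun k => k ≡ a [MOD m]), fd b u L α ω k =
      ∑ c ∈ range q, ∑ k ∈ (Ico (c * B) ((c + 1) * B)).filter (fun k => k ≡ a [MOD m]), fd b u L α ω k +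
        ∑ k ∈ (Ico (q * B) (q * B + r)).filter (fun k => k ≡ a [MOD m]), fd b u L α ω k := by
    rw [Finset.sum_filter, Finset.sum_filter]
    have h1 : ∀ c ∈ range q, ∑ k ∈ (Ico (c * B) ((c + 1) * B)).filter (fun k => k ≡ a [MOD m]), fd b u L α ω k =
        ∑ k ∈ Ico (c * B) ((c + 1) * B), if k ≡ a [MOD m] then fd b u L α ω k else 0 := fun c _ => Finset.sum_filter _ _
    rw [Finset.sum_congr rfl h1, ← r17_cells]
    rw [Finset.range_eq_Ico, Finset.range_eq_Ico, Finset.sum_Ico_consecutive _ (Nat.zero_le _) (by omega), ← hYqr]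
  rw [hsplit]
  refine (norm_add_le _ _).trans (add_le_add ?_ ?_)
  · refine (norm_sum_le _ _).trans ?_
    have h1 : ∀ c ∈ range q, ‖∑ k ∈ (Ico (c * B) ((c + 1) * B)).filter (fun k => k ≡ a [MOD m]), fd b u L α ω k‖ ≤
        ((b : ℝ) ^ (L - u) / m) * ∑ l ∈ range m, ‖FF b u (L - u) α (ω c) (l / m)‖ := fun c _ =>
      cell_sum_cl b u L hb huL α ω c m a hm
    refine (Finset.sum_le_sum h1).trans ?_
    apply Finset.sum_le_sum_of_subset_of_nonneg
    · intro c hc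
      rw [mem_range] at hc ⊢
      omega
    · intro _ _ _
      positivity
  · refine (norm_sum_le _ _).trans ?_
    calc ∑ k ∈ (Ico (q * B) (q * B + r)).filter (fun k => k ≡ a [MOD m]), ‖fd b u L α ω k‖ ≤
          ∑ k ∈ (Ico (q * B) (q * B + r)).filter (fun k => k ≡ a [MOD m]), (1 : ℝ) :=
          Finset.sum_le_sum fun k _ => norm_fd_le b u L α ω hω k
      _ = (((Ico (q * B) (q * B + r)).filter (fun k => k ≡ a [MOD m])).card : ℝ) := by simp
      _ ≤ (r : ℝ) / m + 1 := r17_mult _ _ _ _ hm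
      _ ≤ (b : ℝ) ^ (L - u) / m + 1 := by
          have : (r : ℝ) ≤ (b : ℝ) ^ (L - u) := by
            have h2 : r ≤ b ^ (L - u) := by rw [← hB]; omega
            exact_mod_cast h2
          gcongr

private theorem r17_harm (M₀ : ℕ) : ∑ i ∈ Icc 1 M₀, 1 / (i : ℝ) ≤ 1 + Real.log M₀ := by
  have h := harmonic_le_one_add_log M₀
  rw [harmonic_eq_sum_Icc] at h
  push_cast at h
  simpa [one_div] using h

private theorem r17_TH (t : ℝ) (h0 : 0 < t) (h2 : t ≤ 2) : t ≤ 2 * t ^ (1 / 4 : ℝ) := by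
  have h3 : t = t ^ (3 / 4 : ℝ) * t ^ (1 / 4 : ℝ) := by
    rw [← Real.rpow_add h0]
    norm_num
  have h4 : t ^ (3 / 4 : ℝ) ≤ 2 := by
    calc t ^ (3 / 4 : ℝ) ≤ (2 : ℝ) ^ (3 / 4 : ℝ) := Real.rpow_le_rpow h0.le h2 (by norm_num)
      _ ≤ (2 : ℝ) ^ (1 : ℝ) := Real.rpow_le_rpow_of_exponent_le (by norm_num) (by norm_num)
      _ = 2 := by norm_num
  calc t = t ^ (3 / 4 : ℝ) * t ^ (1 / 4 : ℝ) := h3
    _ ≤ 2 * t ^ (1 / 4 : ℝ) := mul_le_mul_of_nonneg_right h4 (by positivity)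

theorem typeI_cl (b D : ℕ) (hb : 2 ≤ b) (hD : 1 ≤ D) : ∃ (C : ℝ) (A : ℕ), 0 < C ∧
    ∀ (L u : ℕ), 1 ≤ u → 64 * D * u ≤ L → ∀ (α : ℕ → ℝ) (ω : ℕ → ℕ → ℂ), (∀ c v, ‖ω c v‖ ≤ 1) →
    ∃ Bf : ℕ → ℝ, (∀ m, 0 ≤ Bf m) ∧
      (∀ m ∈ Icc 1 ((b ^ (8 * D * u)) ^ 2), ∀ Y ≤ b ^ L, ∀ a : ℕ,
        ‖∑ k ∈ (range Y).filter (fun k => k ≡ a [MOD m]), fd b u L α ω k‖ ≤ Bf m) ∧
      ∑ m ∈ Icc 1 ((b ^ (8 * D * u)) ^ 2), Bf m ≤
        C * (L : ℝ) ^ A * (b : ℝ) ^ L * TH b D u α ^ (1 / 4 : ℝ) := by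
  have hb0 : (0 : ℝ) < b := by exact_mod_cast (by omega : 0 < b)
  have hb1 : (1 : ℝ) ≤ b := by exact_mod_cast (by omega : 1 ≤ b)
  have hb2 : (2 : ℝ) ≤ b := by exact_mod_cast hb
  refine ⟨3 * b * 2 ^ b * ((b : ℝ) + 1) ^ 2 + 2 * ((b : ℝ) + 1) + 2, b + 2, by positivity, ?_⟩
  intro L u hu hLu α ω hω
  have hDu : 1 ≤ D * u := Nat.mul_pos hD hu
  have hDuu : u ≤ D * u := Nat.le_mul_of_pos_left u hD
  have hLL : 64 * (D * u) ≤ L := by rw [← mul_assoc]; exact hLu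
  have hL1 : 1 ≤ L := by omega
  have hL1r : (1 : ℝ) ≤ L := by exact_mod_cast hL1
  have huL : 2 * u ≤ L := by omega
  set M₀ := (b ^ (8 * D * u)) ^ 2 with hM₀
  have hM₀' : M₀ = b ^ (16 * (D * u)) := by
    rw [hM₀, ← pow_mul]
    congr 1
    ring
  have hM1 : 1 ≤ M₀ := by rw [hM₀']; exact Nat.one_le_pow _ _ (by omega)
  set Bf : ℕ → ℝ := fun m => ∑ c ∈ range (b ^ u), (((b : ℝ) ^ (L - u) / m) * ∑ l ∈ range m, ‖FF b u (L - u) α (ω c) (l / m)‖) +
        ((b : ℝ) ^ (L - u) / m + 1) with hBf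
  refine ⟨Bf, ?_, ?_, ?_⟩
  · intro m
    rw [hBf]
    positivity
  · intro m hm Y hY a
    rw [mem_Icc] at hm
    exact r17_one b u L hb huL α ω hω m a (by omega) Y hY
  · -- the sum
    have hTHpos := TH_pos b D u hb α
    have hTH2 := TH_le_two b D u hb α
    set θ := TH b D u α with hθ
    have hθ4 : 0 < θ ^ (1 / 4 : ℝ) := by positivity
    have hWW0 := WW_nonneg b hb α (2 * D * u) (4 * D * u)
    have hWWθ : WW b α (2 * D * u) (4 * D * u) ≤ θ := by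
      rw [hθ, TH]
      have : (0 : ℝ) ≤ (1 / 2 : ℝ) ^ u := by positivity
      linarith
    have hhalf : (1 / 2 : ℝ) ^ u ≤ θ := by
      rw [hθ, TH]
      linarith
    have hlogM : 1 + Real.log M₀ ≤ ((b : ℝ) + 1) * L := by
      have h1 : Real.log M₀ = (16 * (D * u) : ℕ) * Real.log b := by
        rw [hM₀']
        push_cast
        rw [Real.log_pow]
        push_cast
        ring
      have h2 : Real.log b ≤ b := (Real.log_le_sub_one_of_pos hb0).trans (by linarith)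
      have h3 : ((16 * (D * u) : ℕ) : ℝ) ≤ L := by exact_mod_cast (by omega : 16 * (D * u) ≤ L)
      have h4 : 0 ≤ Real.log b := Real.log_nonneg hb1
      rw [h1]
      calc 1 + ((16 * (D * u) : ℕ) : ℝ) * Real.log b ≤ L + L * b := by
            apply add_le_add hL1r
            exact mul_le_mul h3 h2 h4 (by positivity)
        _ = _ := by ring
    have hlogM0 : 0 ≤ 1 + Real.log M₀ := by
      have : 0 ≤ Real.log (M₀ : ℝ) := Real.log_nonneg (by exact_mod_cast hM1)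
      linarith
    -- the function Φ
    set n := 32 * (D * u) with hn
    set j₀ := 4 * (D * u) + 1 with hj₀
    set Φ : ℝ → ℝ := fun x => ‖FF b 0 n (fun i => α (j₀ + i)) (fun _ => 1) x‖ with hΦ
    have hΦ0 : ∀ x, 0 ≤ Φ x := fun x => norm_nonneg _
    have hΦ1 : ∀ (x : ℝ) (k : ℤ), Φ (x + k) = Φ x := by
      intro x k
      rw [hΦ]
      simp only
      rw [FF_add_int]
    have hFF : ∀ (c : ℕ) (x : ℝ), ‖FF b u (L - u) α (ω c) x‖ ≤ WW b α (2 * D * u) (4 * D * u) ^ (1 / 4 : ℝ) * Φ ((b ^ j₀ : ℕ) * x) := by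
      intro c x
      have h1 := FF_le_windows b u (L - u) (2 * D * u) (4 * D * u) j₀ n hb (by rw [mul_assoc]; omega)
        (by rw [mul_assoc, mul_assoc]; omega) (by rw [mul_assoc]; omega) (by omega) α (ω c) (hω c) x
      push_cast
      exact h1
    have hsumΦ : ∑ m ∈ Icc 1 M₀, (1 / (m : ℝ)) * ∑ l ∈ range m, Φ (l / m) ≤ 3 * (1 + Real.log M₀) ^ 2 := by
      have h1 := frac_sum (b ^ n) M₀ hM1 (by
        rw [hM₀', ← pow_mul]
        exact Nat.pow_le_pow_right (by omega) (by omega)) (gf b 0 n (fun i => α (j₀ + i)) (fun _ => 1))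
        (fun k => norm_gf_le b 0 n _ _ (fun _ => by simp) k)
      have hbn : (0 : ℝ) < (b : ℝ) ^ n := by positivity
      have h2 : ∀ x : ℝ, Φ x = ‖∑ k ∈ range (b ^ n), gf b 0 n (fun i => α (j₀ + i)) (fun _ => 1) k * ee (-(k * x))‖ / (b : ℝ) ^ n := by
        intro x
        rw [hΦ]
        simp only
        unfold FF
        rw [norm_div, norm_pow, Complex.norm_natCast]
      have h3 : ∑ m ∈ Icc 1 M₀, (1 / (m : ℝ)) * ∑ l ∈ range m, Φ (l / m) =
          (∑ m ∈ Icc 1 M₀, (1 / (m : ℝ)) * ∑ l ∈ range m,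
            ‖∑ k ∈ range (b ^ n), gf b 0 n (fun i => α (j₀ + i)) (fun _ => 1) k * ee (-(k * (l / m)))‖) / (b : ℝ) ^ n := by
        rw [Finset.sum_div]
        refine Finset.sum_congr rfl fun m _ => ?_
        rw [mul_div_assoc, Finset.sum_div]
        congr 1
        exact Finset.sum_congr rfl fun l _ => h2 _
      rw [h3, div_le_iff₀ hbn]
      push_cast at h1
      linarith
    have hcoll := collapse Φ hΦ0 hΦ1 (b ^ j₀) M₀ (by positivity)
    have hdiv : ((b ^ j₀).divisors.card : ℝ) ≤ b * 2 ^ b * (L : ℝ) ^ b := by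
      refine (card_divisors_pow b j₀ (by omega)).trans ?_
      rw [mul_assoc]
      apply mul_le_mul_of_nonneg_left _ hb0.le
      rw [← mul_pow]
      apply pow_le_pow_left₀ (by positivity)
      have : ((j₀ : ℕ) : ℝ) ≤ L := by exact_mod_cast (by omega : j₀ ≤ L)
      linarith
    have hmain : ∑ m ∈ Icc 1 M₀, (1 / (m : ℝ)) * ∑ l ∈ range m, Φ ((b ^ j₀ : ℕ) * (l / m)) ≤
        (b * 2 ^ b * (L : ℝ) ^ b) * (3 * (((b : ℝ) + 1) * L) ^ 2) := by
      refine hcoll.trans ?_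
      apply mul_le_mul hdiv _ _ (by positivity)
      · refine hsumΦ.trans ?_
        apply mul_le_mul_of_nonneg_left _ (by norm_num)
        exact pow_le_pow_left₀ hlogM0 hlogM 2
      · exact Finset.sum_nonneg fun m _ => mul_nonneg (by positivity) (Finset.sum_nonneg fun l _ => hΦ0 _)
    have hbLu : (b : ℝ) ^ u * (b : ℝ) ^ (L - u) = (b : ℝ) ^ L := by
      rw [← pow_add]
      congr 1
      omega
    have hpart1 : ∑ m ∈ Icc 1 M₀, ∑ c ∈ range (b ^ u), (((b : ℝ) ^ (L - u) / m) * ∑ l ∈ range m, ‖FF b u (L - u) α (ω c) (l / m)‖) ≤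
        (b : ℝ) ^ L * θ ^ (1 / 4 : ℝ) * ((b * 2 ^ b * (L : ℝ) ^ b) * (3 * (((b : ℝ) + 1) * L) ^ 2)) := by
      have h1 : ∀ m ∈ Icc 1 M₀, ∑ c ∈ range (b ^ u), (((b : ℝ) ^ (L - u) / m) * ∑ l ∈ range m, ‖FF b u (L - u) α (ω c) (l / m)‖) ≤
          ((b : ℝ) ^ L * θ ^ (1 / 4 : ℝ)) * ((1 / (m : ℝ)) * ∑ l ∈ range m, Φ ((b ^ j₀ : ℕ) * (l / m))) := by
        intro m _
        have h2 : ∀ c ∈ range (b ^ u), (((b : ℝ) ^ (L - u) / m) * ∑ l ∈ range m, ‖FF b u (L - u) α (ω c) (l / m)‖) ≤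
            ((b : ℝ) ^ (L - u) / m) * (θ ^ (1 / 4 : ℝ) * ∑ l ∈ range m, Φ ((b ^ j₀ : ℕ) * (l / m))) := by
          intro c _
          apply mul_le_mul_of_nonneg_left _ (by positivity)
          rw [Finset.mul_sum]
          refine Finset.sum_le_sum fun l _ => ?_
          refine (hFF c _).trans ?_
          apply mul_le_mul_of_nonneg_right _ (hΦ0 _)
          exact Real.rpow_le_rpow hWW0 hWWθ (by norm_num)
        refine (Finset.sum_le_sum h2).trans (le_of_eq ?_)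
        rw [Finset.sum_const, card_range, nsmul_eq_mul, ← hbLu]
        push_cast
        ring
      refine (Finset.sum_le_sum h1).trans ?_
      rw [← Finset.mul_sum]
      exact mul_le_mul_of_nonneg_left hmain (by positivity)
    have hBθ : (b : ℝ) ^ (L - u) ≤ (b : ℝ) ^ L * (2 * θ ^ (1 / 4 : ℝ)) := by
      have h1 : (b : ℝ) ^ (L - u) ≤ (b : ℝ) ^ L * (1 / 2 : ℝ) ^ u := by
        rw [← hbLu]
        have h2 : (1 : ℝ) ≤ (b : ℝ) ^ u * (1 / 2 : ℝ) ^ u := by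
          rw [← mul_pow]
          apply one_le_pow₀
          linarith
        calc (b : ℝ) ^ (L - u) = (b : ℝ) ^ (L - u) * 1 := (mul_one _).symm
          _ ≤ (b : ℝ) ^ (L - u) * ((b : ℝ) ^ u * (1 / 2 : ℝ) ^ u) := mul_le_mul_of_nonneg_left h2 (by positivity)
          _ = _ := by ring
      refine h1.trans ?_
      apply mul_le_mul_of_nonneg_left _ (by positivity)
      exact hhalf.trans (r17_TH θ hTHpos hTH2)
    have hpart2 : ∑ m ∈ Icc 1 M₀, ((b : ℝ) ^ (L - u) / m + 1) ≤ (b : ℝ) ^ L * (2 * θ ^ (1 / 4 : ℝ)) * (((b : ℝ) + 1) * L + 1) := by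
      rw [Finset.sum_add_distrib]
      have h1 : ∑ m ∈ Icc 1 M₀, (b : ℝ) ^ (L - u) / m ≤ (b : ℝ) ^ (L - u) * (((b : ℝ) + 1) * L) := by
        have h2 : ∑ m ∈ Icc 1 M₀, (b : ℝ) ^ (L - u) / m = (b : ℝ) ^ (L - u) * ∑ m ∈ Icc 1 M₀, 1 / (m : ℝ) := by
          rw [Finset.mul_sum]
          exact Finset.sum_congr rfl fun m _ => by ring
        rw [h2]
        apply mul_le_mul_of_nonneg_left _ (by positivity)
        exact (r17_harm M₀).trans hlogM
      have h3 : ∑ m ∈ Icc 1 M₀, (1 : ℝ) ≤ (b : ℝ) ^ (L - u) := by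
        rw [Finset.sum_const, Nat.card_Icc, Nat.add_sub_cancel, nsmul_eq_mul, mul_one, hM₀']
        push_cast
        exact pow_le_pow_right₀ hb1 (by omega)
      calc _ ≤ (b : ℝ) ^ (L - u) * (((b : ℝ) + 1) * L) + (b : ℝ) ^ (L - u) := add_le_add h1 h3
        _ = (b : ℝ) ^ (L - u) * (((b : ℝ) + 1) * L + 1) := by ring
        _ ≤ _ := mul_le_mul_of_nonneg_right hBθ (by positivity)
    have htot : ∑ m ∈ Icc 1 M₀, Bf m ≤ (b : ℝ) ^ L * θ ^ (1 / 4 : ℝ) * ((b * 2 ^ b * (L : ℝ) ^ b) * (3 * (((b : ℝ) + 1) * L) ^ 2)) +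
        (b : ℝ) ^ L * (2 * θ ^ (1 / 4 : ℝ)) * (((b : ℝ) + 1) * L + 1) := by
      rw [hBf]
      simp only
      rw [Finset.sum_add_distrib]
      exact add_le_add hpart1 hpart2
    refine htot.trans ?_
    have hLp : (L : ℝ) ≤ (L : ℝ) ^ (b + 2) := by
      calc (L : ℝ) = (L : ℝ) ^ 1 := (pow_one _).symm
        _ ≤ (L : ℝ) ^ (b + 2) := pow_le_pow_right₀ hL1r (by omega)
    have hLp1 : (1 : ℝ) ≤ (L : ℝ) ^ (b + 2) := one_le_pow₀ hL1r
    have e1 : (b : ℝ) ^ L * θ ^ (1 / 4 : ℝ) * ((b * 2 ^ b * (L : ℝ) ^ b) * (3 * (((b : ℝ) + 1) * L) ^ 2)) =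
        (3 * b * 2 ^ b * ((b : ℝ) + 1) ^ 2) * (L : ℝ) ^ (b + 2) * ((b : ℝ) ^ L * θ ^ (1 / 4 : ℝ)) := by
      rw [pow_add (L : ℝ) b 2]
      ring
    have e2 : (b : ℝ) ^ L * (2 * θ ^ (1 / 4 : ℝ)) * (((b : ℝ) + 1) * L + 1) ≤
        (2 * ((b : ℝ) + 1) + 2) * (L : ℝ) ^ (b + 2) * ((b : ℝ) ^ L * θ ^ (1 / 4 : ℝ)) := by
      have h1 : 2 * (((b : ℝ) + 1) * L + 1) ≤ (2 * ((b : ℝ) + 1) + 2) * (L : ℝ) ^ (b + 2) := by
        have h2 : ((b : ℝ) + 1) * L ≤ ((b : ℝ) + 1) * (L : ℝ) ^ (b + 2) := mul_le_mul_of_nonneg_left hLp (by positivity)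
        linarith
      calc (b : ℝ) ^ L * (2 * θ ^ (1 / 4 : ℝ)) * (((b : ℝ) + 1) * L + 1) =
            (2 * (((b : ℝ) + 1) * L + 1)) * ((b : ℝ) ^ L * θ ^ (1 / 4 : ℝ)) := by ring
        _ ≤ _ := mul_le_mul_of_nonneg_right h1 (by positivity)
    rw [e1]
    calc _ ≤ (3 * b * 2 ^ b * ((b : ℝ) + 1) ^ 2) * (L : ℝ) ^ (b + 2) * ((b : ℝ) ^ L * θ ^ (1 / 4 : ℝ)) +
        (2 * ((b : ℝ) + 1) + 2) * (L : ℝ) ^ (b + 2) * ((b : ℝ) ^ L * θ ^ (1 / 4 : ℝ)) := by linarith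
      _ = _ := by ring


end Pool.Agent.LibRN31
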