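import Pool.Agent.LibRN31.R0
import Pool.Agent.LibRN31.R17

/-! # LibRN31 R17b: type I bound for the reflected function -/

namespace Pool.Agent.LibRN31

open Finset Pool.Agent.LibHG31 Pool.Agent.LibHG31.TT

theorem norm_rf_le (b u L : ℕ) (α : ℕ → ℝ) (ω : ℕ → ℕ → ℂ) (hω : ∀ c v, ‖ω c v‖ ≤ 1) (Z k : ℕ) :
    ‖rf b u L α ω Z k‖ ≤ 1 := by
  unfold rf
  split_ifs
  · exact norm_fd_le b u L α ω hω _
  · simp

/-- reflection of a sum over multiples of `m` -/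
theorem rf_reflect (b u L : ℕ) (α : ℕ → ℝ) (ω : ℕ → ℕ → ℂ) (Z m Y : ℕ) (hY : Y ≤ Z + 1) :
    ∑ k ∈ (range Y).filter (fun k => m ∣ k), rf b u L α ω Z k =
      ∑ k ∈ (range (Z + 1)).filter (fun k => k ≡ Z [MOD m]), fd b u L α ω k -
        ∑ k ∈ (range (Z + 1 - Y)).filter (fun k => k ≡ Z [MOD m]), fd b u L α ω k := by
  classical
  have h1 : (range (Z + 1)).filter (fun k => k ≡ Z [MOD m]) =
      (range (Z + 1 - Y)).filter (fun k => k ≡ Z [MOD m]) ∪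
        (Ico (Z + 1 - Y) (Z + 1)).filter (fun k => k ≡ Z [MOD m]) := by
    ext k
    simp only [mem_filter, mem_range, mem_union, mem_Ico]
    constructor
    · rintro ⟨h1, h2⟩
      by_cases h3 : k < Z + 1 - Y
      · exact Or.inl ⟨h3, h2⟩
      · exact Or.inr ⟨⟨by omega, h1⟩, h2⟩
    · rintro (⟨h1, h2⟩ | ⟨⟨h1, h3⟩, h2⟩)
      · exact ⟨by omega, h2⟩
      · exact ⟨by omega, h2⟩
  have hdisj : Disjoint ((range (Z + 1 - Y)).filter (fun k => k ≡ Z [MOD m]))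
      ((Ico (Z + 1 - Y) (Z + 1)).filter (fun k => k ≡ Z [MOD m])) := by
    rw [Finset.disjoint_left]
    intro k hk hk'
    rw [mem_filter, mem_range] at hk
    rw [mem_filter, mem_Ico] at hk'
    omega
  rw [h1, sum_union hdisj, add_sub_cancel_left]
  refine Finset.sum_bij' (fun k _ => Z - k) (fun k _ => Z - k) ?_ ?_ ?_ ?_ ?_
  · intro k hk
    rw [mem_filter, mem_range] at hk
    rw [mem_filter, mem_Ico]
    refine ⟨⟨by omega, by omega⟩, ?_⟩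
    have h2 : (Z - k) + k = Z := by omega
    have h3 : (Z - k) + 0 ≡ (Z - k) + k [MOD m] :=
      Nat.ModEq.add_left _ ((Nat.modEq_zero_iff_dvd.2 hk.2).symm)
    rwa [h2, add_zero] at h3
  · intro k hk
    rw [mem_filter, mem_Ico] at hk
    rw [mem_filter, mem_range]
    refine ⟨by omega, ?_⟩
    exact (Nat.modEq_iff_dvd' (by omega)).1 hk.2
  · intro k hk
    rw [mem_filter, mem_range] at hk
    omega
  · intro k hk
    rw [mem_filter, mem_Ico] at hk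
    omega
  · intro k hk
    rw [mem_filter, mem_range] at hk
    unfold rf
    rw [if_pos (by omega)]

theorem typeI_rf (b D : ℕ) (hb : 2 ≤ b) (hD : 1 ≤ D) : ∃ (C : ℝ) (A : ℕ), 0 < C ∧
    ∀ (L u : ℕ), 1 ≤ u → 64 * D * u ≤ L → ∀ (α : ℕ → ℝ) (ω : ℕ → ℕ → ℂ), (∀ c v, ‖ω c v‖ ≤ 1) →
    ∀ Z : ℕ, Z < b ^ L →
    ∃ Bf : ℕ → ℝ, (∀ m, 0 ≤ Bf m) ∧
      (∀ m ∈ Icc 1 ((b ^ (8 * D * u)) ^ 2), ∀ Y ≤ b ^ L,
        ‖∑ k ∈ (range Y).filter (fun k => m ∣ k), rf b u L α ω Z k‖ ≤ Bf m) ∧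
      ∑ m ∈ Icc 1 ((b ^ (8 * D * u)) ^ 2), Bf m ≤
        C * (L : ℝ) ^ A * (b : ℝ) ^ L * TH b D u α ^ (1 / 4 : ℝ) := by
  obtain ⟨C, A, hC, H⟩ := typeI_cl b D hb hD
  refine ⟨2 * C, A, by positivity, ?_⟩
  intro L u hu hLu α ω hω Z hZ
  obtain ⟨Bf, hB0, hB1, hB2⟩ := H L u hu hLu α ω hω
  refine ⟨fun m => 2 * Bf m, fun m => by have := hB0 m; positivity, ?_, ?_⟩
  · intro m hm Y hY
    -- reduce to `Y ≤ Z + 1`
    have h1 : ∑ k ∈ (range Y).filter (fun k => m ∣ k), rf b u L α ω Z k =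
        ∑ k ∈ (range (min Y (Z + 1))).filter (fun k => m ∣ k), rf b u L α ω Z k := by
      symm
      apply Finset.sum_subset
      · intro k hk
        rw [mem_filter, mem_range] at hk ⊢
        exact ⟨by omega, hk.2⟩
      · intro k hk hk'
        rw [mem_filter, mem_range] at hk hk'
        unfold rf
        rw [if_neg]
        intro hkZ
        exact hk' ⟨by omega, hk.2⟩
    rw [h1, rf_reflect b u L α ω Z m _ (by omega)]
    have h2 := hB1 m hm (Z + 1) (by omega) Z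
    have h3 := hB1 m hm (Z + 1 - min Y (Z + 1)) (by omega) Z
    refine (norm_sub_le _ _).trans ?_
    show _ ≤ 2 * Bf m
    linarith
  · rw [← Finset.mul_sum]
    calc 2 * ∑ m ∈ Icc 1 ((b ^ (8 * D * u)) ^ 2), Bf m ≤
        2 * (C * (L : ℝ) ^ A * (b : ℝ) ^ L * TH b D u α ^ (1 / 4 : ℝ)) :=
          mul_le_mul_of_nonneg_left hB2 (by norm_num)
      _ = _ := by ring

end Pool.Agent.LibRN31
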