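import Mathlib

/-! # LibRN31 R20: counting the pairs with a carry, reflected function (only Mathlib) -/

namespace Pool.Agent.LibRN31

open Finset

private theorem r20_fiber (M N r B m j Z : ℕ) (hm : 1 ≤ m) (hB : 0 < B) :
    #{n ∈ {n ∈ Ico N (2 * N) | m * (n + r) ≤ Z ∧ B ≤ (Z - m * (n + r)) % B + m * r} |
      Z / B - (Z - m * (n + r)) / B = j} ≤ r := by
  set F : Finset ℕ := {n ∈ {n ∈ Ico N (2 * N) | m * (n + r) ≤ Z ∧ B ≤ (Z - m * (n + r)) % B + m * r} |
      Z / B - (Z - m * (n + r)) / B = j} with hF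
  rcases F.eq_empty_or_nonempty with h | h
  · rw [h]; simp
  · have hsub : F ⊆ Ico (F.min' h) (F.min' h + r) := by
      intro n hn
      have hle : F.min' h ≤ n := Finset.min'_le F n hn
      have hmin := Finset.min'_mem F h
      set n0 := F.min' h with hn0
      rw [hF, mem_filter, mem_filter] at hn hmin
      obtain ⟨⟨_, a1, a2⟩, a3⟩ := hn
      obtain ⟨⟨_, b1, b2⟩, b3⟩ := hmin
      rw [mem_Ico]
      refine ⟨hle, ?_⟩
      have g1 : (Z - m * (n + r)) / B ≤ Z / B := Nat.div_le_div_right (Nat.sub_le _ _)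
      have g2 : (Z - m * (n0 + r)) / B ≤ Z / B := Nat.div_le_div_right (Nat.sub_le _ _)
      have e0 : (Z - m * (n + r)) / B = (Z - m * (n0 + r)) / B := by omega
      have e1 := Nat.div_add_mod (Z - m * (n + r)) B
      have e2 := Nat.div_add_mod (Z - m * (n0 + r)) B
      rw [← e0] at e2
      have e3 := Nat.mod_lt (Z - m * (n0 + r)) hB
      have e4 : m * (n + r) < m * (n0 + r) + m * r := by omega
      rw [← mul_add] at e4
      have e5 := Nat.lt_of_mul_lt_mul_left e4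
      omega
    have := Finset.card_le_card hsub
    rw [Nat.card_Ico] at this
    omega

private theorem r20_one (M N r B m Z : ℕ) (hm : m ∈ Ico M (2 * M)) (hM : 1 ≤ M) (hB : 0 < B)
    (hrN : r ≤ N) :
    #{n ∈ Ico N (2 * N) | m * (n + r) ≤ Z ∧ B ≤ (Z - m * (n + r)) % B + m * r} ≤
      r * (6 * M * N / B + 2) := by
  rw [mem_Ico] at hm
  have h1 := Finset.card_le_mul_card_image_of_maps_to
    (s := {n ∈ Ico N (2 * N) | m * (n + r) ≤ Z ∧ B ≤ (Z - m * (n + r)) % B + m * r})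
    (t := range (6 * M * N / B + 2))
    (f := fun n => Z / B - (Z - m * (n + r)) / B) (fun n hn => by
      rw [mem_filter, mem_Ico] at hn
      rw [mem_range]
      have h2 : m * (n + r) ≤ (2 * M) * (3 * N) := Nat.mul_le_mul hm.2.le (by omega)
      have h3 : (2 * M) * (3 * N) = 6 * M * N := by ring
      rw [h3] at h2
      set t := m * (n + r) with ht
      have h4 : t / B ≤ 6 * M * N / B := Nat.div_le_div_right h2
      have e1 := Nat.div_add_mod (Z - t) B
      have e2 := Nat.div_add_mod t B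
      have e3 := Nat.mod_lt (Z - t) hB
      have e4 := Nat.mod_lt t hB
      have htZ : t ≤ Z := hn.2.1
      have e7 : B * ((Z - t) / B + t / B) = B * ((Z - t) / B) + B * (t / B) := mul_add _ _ _
      have e5 : Z = B * ((Z - t) / B + t / B) + ((Z - t) % B + t % B) := by
        rw [e7]
        omega
      have e6 : Z / B ≤ (Z - t) / B + t / B + 1 := by
        have h5 : Z < ((Z - t) / B + t / B + 1 + 1) * B := by
          have h6 : ((Z - t) / B + t / B + 1 + 1) * B = B * ((Z - t) / B + t / B) + 2 * B := by ring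
          rw [h6]
          omega
        have := (Nat.div_lt_iff_lt_mul hB).2 h5
        omega
      show Z / B - (Z - t) / B < _
      revert h4 e6
      generalize 6 * M * N / B = q1
      generalize Z / B = q2
      generalize (Z - t) / B = q3
      generalize t / B = q4
      intro h4 e6
      omega) r
    (fun j _ => r20_fiber M N r B m j Z (by omega) hB)
  rwa [card_range] at h1

theorem exc_rf (b u M N r B Z : ℕ) (hb : 2 ≤ b) (hM : 1 ≤ M) (hB : M * b ^ (2 * u + 2) ≤ B)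
    (hr : r < b ^ u) (hN : b ^ (2 * u) ≤ N) :
    ((∑ n ∈ Ico N (2 * N), #{m ∈ Ico M (2 * M) | m * (n + r) ≤ Z ∧
        B ≤ (Z - m * (n + r)) % B + m * r} : ℕ) : ℝ) ≤
      4 * M * N / (b : ℝ) ^ u := by
  have hb0 : 0 < b := by omega
  have hBpos : 0 < B := lt_of_lt_of_le (Nat.mul_pos (by omega) (pow_pos hb0 _)) hB
  have hrN : r ≤ N := by
    have h1 : b ^ u ≤ b ^ (2 * u) := Nat.pow_le_pow_right hb0 (by omega)
    omega
  have hswap : ∑ n ∈ Ico N (2 * N), #{m ∈ Ico M (2 * M) | m * (n + r) ≤ Z ∧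
        B ≤ (Z - m * (n + r)) % B + m * r} =
      ∑ m ∈ Ico M (2 * M), #{n ∈ Ico N (2 * N) | m * (n + r) ≤ Z ∧
        B ≤ (Z - m * (n + r)) % B + m * r} := by
    simp only [Finset.card_filter]
    exact Finset.sum_comm
  rw [hswap]
  have h1 : ∑ m ∈ Ico M (2 * M), #{n ∈ Ico N (2 * N) | m * (n + r) ≤ Z ∧
        B ≤ (Z - m * (n + r)) % B + m * r} ≤
      M * (r * (6 * M * N / B + 2)) := by
    refine (Finset.sum_le_sum fun m hm => r20_one M N r B m Z hm hM hBpos hrN).trans ?_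
    rw [Finset.sum_const, Nat.card_Ico, smul_eq_mul]
    apply Nat.mul_le_mul_right
    omega
  have hbR : (2 : ℝ) ≤ b := by exact_mod_cast hb
  have hbu : (0 : ℝ) < (b : ℝ) ^ u := by positivity
  have hMR : (1 : ℝ) ≤ M := by exact_mod_cast hM
  have hBR : (0 : ℝ) < B := by exact_mod_cast hBpos
  have hrR : (r : ℝ) ≤ (b : ℝ) ^ u := by exact_mod_cast hr.le
  have hNR : (b : ℝ) ^ (2 * u) ≤ N := by exact_mod_cast hN
  have hB4 : 4 * (M : ℝ) * (b : ℝ) ^ (2 * u) ≤ B := by
    have h2 : (M : ℝ) * (b : ℝ) ^ (2 * u + 2) ≤ B := by exact_mod_cast hB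
    have h3 : (4 : ℝ) ≤ (b : ℝ) ^ 2 := by nlinarith
    have h4 : (b : ℝ) ^ (2 * u + 2) = (b : ℝ) ^ (2 * u) * (b : ℝ) ^ 2 := pow_add _ _ _
    have h5 : 0 ≤ (M : ℝ) * (b : ℝ) ^ (2 * u) := by positivity
    rw [h4] at h2
    nlinarith
  have hq : 4 * (M : ℝ) * N / B ≤ N / (b : ℝ) ^ (2 * u) := by
    rw [div_le_div_iff₀ hBR (by positivity)]
    have h5 : (0 : ℝ) ≤ N := Nat.cast_nonneg _
    nlinarith [mul_le_mul_of_nonneg_left hB4 h5]
  have hone : (1 : ℝ) ≤ N / (b : ℝ) ^ (2 * u) := by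
    rw [le_div_iff₀ (by positivity)]
    linarith
  have h2 : ((∑ m ∈ Ico M (2 * M), #{n ∈ Ico N (2 * N) | m * (n + r) ≤ Z ∧
        B ≤ (Z - m * (n + r)) % B + m * r} : ℕ) : ℝ) ≤
      ((M * (r * (6 * M * N / B + 2)) : ℕ) : ℝ) := by exact_mod_cast h1
  refine h2.trans ?_
  push_cast
  have h3 : (((6 * M * N / B : ℕ) : ℝ)) ≤ 6 * (M : ℝ) * N / B := by
    have := @Nat.cast_div_le ℝ _ _ _ (6 * M * N) B
    push_cast at this
    exact this
  have h4 : 6 * (M : ℝ) * N / B = 3 / 2 * (4 * (M : ℝ) * N / B) := by ring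
  have hq0 : 0 ≤ (N : ℝ) / (b : ℝ) ^ (2 * u) := by positivity
  calc (M : ℝ) * (r * (((6 * M * N / B : ℕ) : ℝ) + 2))
      ≤ M * ((b : ℝ) ^ u * (4 * (N / (b : ℝ) ^ (2 * u)))) := by
        apply mul_le_mul_of_nonneg_left _ (by positivity)
        apply mul_le_mul hrR (by linarith) (by positivity) (by positivity)
    _ = 4 * M * N / (b : ℝ) ^ u := by
        have : (b : ℝ) ^ (2 * u) = (b : ℝ) ^ u * (b : ℝ) ^ u := by rw [two_mul, pow_add]
        rw [this]
        field_simp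

end Pool.Agent.LibRN31
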