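import Pool.Agent.LibHG31.T2
import Pool.Agent.LibHG31.T21

/-! # LibRN31 R22: Fourier expansion of the correlation, reflected function -/

namespace Pool.Agent.LibRN31

open Finset Pool.Agent.LibHG31 Pool.Agent.LibHG31.TT
open scoped ComplexConjugate

theorem interval_rf (M B n c Z : ℕ) (hn : 0 < n) (hB : 0 < B) : ∃ M₁ M₂ : ℕ,
    (Ico M (2 * M)).filter (fun m => m * n ≤ Z ∧ (Z - m * n) / B = c) = Ico M₁ M₂ ∧
      (M₂ : ℝ) - M₁ ≤ (B : ℝ) / n + 1 := by
  have hn' : (0 : ℝ) < n := by exact_mod_cast hn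
  have hB' : (0 : ℝ) < B := by exact_mod_cast hB
  have hpos : (0 : ℝ) ≤ (B : ℝ) / n + 1 := by positivity
  have hmem : ∀ m : ℕ, (m * n ≤ Z ∧ (Z - m * n) / B = c) ↔
      (m * n ≤ Z ∧ c * B ≤ Z - m * n ∧ Z - m * n < (c + 1) * B) := by
    intro m
    have h2 : (Z - m * n) / B = c ↔ c * B ≤ Z - m * n ∧ Z - m * n < (c + 1) * B := by
      rw [← Nat.le_div_iff_mul_le hB, ← Nat.div_lt_iff_lt_mul hB]
      omega
    rw [h2]
  by_cases hc : c * B ≤ Z
  · have hU : ∀ m : ℕ, m < (Z - c * B) / n + 1 ↔ m * n ≤ Z - c * B := by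
      intro m
      rw [Nat.lt_succ_iff, Nat.le_div_iff_mul_le hn]
    have hUle : (((Z - c * B) / n + 1 : ℕ) : ℝ) ≤ ((Z : ℝ) - c * B) / n + 1 := by
      push_cast
      have h1 : (((Z - c * B) / n : ℕ) : ℝ) ≤ ((Z - c * B : ℕ) : ℝ) / n := Nat.cast_div_le
      rw [Nat.cast_sub hc] at h1
      push_cast at h1
      linarith
    by_cases hc1 : (c + 1) * B ≤ Z
    · have hL : ∀ m : ℕ, (Z - (c + 1) * B) / n + 1 ≤ m ↔ Z - (c + 1) * B < m * n := by
        intro m
        rw [Nat.succ_le_iff, Nat.div_lt_iff_lt_mul hn]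
      have hLge : ((Z : ℝ) - (c + 1) * B) / n ≤ (((Z - (c + 1) * B) / n + 1 : ℕ) : ℝ) := by
        rw [div_le_iff₀ hn']
        have h1 : Z - (c + 1) * B < ((Z - (c + 1) * B) / n + 1) * n := (hL _).1 le_rfl
        have h2 : ((Z - (c + 1) * B : ℕ) : ℝ) ≤ ((((Z - (c + 1) * B) / n + 1) * n : ℕ) : ℝ) := by
          exact_mod_cast h1.le
        rw [Nat.cast_sub hc1] at h2
        push_cast at h2 ⊢
        linarith
      refine ⟨max M ((Z - (c + 1) * B) / n + 1), min (2 * M) ((Z - c * B) / n + 1), ?_, ?_⟩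
      · ext m
        rw [Finset.mem_filter, Finset.mem_Ico, Finset.mem_Ico, max_le_iff, lt_min_iff, hmem, hU, hL]
        constructor
        · rintro ⟨⟨h1, h2⟩, h3, h4, h5⟩
          refine ⟨⟨h1, by omega⟩, h2, by omega⟩
        · rintro ⟨⟨h1, h2⟩, h3, h4⟩
          refine ⟨⟨h1, h3⟩, by omega, by omega, by omega⟩
      · have h3 : ((min (2 * M) ((Z - c * B) / n + 1) : ℕ) : ℝ) ≤ (((Z - c * B) / n + 1 : ℕ) : ℝ) := by
          exact_mod_cast min_le_right _ _
        have h4 : (((Z - (c + 1) * B) / n + 1 : ℕ) : ℝ) ≤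
            ((max M ((Z - (c + 1) * B) / n + 1) : ℕ) : ℝ) := by
          exact_mod_cast le_max_right _ _
        have h5 : ((Z : ℝ) - c * B) / n + 1 - ((Z : ℝ) - (c + 1) * B) / n = (B : ℝ) / n + 1 := by
          field_simp
          ring
        linarith
    · refine ⟨M, min (2 * M) ((Z - c * B) / n + 1), ?_, ?_⟩
      · ext m
        rw [Finset.mem_filter, Finset.mem_Ico, Finset.mem_Ico, lt_min_iff, hmem, hU]
        constructor
        · rintro ⟨⟨h1, h2⟩, h3, h4, h5⟩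
          refine ⟨h1, h2, by omega⟩
        · rintro ⟨h1, h2, h3⟩
          refine ⟨⟨h1, h2⟩, by omega, by omega, by omega⟩
      · have h3 : ((min (2 * M) ((Z - c * B) / n + 1) : ℕ) : ℝ) ≤ (((Z - c * B) / n + 1 : ℕ) : ℝ) := by
          exact_mod_cast min_le_right _ _
        have h4 : ((Z : ℝ) - c * B) / n ≤ (B : ℝ) / n := by
          apply div_le_div_of_nonneg_right _ hn'.le
          have h5 : Z < (c + 1) * B := by omega
          have h6 : (Z : ℝ) < (c + 1) * B := by exact_mod_cast h5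
          linarith
        have h5 : (0 : ℝ) ≤ M := Nat.cast_nonneg _
        linarith
  · refine ⟨0, 0, ?_, ?_⟩
    · rw [Finset.Ico_self, Finset.filter_eq_empty_iff]
      intro m _ h
      rw [hmem] at h
      omega
    · simpa using hpos

private theorem r22_expand (b u lam m n r Z : ℕ) (hb : 0 < b) (hu : u ≤ lam) (hZ : m * (n + r) ≤ Z)
    (α : ℕ → ℝ) (w : ℕ → ℂ) :
    gf b u lam α w (Z - m * n) * conj (gf b u lam α w (Z - m * (n + r))) =
      ∑ h ∈ range (b ^ lam), ∑ h' ∈ range (b ^ lam),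
        (FF b u lam α w (h' / (b : ℝ) ^ lam) * conj (FF b u lam α w (h / (b : ℝ) ^ lam)) *
          ee ((((h' : ℝ) - h) * Z) / (b : ℝ) ^ lam)) *
          ee (m * (((((h : ℤ) - h' : ℤ) : ℝ) * n + h * r) / (b : ℝ) ^ lam)) := by
  have hb' : (b : ℝ) ^ lam ≠ 0 := by positivity
  have hmn : m * n ≤ Z := le_trans (Nat.mul_le_mul_left m (by omega)) hZ
  rw [gf_eq_sum b u lam hb hu α w (Z - m * n), gf_eq_sum b u lam hb hu α w (Z - m * (n + r)), map_sum,
    Finset.sum_mul_sum, Finset.sum_comm]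
  refine sum_congr rfl fun h _ => sum_congr rfl fun h' _ => ?_
  rw [map_mul, conj_ee]
  have h1 : ee (h' * ((Z - m * n : ℕ) : ℝ) / (b : ℝ) ^ lam) *
        ee (-(h * ((Z - m * (n + r) : ℕ) : ℝ) / (b : ℝ) ^ lam)) =
      ee ((((h' : ℝ) - h) * Z) / (b : ℝ) ^ lam) *
        ee (m * (((((h : ℤ) - h' : ℤ) : ℝ) * n + h * r) / (b : ℝ) ^ lam)) := by
    rw [← ee_add, ← ee_add]
    congr 1
    rw [Nat.cast_sub hmn, Nat.cast_sub hZ]
    push_cast
    field_simp
    ring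
  calc FF b u lam α w (h' / (b : ℝ) ^ lam) * ee (h' * ((Z - m * n : ℕ) : ℝ) / (b : ℝ) ^ lam) *
        (conj (FF b u lam α w (h / (b : ℝ) ^ lam)) *
          ee (-(h * ((Z - m * (n + r) : ℕ) : ℝ) / (b : ℝ) ^ lam))) =
      FF b u lam α w (h' / (b : ℝ) ^ lam) * conj (FF b u lam α w (h / (b : ℝ) ^ lam)) *
        (ee (h' * ((Z - m * n : ℕ) : ℝ) / (b : ℝ) ^ lam) *
          ee (-(h * ((Z - m * (n + r) : ℕ) : ℝ) / (b : ℝ) ^ lam))) := by ring
    _ = _ := by
        rw [h1]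
        ring

theorem sum_U_rf (b u L lam M N r Z : ℕ) (hb : 2 ≤ b) (hN : 1 ≤ N) (hu : u ≤ lam) (α : ℕ → ℝ)
    (ω : ℕ → ℕ → ℂ) (hω : ∀ c v, b ^ u ≤ c → ω c v = 0) :
    ∑ n ∈ Ico N (2 * N), ‖∑ m ∈ (Ico M (2 * M)).filter (fun m => m * (n + r) ≤ Z),
      gf b u lam α (ω ((Z - m * (n + r)) / b ^ (L - u))) (Z - m * n) *
        conj (gf b u lam α (ω ((Z - m * (n + r)) / b ^ (L - u))) (Z - m * (n + r)))‖ ≤
    ∑ c ∈ range (b ^ u), ∑ h ∈ range (b ^ lam), ∑ h' ∈ range (b ^ lam),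
      ‖FF b u lam α (ω c) (h / (b : ℝ) ^ lam)‖ * ‖FF b u lam α (ω c) (h' / (b : ℝ) ^ lam)‖ *
        ∑ n ∈ Ico N (2 * N), 2 * mm ((b : ℝ) ^ (L - u) / N + 1)
          (((((h : ℤ) - h' : ℤ) : ℝ) * n + h * r) / (b : ℝ) ^ lam) := by
  have hb0 : 0 < b := by omega
  have hN0 : (0 : ℝ) < N := by exact_mod_cast hN
  have hX0 : (0 : ℝ) < (b : ℝ) ^ (L - u) / N + 1 := by positivity
  have hper : ∀ n ∈ Ico N (2 * N), ‖∑ m ∈ (Ico M (2 * M)).filter (fun m => m * (n + r) ≤ Z),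
      gf b u lam α (ω ((Z - m * (n + r)) / b ^ (L - u))) (Z - m * n) *
        conj (gf b u lam α (ω ((Z - m * (n + r)) / b ^ (L - u))) (Z - m * (n + r)))‖ ≤
      ∑ c ∈ range (b ^ u), ∑ h ∈ range (b ^ lam), ∑ h' ∈ range (b ^ lam),
        ‖FF b u lam α (ω c) (h / (b : ℝ) ^ lam)‖ * ‖FF b u lam α (ω c) (h' / (b : ℝ) ^ lam)‖ *
          (2 * mm ((b : ℝ) ^ (L - u) / N + 1)
            (((((h : ℤ) - h' : ℤ) : ℝ) * n + h * r) / (b : ℝ) ^ lam)) := by
    intro n hn
    obtain ⟨hn1, hn2⟩ := Finset.mem_Ico.1 hn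
    have hn0 : 0 < n + r := by omega
    have hnR : (0 : ℝ) < ((n + r : ℕ) : ℝ) := by exact_mod_cast hn0
    have hnN : (N : ℝ) ≤ ((n + r : ℕ) : ℝ) := by exact_mod_cast (by omega : N ≤ n + r)
    have hB0 : 0 < b ^ (L - u) := by positivity
    -- split by the prefix
    have hsplit : ∑ m ∈ (Ico M (2 * M)).filter (fun m => m * (n + r) ≤ Z),
        gf b u lam α (ω ((Z - m * (n + r)) / b ^ (L - u))) (Z - m * n) *
          conj (gf b u lam α (ω ((Z - m * (n + r)) / b ^ (L - u))) (Z - m * (n + r))) =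
        ∑ c ∈ range (b ^ u), ∑ m ∈ (Ico M (2 * M)).filter
            (fun m => m * (n + r) ≤ Z ∧ (Z - m * (n + r)) / b ^ (L - u) = c),
          gf b u lam α (ω c) (Z - m * n) * conj (gf b u lam α (ω c) (Z - m * (n + r))) := by
      simp_rw [← Finset.filter_filter]
      generalize (Ico M (2 * M)).filter (fun m => m * (n + r) ≤ Z) = S
      simp_rw [Finset.sum_filter]
      rw [Finset.sum_comm]
      refine sum_congr rfl fun m _ => ?_
      by_cases hc : (Z - m * (n + r)) / b ^ (L - u) < b ^ u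
      · rw [Finset.sum_ite_eq, if_pos (Finset.mem_range.2 hc)]
      · push Not at hc
        have hz : ∀ k, gf b u lam α (ω ((Z - m * (n + r)) / b ^ (L - u))) k = 0 := by
          intro k
          unfold gf
          rw [hω _ _ hc, zero_mul]
        rw [hz, zero_mul]
        symm
        refine Finset.sum_eq_zero fun c hc' => ?_
        rw [if_neg]
        rintro rfl
        exact absurd (Finset.mem_range.1 hc') (not_lt.2 hc)
    rw [hsplit]
    refine (norm_sum_le _ _).trans (Finset.sum_le_sum fun c _ => ?_)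
    obtain ⟨M₁, M₂, hI, hlen⟩ := interval_rf M (b ^ (L - u)) (n + r) c Z hn0 hB0
    have hmemI : ∀ m ∈ Ico M₁ M₂, m * (n + r) ≤ Z := by
      intro m hm
      rw [← hI, mem_filter] at hm
      exact hm.2.1
    rw [hI]
    have hlen' : (M₂ : ℝ) - M₁ ≤ (b : ℝ) ^ (L - u) / N + 1 := by
      refine hlen.trans ?_
      push_cast
      have : (b : ℝ) ^ (L - u) / ((n + r : ℕ) : ℝ) ≤ (b : ℝ) ^ (L - u) / N :=
        div_le_div_of_nonneg_left (by positivity) hN0 hnN
      push_cast at this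
      linarith
    have hex : ∑ m ∈ Ico M₁ M₂, gf b u lam α (ω c) (Z - m * n) *
          conj (gf b u lam α (ω c) (Z - m * (n + r))) =
        ∑ h ∈ range (b ^ lam), ∑ h' ∈ range (b ^ lam),
          (FF b u lam α (ω c) (h' / (b : ℝ) ^ lam) * conj (FF b u lam α (ω c) (h / (b : ℝ) ^ lam)) *
            ee ((((h' : ℝ) - h) * Z) / (b : ℝ) ^ lam)) *
            ∑ m ∈ Ico M₁ M₂, ee (m * (((((h : ℤ) - h' : ℤ) : ℝ) * n + h * r) / (b : ℝ) ^ lam)) := by
      rw [sum_congr rfl fun m hm => r22_expand b u lam m n r Z hb0 hu (hmemI m hm) α (ω c), Finset.sum_comm]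
      refine sum_congr rfl fun h _ => ?_
      rw [Finset.sum_comm]
      refine sum_congr rfl fun h' _ => ?_
      rw [Finset.mul_sum]
    rw [hex]
    refine (norm_sum_le _ _).trans (Finset.sum_le_sum fun h _ => ?_)
    refine (norm_sum_le _ _).trans (Finset.sum_le_sum fun h' _ => ?_)
    rw [norm_mul, norm_mul, norm_mul, RCLike.norm_conj, norm_ee, mul_one,
      mul_comm ‖FF b u lam α (ω c) (h' / (b : ℝ) ^ lam)‖]
    exact mul_le_mul_of_nonneg_left (norm_geo_le M₁ M₂ _ _ hX0 hlen') (by positivity)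
  refine (Finset.sum_le_sum hper).trans (le_of_eq ?_)
  rw [Finset.sum_comm]
  refine sum_congr rfl fun c _ => ?_
  rw [Finset.sum_comm]
  refine sum_congr rfl fun h _ => ?_
  rw [Finset.sum_comm]
  refine sum_congr rfl fun h' _ => ?_
  rw [Finset.mul_sum]

end Pool.Agent.LibRN31
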