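import Pool.Agent.LibHG31.T26
import Pool.Agent.LibRN31.R22

/-! # LibRN31 R26: the correlation bound, reflected function (adapted from LibHG31 T26) -/

namespace Pool.Agent.LibRN31

open Finset Pool.Agent.LibHG31 Pool.Agent.LibHG31.TT
open scoped ComplexConjugate

theorem U_bound_rf (b D : ℕ) (hb : 2 ≤ b) (hD : 20 * b ≤ D) (hκ : kap b ^ (D - 1) ≤ 1 / (b : ℝ) ^ 20) :
    ∃ (C : ℝ) (A : ℕ), 0 < C ∧ ∀ (L u M N r Z : ℕ), 1 ≤ u → 64 * D * u ≤ L → b ^ (8 * D * u) ≤ M →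
      M ≤ N → M * N ≤ b ^ L → b ^ L ≤ 4 * b ^ 2 * M * N → 0 < r → r < b ^ u →
      ∀ (α : ℕ → ℝ) (ω : ℕ → ℕ → ℂ), (∀ c v, ‖ω c v‖ ≤ 1) → (∀ c v, b ^ u ≤ c → ω c v = 0) →
      ∑ n ∈ Ico N (2 * N), ‖∑ m ∈ (Ico M (2 * M)).filter (fun m => m * (n + r) ≤ Z),
        gf b u (Nat.log b M + 2 * u + 3) α (ω ((Z - m * (n + r)) / b ^ (L - u))) (Z - m * n) *
          conj (gf b u (Nat.log b M + 2 * u + 3) α (ω ((Z - m * (n + r)) / b ^ (L - u)))
            (Z - m * (n + r)))‖ ≤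
        C * (L : ℝ) ^ A * (M * N) * TH b D u α ^ (1 / 2 : ℝ) := by
  have hb2 : (2 : ℝ) ≤ b := by exact_mod_cast hb
  have hb1 : (1 : ℝ) ≤ b := by linarith
  have hb0 : (0 : ℝ) < b := by linarith
  refine ⟨140 * (b : ℝ) ^ 3 * 2 ^ b + 272, b + 1, by positivity, ?_⟩
  intro L u M N r Z hu hL hM hMN hMNL hLMN hr0 hr α ω hω1 hω0
  have hD40 : 40 ≤ D := by omega
  have hDu : 40 * u ≤ D * u := Nat.mul_le_mul_right u hD40
  have hDbu : 20 * (b * u) ≤ D * u := by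
    have := Nat.mul_le_mul_right u hD
    rw [mul_assoc] at this
    exact this
  have hbu : 2 * u ≤ b * u := Nat.mul_le_mul_right u hb
  have hL' : 64 * (D * u) ≤ L := by rw [← mul_assoc]; exact hL
  have hM' : b ^ (8 * (D * u)) ≤ M := by rw [← mul_assoc]; exact hM
  obtain ⟨P, hP⟩ : ∃ P, P = D * u := ⟨_, rfl⟩
  rw [← hP] at hDu hDbu hL' hM'
  have hM1 : 1 ≤ M := le_trans (Nat.one_le_pow _ _ (by omega)) hM'
  have hN1 : 1 ≤ N := hM1.trans hMN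
  have hMr : (1 : ℝ) ≤ M := by exact_mod_cast hM1
  have hNr : (1 : ℝ) ≤ N := by exact_mod_cast hN1
  have hMNr : (M : ℝ) ≤ N := by exact_mod_cast hMN
  have hlogM : 8 * P ≤ Nat.log b M := by
    exact Nat.le_log_of_pow_le (by omega) hM'
  have hlogML : Nat.log b M ≤ L := by
    have h1 : b ^ Nat.log b M ≤ M := Nat.pow_log_le_self b (by omega)
    have h2 : M ≤ b ^ L := by
      calc M ≤ M * N := Nat.le_mul_of_pos_right M hN1
        _ ≤ b ^ L := hMNL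
    exact (Nat.pow_le_pow_iff_right (by omega)).mp (h1.trans h2)
  obtain ⟨lam, hlam⟩ : ∃ lam, lam = Nat.log b M + 2 * u + 3 := ⟨_, rfl⟩
  rw [← hlam]
  have hlamL : lam + 1 ≤ 2 * L := by omega
  -- `b^lam ≤ M b^(2u+3)`
  have hBle : (b : ℝ) ^ lam ≤ M * (b : ℝ) ^ (2 * u + 3) := by
    have h1 : b ^ Nat.log b M ≤ M := Nat.pow_log_le_self b (by omega)
    have h2 : (b : ℝ) ^ Nat.log b M ≤ M := by exact_mod_cast h1
    have e : (b : ℝ) ^ lam = (b : ℝ) ^ Nat.log b M * (b : ℝ) ^ (2 * u + 3) := by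
      rw [hlam, ← pow_add]
      congr 1
    rw [e]
    exact mul_le_mul_of_nonneg_right h2 (by positivity)
  -- `X`
  obtain ⟨X, hX⟩ : ∃ X : ℝ, X = (b : ℝ) ^ (L - u) / N + 1 := ⟨_, rfl⟩
  have hX0 : 0 < X := by rw [hX]; positivity
  have hEX : (b : ℝ) ^ lam / ((1 / (b : ℝ) ^ u) * X) ≤ ((b ^ (4 * u + 3) : ℕ) : ℝ) := by
    rw [div_le_iff₀ (by positivity)]
    push_cast
    have h1 : (b : ℝ) ^ (L - u) / N ≤ X := by rw [hX]; linarith
    have h2 : (b : ℝ) ^ (4 * u + 3) * (1 / (b : ℝ) ^ u * ((b : ℝ) ^ (L - u) / N)) ≤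
        (b : ℝ) ^ (4 * u + 3) * (1 / (b : ℝ) ^ u * X) := by gcongr
    refine le_trans ?_ h2
    have h3 : (M : ℝ) * N ≤ (b : ℝ) ^ L := by exact_mod_cast hMNL
    have e1 : (b : ℝ) ^ L = (b : ℝ) ^ (L - u) * (b : ℝ) ^ u := by
      rw [← pow_add]
      congr 1
      omega
    have e2 : (b : ℝ) ^ (4 * u + 3) * (1 / (b : ℝ) ^ u * ((b : ℝ) ^ (L - u) / N)) =
        ((b : ℝ) ^ L / N) * (b : ℝ) ^ (2 * u + 3) := by
      rw [e1]
      have e3 : (b : ℝ) ^ (4 * u + 3) = (b : ℝ) ^ (2 * u + 3) * ((b : ℝ) ^ u * (b : ℝ) ^ u) := by ring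
      rw [e3]
      field_simp
    rw [e2]
    refine hBle.trans ?_
    apply mul_le_mul_of_nonneg_right _ (by positivity)
    rw [le_div_iff₀ (by linarith)]
    exact h3
  have hsum := sum_U_rf b u L lam M N r Z hb hN1 (by omega) α ω hω0
  refine hsum.trans ?_
  rw [← hX]
  obtain ⟨TT1, hTT1⟩ : ∃ TT1 : ℝ, TT1 = TH b D u α ^ (1 / 2 : ℝ) := ⟨_, rfl⟩
  rw [← hTT1]
  have hTHpos := TH_pos b D u hb α
  have hTT0 : 0 ≤ TT1 := by rw [hTT1]; exact Real.rpow_nonneg hTHpos.le _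
  have hTHle : TH b D u α ≤ 2 * TT1 := by
    rw [hTT1]
    exact t26_half _ hTHpos.le (TH_le_two b D u hb α)
  have hWWnn := WW_nonneg b hb α (2 * D * u) (4 * D * u)
  have hhalf : (1 / 2 : ℝ) ^ u ≤ 2 * TT1 := by
    refine le_trans ?_ hTHle
    unfold TH
    linarith
  have hsqrt : Real.sqrt (WW b α (2 * P) (2 * P + 2 * P)) ≤ TT1 := by
    rw [hTT1, ← Real.sqrt_eq_rpow]
    apply Real.sqrt_le_sqrt
    unfold TH
    have e1 : 2 * D * u = 2 * P := by rw [hP]; ring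
    have e2 : 4 * D * u = 2 * P + 2 * P := by rw [hP]; ring
    rw [e1, e2]
    have : (0 : ℝ) ≤ (1 / 2) ^ u := by positivity
    linarith
  -- powers of `kap`
  have hk0 : 0 ≤ kap b := by have := kap_pos b hb; linarith
  have hk1 : kap b ≤ 1 := (kap_lt_one b hb).le
  have hbuinv : (1 : ℝ) / (b : ℝ) ^ u ≤ (1 / 2) ^ u := by
    rw [← one_div_pow]
    apply pow_le_pow_left₀ (by positivity)
    exact one_div_le_one_div_of_le (by norm_num) hb2
  have hkapD : kap b ^ (P - u) ≤ (1 / 2 : ℝ) ^ u := by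
    have e : P - u = (D - 1) * u := by rw [hP, Nat.sub_mul, one_mul]
    rw [e, pow_mul]
    apply pow_le_pow_left₀ (by positivity)
    refine hκ.trans ?_
    apply one_div_le_one_div_of_le (by norm_num)
    calc (2 : ℝ) ≤ b := hb2
      _ = (b : ℝ) ^ 1 := (pow_one _).symm
      _ ≤ (b : ℝ) ^ 20 := pow_le_pow_right₀ hb1 (by norm_num)
  have hkaplam : kap b ^ (lam - u) * (b : ℝ) ^ (5 * u + 7) ≤ (1 / 2 : ℝ) ^ u := by
    have h1 : kap b ^ (lam - u) ≤ kap b ^ ((D - 1) * (8 * u)) := by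
      apply pow_le_pow_of_le_one hk0 hk1
      have e : (D - 1) * (8 * u) ≤ 8 * P := by
        rw [hP]
        calc (D - 1) * (8 * u) ≤ D * (8 * u) := Nat.mul_le_mul_right _ (Nat.sub_le D 1)
          _ = 8 * (D * u) := by ring
      omega
    have h2 : kap b ^ ((D - 1) * (8 * u)) ≤ (1 / (b : ℝ) ^ 20) ^ (8 * u) := by
      rw [pow_mul]
      exact pow_le_pow_left₀ (by positivity) hκ _
    have h3 : (1 / (b : ℝ) ^ 20) ^ (8 * u) = 1 / (b : ℝ) ^ (160 * u) := by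
      rw [one_div_pow, ← pow_mul]
      congr 2
      ring
    rw [h3] at h2
    have h4 : (b : ℝ) ^ (5 * u + 7) ≤ (b : ℝ) ^ (159 * u) := pow_le_pow_right₀ hb1 (by omega)
    calc kap b ^ (lam - u) * (b : ℝ) ^ (5 * u + 7) ≤ (1 / (b : ℝ) ^ (160 * u)) * (b : ℝ) ^ (159 * u) := by
          apply mul_le_mul (h1.trans h2) h4 (by positivity) (by positivity)
      _ = 1 / (b : ℝ) ^ u := by
          have e : (b : ℝ) ^ (160 * u) = (b : ℝ) ^ (159 * u) * (b : ℝ) ^ u := by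
            rw [← pow_add]
            congr 1
            omega
          rw [e]
          field_simp
      _ ≤ _ := hbuinv
  -- each `c`
  have hE : 2 * b ^ (4 * u + 3) < 2 ^ (lam - 1 - 2 * P - 2 * P) := by
    have h1 : b ≤ 2 ^ b := Nat.lt_two_pow_self.le
    calc 2 * b ^ (4 * u + 3) ≤ 2 * (2 ^ b) ^ (4 * u + 3) := by
          apply Nat.mul_le_mul_left
          exact Nat.pow_le_pow_left h1 _
      _ = 2 ^ (b * (4 * u + 3) + 1) := by rw [← pow_mul, pow_succ]; ring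
      _ < 2 ^ (lam - 1 - 2 * P - 2 * P) := by
          apply Nat.pow_lt_pow_right (by omega)
          have h2 : b * (4 * u + 3) ≤ 7 * (b * u) := by
            have : b * 3 ≤ 3 * (b * u) := by
              have := Nat.le_mul_of_pos_right b hu
              omega
            calc b * (4 * u + 3) = 4 * (b * u) + b * 3 := by ring
              _ ≤ 7 * (b * u) := by omega
          omega
  have hrρ : r < 2 ^ (b * u) := by
    refine lt_of_lt_of_le hr ?_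
    rw [pow_mul]
    exact Nat.pow_le_pow_left Nat.lt_two_pow_self.le u
  have hc : ∀ c ∈ range (b ^ u), ∑ h ∈ range (b ^ lam), ∑ h' ∈ range (b ^ lam),
      ‖FF b u lam α (ω c) (h / (b : ℝ) ^ lam)‖ * ‖FF b u lam α (ω c) (h' / (b : ℝ) ^ lam)‖ *
        ∑ n ∈ Ico N (2 * N), 2 * mm X (((((h : ℤ) - h' : ℤ) : ℝ) * n + h * r) / (b : ℝ) ^ lam) ≤
      4 * N * X * (b ^ lam).divisors.card *
          (2 * kap b ^ (P - u) + 1 / (b : ℝ) ^ u + Real.sqrt (WW b α (2 * P) (2 * P + 2 * P))) +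
        (4 * X + 8 * (N + (b : ℝ) ^ lam) * (1 + Real.log ((b : ℝ) ^ lam))) *
          (2 * (b : ℝ) ^ lam * kap b ^ (lam - u)) := by
    intro c _
    exact pair_sum b u lam P (b * u) (2 * P) P N r (b ^ (4 * u + 3)) hb α (ω c) (hω1 c)
      (by omega) (by omega) (by omega) (by omega) hE hr0 hrρ X (1 / (b : ℝ) ^ u) hX0 (by positivity) hEX
  refine (Finset.sum_le_sum hc).trans ?_
  rw [Finset.sum_const, Finset.card_range, nsmul_eq_mul]
  push_cast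
  -- sizes
  have hτ : ((b ^ lam).divisors.card : ℝ) ≤ (b : ℝ) * 2 ^ b * (L : ℝ) ^ b := by
    refine (t26_card b lam L hb hlamL).trans (le_of_eq ?_)
    ring
  have hbuX : (b : ℝ) ^ u * X ≤ 5 * b ^ 2 * M := by
    have e1 : (b : ℝ) ^ L = (b : ℝ) ^ (L - u) * (b : ℝ) ^ u := by
      rw [← pow_add]
      congr 1
      omega
    have e2 : (b : ℝ) ^ u * X = (b : ℝ) ^ L / N + (b : ℝ) ^ u := by
      rw [hX, e1]
      ring
    rw [e2]
    have h1 : (b : ℝ) ^ L / N ≤ 4 * b ^ 2 * M := by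
      rw [div_le_iff₀ (by linarith)]
      exact_mod_cast hLMN
    have h2 : (b : ℝ) ^ u ≤ M := by
      have h3 : b ^ u ≤ b ^ (8 * P) := Nat.pow_le_pow_right (by omega) (by omega)
      exact_mod_cast h3.trans hM'
    have h4 : (1 : ℝ) ≤ (b : ℝ) ^ 2 := one_le_pow₀ hb1
    nlinarith
  have hL1 : (1 : ℝ) ≤ L := by exact_mod_cast (by omega : 1 ≤ L)
  have hLb : (L : ℝ) ^ b ≤ (L : ℝ) ^ (b + 1) := pow_le_pow_right₀ hL1 (by omega)
  have hLb1 : (L : ℝ) ≤ (L : ℝ) ^ (b + 1) := by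
    calc (L : ℝ) = (L : ℝ) ^ 1 := (pow_one _).symm
      _ ≤ (L : ℝ) ^ (b + 1) := pow_le_pow_right₀ hL1 (by omega)
  have hMN0 : 0 ≤ (M : ℝ) * N := by positivity
  -- first part
  have hbr : 2 * kap b ^ (P - u) + 1 / (b : ℝ) ^ u + Real.sqrt (WW b α (2 * P) (2 * P + 2 * P)) ≤ 7 * TT1 := by
    linarith
  have hfirst : (b : ℝ) ^ u * (4 * N * X * (b ^ lam).divisors.card *
          (2 * kap b ^ (P - u) + 1 / (b : ℝ) ^ u + Real.sqrt (WW b α (2 * P) (2 * P + 2 * P)))) ≤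
      140 * (b : ℝ) ^ 3 * 2 ^ b * (L : ℝ) ^ (b + 1) * (M * N) * TT1 := by
    have hbr0 : 0 ≤ 2 * kap b ^ (P - u) + 1 / (b : ℝ) ^ u + Real.sqrt (WW b α (2 * P) (2 * P + 2 * P)) := by
      positivity
    calc (b : ℝ) ^ u * (4 * N * X * (b ^ lam).divisors.card *
          (2 * kap b ^ (P - u) + 1 / (b : ℝ) ^ u + Real.sqrt (WW b α (2 * P) (2 * P + 2 * P)))) =
        (4 * N) * ((b : ℝ) ^ u * X) * ((b ^ lam).divisors.card : ℝ) *
          (2 * kap b ^ (P - u) + 1 / (b : ℝ) ^ u + Real.sqrt (WW b α (2 * P) (2 * P + 2 * P))) := by ring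
      _ ≤ (4 * N) * (5 * b ^ 2 * M) * ((b : ℝ) * 2 ^ b * (L : ℝ) ^ b) * (7 * TT1) := by
          gcongr
      _ ≤ (4 * N) * (5 * b ^ 2 * M) * ((b : ℝ) * 2 ^ b * (L : ℝ) ^ (b + 1)) * (7 * TT1) := by
          gcongr
      _ = _ := by ring
  -- second part
  have hlog : 1 + Real.log ((b : ℝ) ^ lam) ≤ 3 * b * L := by
    rw [Real.log_pow]
    have h1 : Real.log b ≤ b := (Real.log_le_sub_one_of_pos hb0).trans (by linarith)
    have h2 : (lam : ℝ) ≤ 2 * L := by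
      have : lam ≤ 2 * L := by omega
      exact_mod_cast this
    have h3 : 0 ≤ Real.log b := Real.log_nonneg hb1
    have h4 : (lam : ℝ) * Real.log b ≤ (2 * L) * b := mul_le_mul h2 h1 h3 (by positivity)
    have h5 : (1 : ℝ) ≤ b * L := by nlinarith
    nlinarith
  have hlog0 : 0 ≤ 1 + Real.log ((b : ℝ) ^ lam) := by
    have : 0 ≤ Real.log ((b : ℝ) ^ lam) := Real.log_nonneg (one_le_pow₀ hb1)
    linarith
  have hNB : N + (b : ℝ) ^ lam ≤ 2 * N * (b : ℝ) ^ (2 * u + 3) := by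
    have h1 : (1 : ℝ) ≤ (b : ℝ) ^ (2 * u + 3) := one_le_pow₀ hb1
    have h2 : (M : ℝ) * (b : ℝ) ^ (2 * u + 3) ≤ N * (b : ℝ) ^ (2 * u + 3) :=
      mul_le_mul_of_nonneg_right hMNr (by positivity)
    nlinarith
  have hbig : (b : ℝ) ^ u * (4 * X + 8 * (N + (b : ℝ) ^ lam) * (1 + Real.log ((b : ℝ) ^ lam))) ≤
      68 * L * N * (b : ℝ) ^ (3 * u + 4) := by
    have h1 : 8 * (N + (b : ℝ) ^ lam) * (1 + Real.log ((b : ℝ) ^ lam)) ≤
        8 * (2 * N * (b : ℝ) ^ (2 * u + 3)) * (3 * b * L) := by gcongr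
    have h2 : (b : ℝ) ^ u * (8 * (N + (b : ℝ) ^ lam) * (1 + Real.log ((b : ℝ) ^ lam))) ≤
        48 * L * N * (b : ℝ) ^ (3 * u + 4) := by
      calc (b : ℝ) ^ u * (8 * (N + (b : ℝ) ^ lam) * (1 + Real.log ((b : ℝ) ^ lam))) ≤
          (b : ℝ) ^ u * (8 * (2 * N * (b : ℝ) ^ (2 * u + 3)) * (3 * b * L)) :=
            mul_le_mul_of_nonneg_left h1 (by positivity)
        _ = 48 * L * N * (b : ℝ) ^ (3 * u + 4) := by ring
    have h3 : (b : ℝ) ^ u * (4 * X) ≤ 20 * L * N * (b : ℝ) ^ (3 * u + 4) := by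
      have h4 : (b : ℝ) ^ u * (4 * X) ≤ 20 * (b ^ 2 * M) := by linarith
      have h5 : (b : ℝ) ^ 2 ≤ (b : ℝ) ^ (3 * u + 4) := pow_le_pow_right₀ hb1 (by omega)
      have h6 : (b : ℝ) ^ 2 * M ≤ (b : ℝ) ^ (3 * u + 4) * N := mul_le_mul h5 hMNr (by linarith) (by positivity)
      have h7 : (b : ℝ) ^ (3 * u + 4) * N ≤ L * ((b : ℝ) ^ (3 * u + 4) * N) := by
        have : 0 ≤ (b : ℝ) ^ (3 * u + 4) * N := by positivity
        nlinarith
      linarith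
    linarith
  have hsecond : (b : ℝ) ^ u * ((4 * X + 8 * (N + (b : ℝ) ^ lam) * (1 + Real.log ((b : ℝ) ^ lam))) *
          (2 * (b : ℝ) ^ lam * kap b ^ (lam - u))) ≤ 272 * (L : ℝ) ^ (b + 1) * (M * N) * TT1 := by
    have hk2 : 0 ≤ kap b ^ (lam - u) := by positivity
    calc (b : ℝ) ^ u * ((4 * X + 8 * (N + (b : ℝ) ^ lam) * (1 + Real.log ((b : ℝ) ^ lam))) *
          (2 * (b : ℝ) ^ lam * kap b ^ (lam - u))) =
        ((b : ℝ) ^ u * (4 * X + 8 * (N + (b : ℝ) ^ lam) * (1 + Real.log ((b : ℝ) ^ lam)))) *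
          (2 * (b : ℝ) ^ lam * kap b ^ (lam - u)) := by ring
      _ ≤ (68 * L * N * (b : ℝ) ^ (3 * u + 4)) * (2 * (M * (b : ℝ) ^ (2 * u + 3)) * kap b ^ (lam - u)) := by
          gcongr
      _ = 136 * L * (M * N) * (kap b ^ (lam - u) * (b : ℝ) ^ (5 * u + 7)) := by ring
      _ ≤ 136 * L * (M * N) * (2 * TT1) :=
          mul_le_mul_of_nonneg_left (hkaplam.trans hhalf) (by positivity)
      _ ≤ 136 * (L : ℝ) ^ (b + 1) * (M * N) * (2 * TT1) := by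
          gcongr
      _ = _ := by ring
  calc (b : ℝ) ^ u * (4 * N * X * (b ^ lam).divisors.card *
          (2 * kap b ^ (P - u) + 1 / (b : ℝ) ^ u + Real.sqrt (WW b α (2 * P) (2 * P + 2 * P))) +
        (4 * X + 8 * (N + (b : ℝ) ^ lam) * (1 + Real.log ((b : ℝ) ^ lam))) *
          (2 * (b : ℝ) ^ lam * kap b ^ (lam - u))) =
      (b : ℝ) ^ u * (4 * N * X * (b ^ lam).divisors.card *
          (2 * kap b ^ (P - u) + 1 / (b : ℝ) ^ u + Real.sqrt (WW b α (2 * P) (2 * P + 2 * P)))) +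
      (b : ℝ) ^ u * ((4 * X + 8 * (N + (b : ℝ) ^ lam) * (1 + Real.log ((b : ℝ) ^ lam))) *
          (2 * (b : ℝ) ^ lam * kap b ^ (lam - u))) := by ring
    _ ≤ 140 * (b : ℝ) ^ 3 * 2 ^ b * (L : ℝ) ^ (b + 1) * (M * N) * TT1 +
        272 * (L : ℝ) ^ (b + 1) * (M * N) * TT1 := add_le_add hfirst hsecond
    _ = _ := by ring


end Pool.Agent.LibRN31
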