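import Pool.Agent.LibHG31.V3
import Pool.Agent.LibHG31.T28
import Pool.Agent.LibRN31.R27

/-! # LibRN31 R28: the prime sum of the reflected digital function (adapted from LibHG31 T28) -/

namespace Pool.Agent.LibRN31

open Finset Pool.Agent.LibHG31 Pool.Agent.LibHG31.TT
open scoped ArithmeticFunction.vonMangoldt

theorem tt_rf (b D : ℕ) (hb : 2 ≤ b) (hD : 20 * b ≤ D) (hκ : kap b ^ (D - 1) ≤ 1 / (b : ℝ) ^ 20) :
    ∃ (C : ℝ) (A : ℕ), 0 < C ∧ ∀ (L u Z : ℕ), 3 ≤ u → 64 * D * u ≤ L → b ^ (L - 1) ≤ Z → Z < b ^ L →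
      ∀ (α : ℕ → ℝ) (ω : ℕ → ℕ → ℂ), (∀ c v, ‖ω c v‖ ≤ 1) → (∀ c v, b ^ u ≤ c → ω c v = 0) →
      (∀ c v, b ^ (u - 3) ≤ c → ω c v = 0) →
      ‖∑ n ∈ range (b ^ L), ((Λ n : ℝ) : ℂ) * rf b u L α ω Z n‖ ≤
        C * (L : ℝ) ^ A * (b : ℝ) ^ L * TH b D u α ^ (1 / 8 : ℝ) := by
  obtain ⟨Cv, hCv, hVG⟩ := VG
  obtain ⟨C1, A1, hC1, h1⟩ := typeI_rf b D hb (by omega)
  obtain ⟨C2, A2, hC2, h2⟩ := typeII_rf b D hb hD hκ
  refine ⟨Cv * (b : ℝ) ^ 8 * (2 + 2 * C1 + (C2 + 1)), 8 + A1 + A2, by positivity, ?_⟩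
  intro L u Z hu3 hL hZ1 hZ2 α ω hω hω1 hω2
  have hu : 1 ≤ u := by omega
  obtain ⟨Bf, hB0, hB1, hB2⟩ := h1 L u hu hL α ω hω Z hZ2
  have hDu : u ≤ D * u := Nat.le_mul_of_pos_left u (by omega)
  have hL' : 64 * (D * u) ≤ L := by
    rw [← mul_assoc]
    exact hL
  have h8 : 8 * D * u = 8 * (D * u) := mul_assoc _ _ _
  have hb1 : (1 : ℝ) < b := by exact_mod_cast (show 1 < b by omega)
  have hb2 : (2 : ℝ) ≤ b := by exact_mod_cast hb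
  have hL1 : (1 : ℝ) ≤ L := by exact_mod_cast (show 1 ≤ L by omega)
  set T := TH b D u α with hT
  have hT0 : 0 < T := TH_pos b D u hb α
  have hT2 : T ≤ 2 := TH_le_two b D u hb α
  set y : ℝ := C2 * (L : ℝ) ^ A2 * T ^ (1 / 2 : ℝ) with hy
  have hy0 : 0 < y := by positivity
  have hbL : ((b ^ L : ℕ) : ℝ) = (b : ℝ) ^ L := by push_cast; rfl
  have hmain := hVG (b ^ L) (b ^ (8 * D * u)) (rf b u L α ω Z) Bf (min 1 y)
    (by
      calc 2 ≤ b := hb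
        _ = b ^ 1 := (pow_one b).symm
        _ ≤ b ^ (8 * D * u) := Nat.pow_le_pow_right (by omega) (by omega))
    (by
      rw [← pow_mul]
      exact Nat.pow_le_pow_right (by omega) (by omega))
    (norm_rf_le b u L α ω hω Z)
    (fun n hn => by unfold rf; rw [if_neg (by omega)]) hB0 hB1 (lt_min one_pos hy0) (min_le_left _ _)
    (by
      intro M N hM hMN hX β hβ
      have h3 := T28_triv (b ^ L) M N (rf b u L α ω Z) (norm_rf_le b u L α ω hω Z) hX β hβ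
      have h4 := h2 L u Z hu3 hL hZ1 α ω hω hω1 hω2 M N hM hMN hX β hβ
      rcases min_choice 1 y with h5 | h5
      · rw [h5, one_mul]
        exact h3
      · rw [h5, hbL]
        exact h4)
  have hlog0 : 0 ≤ Real.log ((b ^ L : ℕ) : ℝ) := by
    rw [hbL]
    exact Real.log_nonneg (one_le_pow₀ hb1.le)
  have hlog : Real.log ((b ^ L : ℕ) : ℝ) ≤ b * L := by
    rw [hbL, Real.log_pow]
    have : Real.log b ≤ b := Real.log_le_self (by linarith)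
    nlinarith
  have hlog8 : Real.log ((b ^ L : ℕ) : ℝ) ^ 8 ≤ (b : ℝ) ^ 8 * (L : ℝ) ^ 8 := by
    rw [← mul_pow]
    exact pow_le_pow_left₀ hlog0 hlog 8
  set W : ℝ := (b : ℝ) ^ L * T ^ (1 / 8 : ℝ) with hW
  have hW0 : 0 < W := by positivity
  -- the first term
  have hU : ((b ^ (8 * D * u) : ℕ) : ℝ) ≤ 2 * W := by
    have h3 : ((b ^ (8 * D * u) : ℕ) : ℝ) * (b : ℝ) ^ u ≤ (b : ℝ) ^ L := by
      push_cast
      rw [← pow_add]
      exact pow_le_pow_right₀ hb1.le (by omega)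
    have h4 : (1 / 2 : ℝ) ^ u ≤ T := by
      rw [hT]
      unfold TH
      linarith [WW_nonneg b hb α (2 * D * u) (4 * D * u)]
    have h5 : (1 : ℝ) ≤ (b : ℝ) ^ u * (1 / 2) ^ u := by
      rw [← mul_pow]
      exact one_le_pow₀ (by linarith)
    have h6 : T ≤ 2 * T ^ (1 / 8 : ℝ) := by
      have := T28_rpow hT0 hT2 (e := 1) (by norm_num) le_rfl
      rwa [Real.rpow_one] at this
    calc ((b ^ (8 * D * u) : ℕ) : ℝ)
        ≤ ((b ^ (8 * D * u) : ℕ) : ℝ) * ((b : ℝ) ^ u * (1 / 2) ^ u) :=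
          le_mul_of_one_le_right (Nat.cast_nonneg _) h5
      _ = (((b ^ (8 * D * u) : ℕ) : ℝ) * (b : ℝ) ^ u) * (1 / 2) ^ u := by ring
      _ ≤ (b : ℝ) ^ L * (1 / 2) ^ u := mul_le_mul_of_nonneg_right h3 (by positivity)
      _ ≤ (b : ℝ) ^ L * T := mul_le_mul_of_nonneg_left h4 (by positivity)
      _ ≤ (b : ℝ) ^ L * (2 * T ^ (1 / 8 : ℝ)) := mul_le_mul_of_nonneg_left h6 (by positivity)
      _ = 2 * W := by rw [hW]; ring
  have hp1 : (L : ℝ) ^ A1 ≤ (L : ℝ) ^ (A1 + A2) := pow_le_pow_right₀ hL1 (by omega)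
  have hp2 : (L : ℝ) ^ A2 ≤ (L : ℝ) ^ (A1 + A2) := pow_le_pow_right₀ hL1 (by omega)
  have hp0 : (1 : ℝ) ≤ (L : ℝ) ^ (A1 + A2) := one_le_pow₀ hL1
  -- the second term
  have hB : ∑ m ∈ Icc 1 ((b ^ (8 * D * u)) ^ 2), Bf m ≤ 2 * C1 * (L : ℝ) ^ (A1 + A2) * W := by
    refine hB2.trans ?_
    have h3 : T ^ (1 / 4 : ℝ) ≤ 2 * T ^ (1 / 8 : ℝ) :=
      T28_rpow hT0 hT2 (by norm_num) (by norm_num)
    calc C1 * (L : ℝ) ^ A1 * (b : ℝ) ^ L * T ^ (1 / 4 : ℝ)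
        ≤ C1 * (L : ℝ) ^ (A1 + A2) * (b : ℝ) ^ L * (2 * T ^ (1 / 8 : ℝ)) := by
          refine mul_le_mul ?_ h3 (by positivity) (by positivity)
          exact mul_le_mul_of_nonneg_right (mul_le_mul_of_nonneg_left hp1 hC1.le) (by positivity)
      _ = 2 * C1 * (L : ℝ) ^ (A1 + A2) * W := by rw [hW]; ring
  -- the third term
  have hE : ((b ^ L : ℕ) : ℝ) * (min 1 y) ^ (1 / 4 : ℝ) ≤ (C2 + 1) * (L : ℝ) ^ (A1 + A2) * W := by
    have h3 : (min 1 y) ^ (1 / 4 : ℝ) ≤ y ^ (1 / 4 : ℝ) :=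
      Real.rpow_le_rpow (lt_min one_pos hy0).le (min_le_right _ _) (by norm_num)
    have h4 : y ^ (1 / 4 : ℝ) = (C2 * (L : ℝ) ^ A2) ^ (1 / 4 : ℝ) * T ^ (1 / 8 : ℝ) := by
      rw [hy, Real.mul_rpow (by positivity) (by positivity), ← Real.rpow_mul hT0.le]
      congr 2
      norm_num
    have h5 : (C2 * (L : ℝ) ^ A2) ^ (1 / 4 : ℝ) ≤ (C2 + 1) * (L : ℝ) ^ (A1 + A2) := by
      refine T28_root (by positivity) ?_ ?_
      · exact mul_le_mul (by linarith) hp2 (by positivity) (by linarith)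
      · nlinarith
    rw [hbL]
    calc (b : ℝ) ^ L * (min 1 y) ^ (1 / 4 : ℝ)
        ≤ (b : ℝ) ^ L * (((C2 + 1) * (L : ℝ) ^ (A1 + A2)) * T ^ (1 / 8 : ℝ)) := by
          refine mul_le_mul_of_nonneg_left (h3.trans ?_) (by positivity)
          rw [h4]
          exact mul_le_mul_of_nonneg_right h5 (by positivity)
      _ = (C2 + 1) * (L : ℝ) ^ (A1 + A2) * W := by rw [hW]; ring
  have hsum : ((b ^ (8 * D * u) : ℕ) : ℝ) + ∑ m ∈ Icc 1 ((b ^ (8 * D * u)) ^ 2), Bf m +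
      ((b ^ L : ℕ) : ℝ) * (min 1 y) ^ (1 / 4 : ℝ) ≤
      (2 + 2 * C1 + (C2 + 1)) * (L : ℝ) ^ (A1 + A2) * W := by
    have h3 : 2 * W ≤ 2 * (L : ℝ) ^ (A1 + A2) * W := by nlinarith
    calc _ ≤ 2 * (L : ℝ) ^ (A1 + A2) * W + 2 * C1 * (L : ℝ) ^ (A1 + A2) * W +
          (C2 + 1) * (L : ℝ) ^ (A1 + A2) * W := add_le_add (add_le_add (hU.trans h3) hB) hE
      _ = _ := by ring
  refine hmain.trans ?_
  calc Cv * Real.log ((b ^ L : ℕ) : ℝ) ^ 8 * (((b ^ (8 * D * u) : ℕ) : ℝ) +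
        ∑ m ∈ Icc 1 ((b ^ (8 * D * u)) ^ 2), Bf m + ((b ^ L : ℕ) : ℝ) * (min 1 y) ^ (1 / 4 : ℝ))
      ≤ Cv * ((b : ℝ) ^ 8 * (L : ℝ) ^ 8) *
        ((2 + 2 * C1 + (C2 + 1)) * (L : ℝ) ^ (A1 + A2) * W) := by
        refine mul_le_mul (mul_le_mul_of_nonneg_left hlog8 hCv.le) hsum ?_ (by positivity)
        have : 0 ≤ ∑ m ∈ Icc 1 ((b ^ (8 * D * u)) ^ 2), Bf m := sum_nonneg fun m _ => hB0 m
        have : 0 ≤ (min 1 y) ^ (1 / 4 : ℝ) :=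
          Real.rpow_nonneg (lt_min one_pos hy0).le _
        positivity
    _ = Cv * (b : ℝ) ^ 8 * (2 + 2 * C1 + (C2 + 1)) * (L : ℝ) ^ (8 + A1 + A2) * (b : ℝ) ^ L *
        T ^ (1 / 8 : ℝ) := by
        rw [hW, add_assoc 8 A1 A2, pow_add (L : ℝ) 8]
        ring


end Pool.Agent.LibRN31
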