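import Pool.Agent.LibRN31.SE
import Pool.Agent.LibRN31.P3

/-!
# Row S2 (MEDIUM): level of distribution from the exponential sum bound and the average

PLAN. `c₁ = 1/(2 b^3)`. Take `R₁` from `AvgStmt` for `c₁`, `R := max R₁ (large multiple of Dt)`, e.g. `R = R₁ * 2048 * Dt`; the sum over `d ≤ b^(L/R)` is part of the sum over `d ≤ b^(L/R₁)`.
For `(d, b D0) = 1` the number `M₀ = b^(L-4-4 Dt u) D0 b` (`u = L/(64 Dt)`) is prime to `d`; `perm_sum` (P3) with `F x = VV b c₁ w x ^ (1/8)` (period 1 in `x`: `nd_add_nat` for each factor):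
`∑_{1≤a<d} VV (M₀ a/d)^(1/8) = ∑_{1≤a<d} VV (a/d)^(1/8)`. `w = 2 Dt u`, `L ≤ 40 w` for large `L`. Use `AvgStmt` with the exponent `A + 3`:
first part `≤ C L^A b^L / L^(A+3)`. Second part `≤ C L^A b^L b^(L/R) (1/2)^(u/8)` (`(1/d) (d-1) ≤ 1`), `b^(L/R) (1/2)^(u/8) ≤ 2^(-u/16)`-like: choose `R` so large that
`b^(L/R) ≤ 2^(b L/R) ≤ 2^(u/16)` for large `L` (`u ≥ L/(64 Dt) - 1`), and `L^(A+3) 2^(-u/16) → 0`.
-/

namespace Pool.Agent.LibRN31

open Finset Pool.Agent.LibHG31 Pool.Agent.LibHG31.TT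

private theorem S2_per (b : ℕ) (c : ℝ) (w : ℕ) (x : ℝ) (n : ℕ) : VV b c w (x + n) = VV b c w x := by
  unfold VV
  refine prod_congr rfl fun i _ => ?_
  have h1 : (b : ℝ) ^ i * (x + n) = (b : ℝ) ^ i * x + ((b ^ i * n : ℕ) : ℝ) := by
    push_cast
    ring
  rw [h1, nd_add_nat]

/-- `b^(L/R) (1/2)^(u/8) ≤ 2 r^L` -/
private theorem S2_exp (b : ℕ) (R₁ Dt L : ℕ) (hb : 2 ≤ b) (hR₁ : 0 < R₁) (hDt : 1 ≤ Dt) :
    (b : ℝ) ^ (L / (R₁ * (2048 * Dt * b))) * (1 / 2 : ℝ) ^ (((L / (64 * Dt) : ℕ) : ℝ) / 8) ≤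
      2 * ((1 / 2 : ℝ) ^ (1 / (2048 * (Dt : ℝ)))) ^ L := by
  have hD : (0 : ℝ) < Dt := by exact_mod_cast hDt
  have hb0 : (0 : ℝ) < b := by exact_mod_cast (by omega : 0 < b)
  have hb2 : (b : ℝ) ≤ 2 ^ b := by exact_mod_cast (Nat.lt_two_pow_self (n := b)).le
  set q : ℕ := L / (R₁ * (2048 * Dt * b)) with hq
  have h1 : (b : ℝ) ^ q ≤ (1 / 2 : ℝ) ^ (-((b * q : ℕ) : ℝ)) := by
    rw [Real.rpow_neg (by norm_num), Real.rpow_natCast, one_div, inv_pow, inv_inv, pow_mul]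
    exact pow_le_pow_left₀ hb0.le hb2 q
  have hqL : (b : ℝ) * q ≤ L / (2048 * Dt) := by
    have h2 : q * (R₁ * (2048 * Dt * b)) ≤ L := Nat.div_mul_le_self _ _
    have h3 : q * (2048 * Dt * b) ≤ L := by
      refine le_trans ?_ h2
      exact Nat.mul_le_mul_left q (Nat.le_mul_of_pos_left _ hR₁)
    rw [le_div_iff₀ (by positivity)]
    have h4 : ((q * (2048 * Dt * b) : ℕ) : ℝ) ≤ L := by exact_mod_cast h3
    push_cast at h4
    nlinarith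
  have hu : (L : ℝ) / (64 * Dt) - 1 ≤ ((L / (64 * Dt) : ℕ) : ℝ) := by
    have h2 : L < 64 * Dt * (L / (64 * Dt) + 1) := by
      have := Nat.lt_div_mul_add (a := L) (b := 64 * Dt) (by omega)
      nlinarith
    have h3 : (L : ℝ) < 64 * Dt * (((L / (64 * Dt) : ℕ) : ℝ) + 1) := by exact_mod_cast h2
    rw [sub_le_iff_le_add, div_le_iff₀ (by positivity)]
    linarith
  have h5 : ((1 / 2 : ℝ) ^ (1 / (2048 * (Dt : ℝ)))) ^ L =
      (1 / 2 : ℝ) ^ ((L : ℝ) / (2048 * (Dt : ℝ))) := by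
    rw [← Real.rpow_natCast, ← Real.rpow_mul (by norm_num)]
    congr 1
    ring
  have h6 : (2 : ℝ) = (1 / 2 : ℝ) ^ (-1 : ℝ) := by
    rw [Real.rpow_neg_one]
    norm_num
  rw [h5]
  calc (b : ℝ) ^ q * (1 / 2 : ℝ) ^ (((L / (64 * Dt) : ℕ) : ℝ) / 8)
      ≤ (1 / 2 : ℝ) ^ (-((b * q : ℕ) : ℝ)) * (1 / 2 : ℝ) ^ (((L / (64 * Dt) : ℕ) : ℝ) / 8) :=
        mul_le_mul_of_nonneg_right h1 (Real.rpow_nonneg (by norm_num) _)
    _ = (1 / 2 : ℝ) ^ (-((b * q : ℕ) : ℝ) + ((L / (64 * Dt) : ℕ) : ℝ) / 8) := by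
        rw [← Real.rpow_add (by norm_num)]
    _ ≤ (1 / 2 : ℝ) ^ ((-1 : ℝ) + (L : ℝ) / (2048 * (Dt : ℝ))) := by
        apply Real.rpow_le_rpow_of_exponent_ge (by norm_num) (by norm_num)
        push_cast
        have h7 : (L : ℝ) / (64 * Dt) = 32 * ((L : ℝ) / (2048 * Dt)) := by
          field_simp
          ring
        have h8 : (0 : ℝ) ≤ (L : ℝ) / (2048 * Dt) := by positivity
        rw [h7] at hu
        linarith
    _ = 2 * (1 / 2 : ℝ) ^ ((L : ℝ) / (2048 * (Dt : ℝ))) := by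
        rw [Real.rpow_add (by norm_num), ← h6]

theorem level (b : ℕ) (hb : 2 ≤ b) (havg : AvgStmt b) (hE : EEStmt b) : LevStmt b := by
  obtain ⟨Dt, A, C, hDt, hC, L₁, hE⟩ := hE
  have hb2 : (2 : ℝ) ≤ b := by exact_mod_cast hb
  have hb0 : (0 : ℝ) < b := by linarith
  have hb3 : (8 : ℝ) ≤ (b : ℝ) ^ 3 := by
    calc (8 : ℝ) = 2 ^ 3 := by norm_num
      _ ≤ (b : ℝ) ^ 3 := pow_le_pow_left₀ (by norm_num) hb2 3
  have hc : 0 < 1 / (2 * (b : ℝ) ^ 3) := by positivity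
  have hc1 : 1 / (2 * (b : ℝ) ^ 3) < 1 := by
    rw [div_lt_one (by positivity)]
    linarith
  obtain ⟨R₁, hR₁, havg⟩ := havg _ hc hc1
  obtain ⟨L₂, havg⟩ := havg (A + 3)
  have hD : (0 : ℝ) < Dt := by exact_mod_cast hDt
  set r : ℝ := (1 / 2 : ℝ) ^ (1 / (2048 * (Dt : ℝ))) with hr
  have hr0 : 0 < r := Real.rpow_pos_of_pos (by norm_num) _
  have hr1 : r < 1 := Real.rpow_lt_one (by norm_num) (by norm_num) (by positivity)
  have ht := tendsto_pow_const_mul_const_pow_of_abs_lt_one (A + 2) (r := r)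
    (by rw [abs_of_pos hr0]; exact hr1)
  have hev : ∀ᶠ L : ℕ in Filter.atTop, (L : ℝ) ^ (A + 2) * r ^ L < 1 / (8 * C) :=
    ht.eventually_lt_const (by positivity)
  obtain ⟨L₃, hL₃⟩ := Filter.eventually_atTop.mp hev
  refine ⟨R₁ * (2048 * Dt * b), by positivity,
    max (max L₁ L₂) (max L₃ (max (320 * Dt) (⌈2 * C⌉₊ + 1))), ?_⟩
  intro L N m₀ hL hN
  have hL1 : L₁ ≤ L := le_trans (le_trans (le_max_left _ _) (le_max_left _ _)) hL
  have hL2 : L₂ ≤ L := le_trans (le_trans (le_max_right _ _) (le_max_left _ _)) hL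
  have hL3 : L₃ ≤ L := le_trans (le_trans (le_max_left _ _) (le_max_right _ _)) hL
  have hL4 : 320 * Dt ≤ L := le_trans (le_trans (le_trans (le_max_left _ _) (le_max_right _ _))
    (le_max_right _ _)) hL
  have hL5 : ⌈2 * C⌉₊ + 1 ≤ L := le_trans (le_trans (le_trans (le_max_right _ _) (le_max_right _ _))
    (le_max_right _ _)) hL
  have hL0 : (0 : ℝ) < L := by exact_mod_cast (by omega : 0 < L)
  have hLC : 2 * C ≤ L := by
    have h1 : 2 * C ≤ (⌈2 * C⌉₊ : ℝ) := Nat.le_ceil _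
    have h2 : ((⌈2 * C⌉₊ + 1 : ℕ) : ℝ) ≤ L := by exact_mod_cast hL5
    push_cast at h2
    linarith
  set u : ℕ := L / (64 * Dt) with hu
  set K : ℝ := C * (L : ℝ) ^ A * (b : ℝ) ^ L with hK
  have hK0 : 0 ≤ K := by positivity
  set h : ℝ := (1 / 2 : ℝ) ^ ((u : ℝ) / 8) with hh
  have hh0 : 0 ≤ h := Real.rpow_nonneg (by norm_num) _
  set F : ℝ → ℝ := fun x => VV b (1 / (2 * (b : ℝ) ^ 3)) (2 * Dt * u) x ^ (1 / 8 : ℝ) with hF
  have hF0 : ∀ x, 0 ≤ F x := fun x => Real.rpow_nonneg (VV_nonneg b hc hc1 _ _) _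
  have hFp : ∀ (x : ℝ) (n : ℕ), F (x + n) = F x := by
    intro x n
    show VV b _ _ (x + n) ^ (1 / 8 : ℝ) = VV b _ _ x ^ (1 / 8 : ℝ)
    rw [S2_per]
  have hw : L ≤ 40 * (2 * Dt * u) := by
    have h1 := Nat.lt_div_mul_add (a := L) (b := 64 * Dt) (by omega)
    rw [← hu] at h1
    nlinarith
  have hA := havg L (2 * Dt * u) hL2 hw
  set S : Finset ℕ := (Icc 2 (b ^ (L / (R₁ * (2048 * Dt * b))))).filter
    (fun d => d.Coprime (b * D0 b)) with hS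
  have hper : ∀ d ∈ S, (1 / (d : ℝ)) * ∑ a ∈ Ico 1 d, ‖EE b L m₀ N d a‖ ≤
      K * ((1 / (d : ℝ)) * ∑ a ∈ Ico 1 d, F ((a : ℝ) / d)) + K * h := by
    intro d hd
    rw [hS, mem_filter, mem_Icc] at hd
    obtain ⟨⟨hd2, -⟩, hdc⟩ := hd
    have hd0 : 0 < d := by omega
    have hdR : (0 : ℝ) < d := by exact_mod_cast hd0
    have hM : (b ^ (L - 4 - 4 * Dt * u) * D0 b).Coprime d := by
      have h1 : d.Coprime b := Nat.Coprime.coprime_mul_right_right hdc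
      have h2 : d.Coprime (D0 b) := Nat.Coprime.coprime_mul_left_right hdc
      exact (Nat.Coprime.mul_right (Nat.Coprime.pow_right _ h1) h2).symm
    have h1 : ∑ a ∈ Ico 1 d, ‖EE b L m₀ N d a‖ ≤
        ∑ a ∈ Ico 1 d, (K * F (((b ^ (L - 4 - 4 * Dt * u) * D0 b : ℕ) : ℝ) * ((a : ℝ) / d)) +
          K * h) := by
      refine sum_le_sum fun a _ => ?_
      have h2 := hE L N m₀ d a hL1 hN hd0
      rw [← hu] at h2
      rw [← mul_add]
      exact h2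
    rw [sum_add_distrib, ← mul_sum, perm_sum d _ hd0 hM F hFp, sum_const, Nat.card_Ico,
      nsmul_eq_mul] at h1
    have h3 : (((d - 1 : ℕ) : ℝ)) ≤ d := by exact_mod_cast Nat.sub_le d 1
    have h4 : 0 ≤ K * h := by positivity
    calc (1 / (d : ℝ)) * ∑ a ∈ Ico 1 d, ‖EE b L m₀ N d a‖
        ≤ (1 / (d : ℝ)) * (K * ∑ a ∈ Ico 1 d, F ((a : ℝ) / d) + ((d - 1 : ℕ) : ℝ) * (K * h)) :=
          mul_le_mul_of_nonneg_left h1 (by positivity)
      _ ≤ (1 / (d : ℝ)) * (K * ∑ a ∈ Ico 1 d, F ((a : ℝ) / d) + (d : ℝ) * (K * h)) := by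
          apply mul_le_mul_of_nonneg_left _ (by positivity)
          have := mul_le_mul_of_nonneg_right h3 h4
          linarith
      _ = K * ((1 / (d : ℝ)) * ∑ a ∈ Ico 1 d, F ((a : ℝ) / d)) + K * h := by
          field_simp
  have hcard : (S.card : ℝ) ≤ (b : ℝ) ^ (L / (R₁ * (2048 * Dt * b))) := by
    have h1 : S.card ≤ b ^ (L / (R₁ * (2048 * Dt * b))) := by
      refine le_trans (card_filter_le _ _) ?_
      rw [Nat.card_Icc]
      omega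
    exact_mod_cast h1
  have hsub : ∑ d ∈ S, (1 / (d : ℝ)) * ∑ a ∈ Ico 1 d, F ((a : ℝ) / d) ≤ 1 / (L : ℝ) ^ (A + 3) := by
    refine le_trans (sum_le_sum_of_subset_of_nonneg ?_ ?_) hA
    · intro d hd
      rw [hS, mem_filter, mem_Icc] at hd
      rw [mem_filter, mem_Icc]
      refine ⟨⟨hd.1.1, le_trans hd.1.2 ?_⟩, Nat.Coprime.coprime_mul_right_right hd.2⟩
      apply Nat.pow_le_pow_right (by omega)
      apply Nat.div_le_div_left _ hR₁
      exact Nat.le_mul_of_pos_right _ (by positivity)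
    · intro d _ _
      exact mul_nonneg (by positivity) (sum_nonneg fun a _ => hF0 _)
  have hexp := S2_exp b R₁ Dt L hb hR₁ hDt
  rw [← hr, ← hu, ← hh] at hexp
  have h7 := hL₃ L hL3
  have hfin : (L : ℝ) ^ 2 * (C * (L : ℝ) ^ A * (1 / (L : ℝ) ^ (A + 3) + 2 * r ^ L)) ≤ 1 := by
    have e1 : (L : ℝ) ^ 2 * (C * (L : ℝ) ^ A * (1 / (L : ℝ) ^ (A + 3) + 2 * r ^ L)) =
        C / L + 2 * C * ((L : ℝ) ^ (A + 2) * r ^ L) := by
      field_simp
      ring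
    rw [e1]
    have e2 : C / L ≤ 1 / 2 := by
      rw [div_le_div_iff₀ hL0 (by norm_num)]
      linarith
    have e3 : 2 * C * ((L : ℝ) ^ (A + 2) * r ^ L) ≤ 2 * C * (1 / (8 * C)) :=
      mul_le_mul_of_nonneg_left h7.le (by positivity)
    have e4 : 2 * C * (1 / (8 * C)) = 1 / 4 := by
      field_simp
      norm_num
    linarith
  calc ∑ d ∈ S, (1 / (d : ℝ)) * ∑ a ∈ Ico 1 d, ‖EE b L m₀ N d a‖
      ≤ ∑ d ∈ S, (K * ((1 / (d : ℝ)) * ∑ a ∈ Ico 1 d, F ((a : ℝ) / d)) + K * h) :=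
        sum_le_sum hper
    _ = K * ∑ d ∈ S, ((1 / (d : ℝ)) * ∑ a ∈ Ico 1 d, F ((a : ℝ) / d)) + (S.card : ℝ) * (K * h) := by
        rw [sum_add_distrib, ← mul_sum, sum_const, nsmul_eq_mul]
    _ ≤ K * (1 / (L : ℝ) ^ (A + 3)) + (b : ℝ) ^ (L / (R₁ * (2048 * Dt * b))) * (K * h) :=
        add_le_add (mul_le_mul_of_nonneg_left hsub hK0)
          (mul_le_mul_of_nonneg_right hcard (by positivity))
    _ = K * (1 / (L : ℝ) ^ (A + 3) + (b : ℝ) ^ (L / (R₁ * (2048 * Dt * b))) * h) := by ring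
    _ ≤ K * (1 / (L : ℝ) ^ (A + 3) + 2 * r ^ L) := by
        apply mul_le_mul_of_nonneg_left _ hK0
        linarith
    _ ≤ (b : ℝ) ^ L / (L : ℝ) ^ 2 := by
        rw [le_div_iff₀ (by positivity)]
        have hbL : (0 : ℝ) ≤ (b : ℝ) ^ L := by positivity
        have := mul_le_mul_of_nonneg_right hfin hbL
        calc K * (1 / (L : ℝ) ^ (A + 3) + 2 * r ^ L) * (L : ℝ) ^ 2 =
            (L : ℝ) ^ 2 * (C * (L : ℝ) ^ A * (1 / (L : ℝ) ^ (A + 3) + 2 * r ^ L)) * (b : ℝ) ^ L := by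
              rw [hK]
              ring
          _ ≤ 1 * (b : ℝ) ^ L := this
          _ = (b : ℝ) ^ L := one_mul _

end Pool.Agent.LibRN31
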