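import Pool.Agent.LibRN31.SE
import Pool.Agent.LibRN31.R28
import Pool.Agent.LibHG31.T14

/-! # LibRN31 S2a: the bound of the exponential sum -/

namespace Pool.Agent.LibRN31

open Finset Pool.Agent.LibHG31 Pool.Agent.LibHG31.TT
open scoped ArithmeticFunction.vonMangoldt

/-- the phases -/
noncomputable def al (b K a d h : ℕ) (j : ℕ) : ℝ :=
  if j < K then (a : ℝ) / d * (b : ℝ) ^ (K - 1 - j) + (h : ℝ) / D0 b * (b : ℝ) ^ j else 0

open scoped Classical in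
/-- the prefix-suffix condition -/
noncomputable def om (b u m₀ : ℕ) (c v : ℕ) : ℂ :=
  if (b ^ (u - 4) ≤ c ∧ c < 2 * b ^ (u - 4)) ∧ v ≡ m₀ [MOD b] then 1 else 0

private theorem S2a_dg_zero (b K j M : ℕ) (hb : 2 ≤ b) (hj : K ≤ j) (hM : M < b ^ K) : dg b j M = 0 := by
  unfold dg
  rw [Nat.div_eq_of_lt (lt_of_lt_of_le hM (Nat.pow_le_pow_right (by omega) hj)), Nat.zero_mod]

private theorem S2a_dp (b L K a d h M : ℕ) (hb : 2 ≤ b) (hK : K ≤ L) (hM : M < b ^ K) :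
    dp b L (al b K a d h) M = (a : ℝ) * rv b K M / d + (h : ℝ) * M / D0 b := by
  unfold dp
  have h1 : ∑ j ∈ range L, al b K a d h j * dg b j M = ∑ j ∈ range K, al b K a d h j * dg b j M := by
    symm
    apply sum_subset (range_subset_range.2 hK)
    intro j _ hj
    rw [mem_range, not_lt] at hj
    rw [S2a_dg_zero b K j M hb hj hM]
    simp
  rw [h1]
  have h2 : (M : ℝ) = ∑ j ∈ range K, (dg b j M : ℝ) * (b : ℝ) ^ j := by
    have := sum_dg b K M (by omega) hM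
    exact_mod_cast this.symm
  have h3 : (rv b K M : ℝ) = ∑ j ∈ range K, (dg b j M : ℝ) * (b : ℝ) ^ (K - 1 - j) := by
    unfold rv
    push_cast
    rfl
  have h4 : (h : ℝ) * M / D0 b = ∑ j ∈ range K, (h : ℝ) / D0 b * ((dg b j M : ℝ) * (b : ℝ) ^ j) := by
    rw [← mul_sum, ← h2]
    ring
  have h5 : (a : ℝ) * rv b K M / d =
      ∑ j ∈ range K, (a : ℝ) / d * ((dg b j M : ℝ) * (b : ℝ) ^ (K - 1 - j)) := by
    rw [← mul_sum, ← h3]
    ring
  rw [h4, h5, ← sum_add_distrib]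
  refine sum_congr rfl fun j hj => ?_
  unfold al
  rw [if_pos (mem_range.1 hj)]
  ring

private theorem S2a_al (b K a d h j : ℕ) (hb : 2 ≤ b) (hj : j + 1 < K) :
    (b : ℝ) * al b K a d h j - al b K a d h (j + 1) =
      (b : ℝ) ^ (K - 2 - j) * ((D0 b : ℕ) : ℝ) * ((a : ℝ) / d) := by
  unfold al
  rw [if_pos (by omega), if_pos hj]
  have h1 : K - 1 - j = (K - 2 - j) + 1 := by omega
  have h2 : K - 1 - (j + 1) = K - 2 - j := by omega
  have h3 : ((D0 b : ℕ) : ℝ) = (b : ℝ) ^ 2 - 1 := by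
    unfold D0
    rw [Nat.cast_sub (Nat.one_le_pow _ _ (by omega))]
    push_cast
    rfl
  rw [h1, h2, h3, pow_succ, pow_succ]
  ring

private theorem S2a_WW (b L Dt u a d h : ℕ) (hb : 2 ≤ b) (hu : 8 ≤ u) (hD : 1 ≤ Dt) (hL : 64 * Dt * u ≤ L) :
    WW b (al b (L - 3) a d h) (2 * Dt * u) (4 * Dt * u) =
      VV b (1 / (2 * (b : ℝ) ^ 3)) (2 * Dt * u)
        (((b ^ (L - 4 - 4 * Dt * u) * D0 b : ℕ) : ℝ) * ((a : ℝ) / d)) := by
  have hDu : 8 ≤ Dt * u := le_trans hu (Nat.le_mul_of_pos_left u hD)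
  have e1 : 64 * Dt * u = 64 * (Dt * u) := mul_assoc _ _ _
  have e2 : 4 * Dt * u = 4 * (Dt * u) := mul_assoc _ _ _
  have e3 : 2 * Dt * u = 2 * (Dt * u) := mul_assoc _ _ _
  set s := Dt * u with hs
  rw [e2, e3]
  unfold WW GG VV
  have h1 : Ico (2 * s) (4 * s) = Ico (2 * s) (2 * s + 2 * s) := by congr 1; omega
  rw [h1, prod_Ico_eq_prod_range, Nat.add_sub_cancel_left, ← prod_range_reflect]
  refine prod_congr rfl fun i hi => ?_
  have hi' := mem_range.1 hi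
  rw [S2a_al b (L - 3) a d h _ hb (by omega)]
  congr 3
  have h2 : L - 3 - 2 - (2 * s + (2 * s - 1 - i)) = i + (L - 4 - 4 * s) := by omega
  rw [h2, pow_add]
  push_cast
  ring_nf

private theorem S2a_sum (b L u N m₀ a d h : ℕ) (hb : 2 ≤ b) (hu : 8 ≤ u) (huL : 8 * u ≤ L) (hN : NL b L N) :
    ∑ n ∈ range (b ^ L), ((Λ n : ℝ) : ℂ) * rf b u L (al b (L - 3) a d h) (om b u m₀) N n =
      ∑ M ∈ (Ico (b ^ (L - 4)) (2 * b ^ (L - 4))).filter (fun M => M ≡ m₀ [MOD b]),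
        ((Λ (N - M) : ℝ) : ℂ) * ee ((a : ℝ) * rv b (L - 3) M / d + (h : ℝ) * M / D0 b) := by
  classical
  obtain ⟨hN1, hN2⟩ := hN
  set f : ℕ → ℂ := fun M => ((Λ (N - M) : ℝ) : ℂ) * fd b u L (al b (L - 3) a d h) (om b u m₀) M with hf
  have hbu : 0 < b := by omega
  have hpow : b ^ (L - 4) = b ^ (u - 4) * b ^ (L - u) := by
    rw [← pow_add]
    congr 1
    omega
  have hpos : 0 < b ^ (L - u) := pow_pos hbu _
  -- the value of `f`
  have hval : ∀ M, f M = if (b ^ (L - 4) ≤ M ∧ M < 2 * b ^ (L - 4)) ∧ M ≡ m₀ [MOD b] then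
      ((Λ (N - M) : ℝ) : ℂ) * ee ((a : ℝ) * rv b (L - 3) M / d + (h : ℝ) * M / D0 b) else 0 := by
    intro M
    have hc : ((b ^ (u - 4) ≤ M / b ^ (L - u) ∧ M / b ^ (L - u) < 2 * b ^ (u - 4)) ∧
        M % b ^ u ≡ m₀ [MOD b]) ↔ ((b ^ (L - 4) ≤ M ∧ M < 2 * b ^ (L - 4)) ∧ M ≡ m₀ [MOD b]) := by
      rw [Nat.le_div_iff_mul_le hpos, Nat.div_lt_iff_lt_mul hpos, mul_assoc, ← hpow]
      have : M % b ^ u ≡ M [MOD b] :=
        (Nat.mod_modEq M (b ^ u)).of_dvd (dvd_pow_self b (by omega))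
      constructor
      · rintro ⟨h1, h2⟩
        exact ⟨h1, this.symm.trans h2⟩
      · rintro ⟨h1, h2⟩
        exact ⟨h1, this.trans h2⟩
    simp only [hf, fd, gf, om, hc]
    split_ifs with h1
    · have hM : M < b ^ (L - 3) := by
        have h2 : b ^ (L - 3) = b * b ^ (L - 4) := by
          rw [← pow_succ']
          congr 1
          omega
        rw [h2]
        have : 2 * b ^ (L - 4) ≤ b * b ^ (L - 4) := Nat.mul_le_mul_right _ hb
        omega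
      rw [S2a_dp b L (L - 3) a d h M hb (by omega) hM, one_mul]
    · simp
  have h1 : ∑ n ∈ range (b ^ L), ((Λ n : ℝ) : ℂ) * rf b u L (al b (L - 3) a d h) (om b u m₀) N n =
      ∑ n ∈ range (N + 1), f (N - n) := by
    symm
    have : range (N + 1) ⊆ range (b ^ L) := range_subset_range.2 (by omega)
    rw [← sum_subset this (f := fun n => ((Λ n : ℝ) : ℂ) * rf b u L (al b (L - 3) a d h) (om b u m₀) N n)]
    · refine sum_congr rfl fun n hn => ?_
      have hn' : n ≤ N := by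
        have := mem_range.1 hn
        omega
      simp only [hf, rf, if_pos hn']
      congr 4
      omega
    · intro n _ hn
      rw [mem_range, not_lt] at hn
      unfold rf
      rw [if_neg (by omega), mul_zero]
  have h2 : ∑ n ∈ range (N + 1), f (N - n) = ∑ n ∈ range (N + 1), f n := by
    rw [← sum_range_reflect f (N + 1)]
    refine sum_congr rfl fun n _ => ?_
    congr 1
  rw [h1, h2, sum_congr rfl fun M _ => hval M, ← sum_filter]
  refine sum_congr ?_ fun _ _ => rfl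
  ext M
  simp only [mem_filter, mem_range, mem_Ico]
  have h3 : 2 * b ^ (L - 4) ≤ N := by
    have h4 : b ^ (L - 1) = b ^ (L - 4) * b ^ 3 := by
      rw [← pow_add]
      congr 1
      omega
    have h5 : 2 ^ 3 ≤ b ^ 3 := Nat.pow_le_pow_left hb 3
    have h6 : b ^ (L - 4) * 2 ^ 3 ≤ b ^ (L - 4) * b ^ 3 := Nat.mul_le_mul_left _ h5
    omega
  constructor
  · rintro ⟨_, h5⟩
    exact h5
  · intro h5
    exact ⟨by omega, h5⟩

/-- characters modulo `D0` -/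
private theorem S2a_char (b L N m₀ d a : ℕ) (hb : 2 ≤ b) :
    EE b L m₀ N d a = (1 / ((D0 b : ℕ) : ℂ)) * ∑ h ∈ range (D0 b), ee (-((h : ℝ) * m₀ / D0 b)) *
      ∑ M ∈ (Ico (b ^ (L - 4)) (2 * b ^ (L - 4))).filter (fun M => M ≡ m₀ [MOD b]),
        ((Λ (N - M) : ℝ) : ℂ) * ee ((a : ℝ) * rv b (L - 3) M / d + (h : ℝ) * M / D0 b) := by
  have hD : 0 < D0 b := by
    unfold D0
    have : 2 ^ 2 ≤ b ^ 2 := Nat.pow_le_pow_left hb 2
    omega
  have hDC : ((D0 b : ℕ) : ℂ) ≠ 0 := by exact_mod_cast hD.ne'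
  have hcop : b.Coprime (D0 b) := by
    have h1 : D0 b + 1 = b ^ 2 := by
      unfold D0
      have : 1 ≤ b ^ 2 := Nat.one_le_pow _ _ (by omega)
      omega
    have h2 : (b ^ 2).Coprime (D0 b) := by
      rw [← h1]
      simp
    exact Nat.Coprime.coprime_dvd_left (dvd_pow_self b two_ne_zero) h2
  simp_rw [mul_sum]
  rw [sum_comm]
  have h3 : ∀ M : ℕ, ∑ h ∈ range (D0 b), (1 / ((D0 b : ℕ) : ℂ)) * (ee (-((h : ℝ) * m₀ / D0 b)) *
      (((Λ (N - M) : ℝ) : ℂ) * ee ((a : ℝ) * rv b (L - 3) M / d + (h : ℝ) * M / D0 b))) =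
      if M ≡ m₀ [MOD D0 b] then ((Λ (N - M) : ℝ) : ℂ) * ee ((a : ℝ) * rv b (L - 3) M / d) else 0 := by
    intro M
    have h4 : ∀ h : ℕ, (1 / ((D0 b : ℕ) : ℂ)) * (ee (-((h : ℝ) * m₀ / D0 b)) *
      (((Λ (N - M) : ℝ) : ℂ) * ee ((a : ℝ) * rv b (L - 3) M / d + (h : ℝ) * M / D0 b))) =
      (1 / ((D0 b : ℕ) : ℂ)) * (((Λ (N - M) : ℝ) : ℂ) * ee ((a : ℝ) * rv b (L - 3) M / d)) *
        ee ((((M : ℤ) - m₀ : ℤ) : ℝ) * h / D0 b) := by
      intro h
      have h5 : ee ((((M : ℤ) - m₀ : ℤ) : ℝ) * h / D0 b) =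
          ee ((h : ℝ) * M / D0 b) * ee (-((h : ℝ) * m₀ / D0 b)) := by
        rw [← ee_add]
        congr 1
        push_cast
        ring
      rw [h5, ee_add]
      ring
    simp_rw [h4]
    rw [← mul_sum, orth (D0 b) hD]
    have h6 : ((D0 b : ℤ) ∣ (M : ℤ) - m₀) ↔ M ≡ m₀ [MOD D0 b] := by
      rw [← Int.natCast_modEq_iff, Int.modEq_comm, Int.modEq_iff_dvd]
    rw [if_congr h6 rfl rfl]
    split_ifs with h7
    · field_simp
    · simp
  unfold EE MM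
  rw [sum_congr rfl fun M _ => h3 M, ← sum_filter, filter_filter]
  refine sum_congr ?_ fun _ _ => rfl
  ext M
  simp only [mem_filter]
  rw [Nat.modEq_and_modEq_iff_modEq_mul hcop]

theorem EE_le (b : ℕ) (hb : 2 ≤ b) : EEStmt b := by
  obtain ⟨Dt, hDt, hk⟩ := exists_D b hb
  obtain ⟨C, A, hC, hmain⟩ := tt_rf b Dt hb hDt hk
  have hDt1 : 1 ≤ Dt := by omega
  refine ⟨Dt, A, C, hDt1, hC, 64 * Dt * 8, ?_⟩
  intro L N m₀ d a hL hN hd
  set u := L / (64 * Dt) with hu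
  have hu8 : 8 ≤ u := by
    rw [hu, Nat.le_div_iff_mul_le (by omega)]
    linarith
  have huL : 64 * Dt * u ≤ L := Nat.mul_div_le L (64 * Dt)
  have huL' : 8 * u ≤ L := by
    have h1 : 8 * u ≤ 64 * Dt * u := Nat.mul_le_mul_right _ (by omega)
    omega
  have hL1 : 1 ≤ L := by omega
  have hD : 0 < D0 b := by
    unfold D0
    have : 2 ^ 2 ≤ b ^ 2 := Nat.pow_le_pow_left hb 2
    omega
  set B : ℝ := C * (L : ℝ) ^ A * (b : ℝ) ^ L *
      (VV b (1 / (2 * (b : ℝ) ^ 3)) (2 * Dt * u)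
          (((b ^ (L - 4 - 4 * Dt * u) * D0 b : ℕ) : ℝ) * ((a : ℝ) / d)) ^ (1 / 8 : ℝ) +
        (1 / 2 : ℝ) ^ ((u : ℝ) / 8)) with hB
  have hS : ∀ h : ℕ, ‖∑ M ∈ (Ico (b ^ (L - 4)) (2 * b ^ (L - 4))).filter (fun M => M ≡ m₀ [MOD b]),
        ((Λ (N - M) : ℝ) : ℂ) * ee ((a : ℝ) * rv b (L - 3) M / d + (h : ℝ) * M / D0 b)‖ ≤ B := by
    intro h
    rw [← S2a_sum b L u N m₀ a d h hb hu8 huL' hN]
    have hz : b ^ (u - 3) = b * b ^ (u - 4) := by
      rw [← pow_succ']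
      congr 1
      omega
    have hz2 : 2 * b ^ (u - 4) ≤ b ^ (u - 3) := by
      rw [hz]
      exact Nat.mul_le_mul_right _ hb
    have hz3 : b ^ (u - 3) ≤ b ^ u := Nat.pow_le_pow_right (by omega) (by omega)
    have h1 := hmain L u N (by omega) huL hN.1 hN.2 (al b (L - 3) a d h) (om b u m₀)
      (fun c v => by
        unfold om
        split_ifs <;> simp)
      (fun c v hc => by
        unfold om
        rw [if_neg]
        rintro ⟨⟨_, h3⟩, _⟩
        omega)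
      (fun c v hc => by
        unfold om
        rw [if_neg]
        rintro ⟨⟨_, h3⟩, _⟩
        omega)
    refine h1.trans ?_
    rw [hB]
    refine mul_le_mul_of_nonneg_left ?_ (by positivity)
    unfold TH
    rw [S2a_WW b L Dt u a d h hb hu8 hDt1 huL]
    have hc1 : (1 : ℝ) / (2 * (b : ℝ) ^ 3) < 1 := by
      have h2 : (2 : ℝ) ≤ b := by exact_mod_cast hb
      rw [div_lt_one (by positivity)]
      have : (1 : ℝ) ≤ (b : ℝ) ^ 3 := one_le_pow₀ (by linarith)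
      linarith
    have hV := VV_nonneg b (c := 1 / (2 * (b : ℝ) ^ 3)) (by positivity) hc1 (2 * Dt * u)
      (((b ^ (L - 4 - 4 * Dt * u) * D0 b : ℕ) : ℝ) * ((a : ℝ) / d))
    refine (Real.rpow_add_le_add_rpow hV (by positivity) (by norm_num) (by norm_num)).trans ?_
    have h5 : ((1 / 2 : ℝ) ^ u) ^ (1 / 8 : ℝ) = (1 / 2 : ℝ) ^ ((u : ℝ) / 8) := by
      rw [← Real.rpow_natCast, ← Real.rpow_mul (by norm_num)]
      congr 1
      ring
    rw [h5]
  rw [S2a_char b L N m₀ d a hb, norm_mul]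
  have h6 : ‖(1 / ((D0 b : ℕ) : ℂ))‖ = 1 / (D0 b : ℝ) := by
    rw [norm_div, norm_one, Complex.norm_natCast]
  rw [h6]
  have h7 : ‖∑ h ∈ range (D0 b), ee (-((h : ℝ) * m₀ / D0 b)) *
      ∑ M ∈ (Ico (b ^ (L - 4)) (2 * b ^ (L - 4))).filter (fun M => M ≡ m₀ [MOD b]),
        ((Λ (N - M) : ℝ) : ℂ) * ee ((a : ℝ) * rv b (L - 3) M / d + (h : ℝ) * M / D0 b)‖ ≤
      (D0 b : ℝ) * B := by
    refine (norm_sum_le _ _).trans ?_
    have h8 : ∀ h ∈ range (D0 b), ‖ee (-((h : ℝ) * m₀ / D0 b)) *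
      ∑ M ∈ (Ico (b ^ (L - 4)) (2 * b ^ (L - 4))).filter (fun M => M ≡ m₀ [MOD b]),
        ((Λ (N - M) : ℝ) : ℂ) * ee ((a : ℝ) * rv b (L - 3) M / d + (h : ℝ) * M / D0 b)‖ ≤ B := by
      intro h _
      rw [norm_mul, norm_ee, one_mul]
      exact hS h
    refine (sum_le_card_nsmul _ _ _ h8).trans ?_
    rw [card_range, nsmul_eq_mul]
  have hD' : (0 : ℝ) < D0 b := by exact_mod_cast hD
  calc 1 / (D0 b : ℝ) * _ ≤ 1 / (D0 b : ℝ) * ((D0 b : ℝ) * B) :=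
        mul_le_mul_of_nonneg_left h7 (by positivity)
    _ = B := by field_simp

end Pool.Agent.LibRN31
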