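import Pool.Agent.LibRN31.SE
import Pool.Agent.LibPNT.PNT

/-!
# Row S3 (MEDIUM): the main term (prime number theorem in the progression `N - m₀` mod `b D0`)

PLAN. `q = b * D0 b` (`NeZero`), `s = (N - m₀ : ZMod q)`, a unit (`IsCoprime`). For `M ∈ MM b L m₀` the number `k = N - M` runs over the `k ≡ s` mod `q` in
`(N - 2 b^(L-4), N - b^(L-4)]` (`M < 2 b^(L-4) ≤ N`), so `∑_M Λ (N - M) = psiAP s (N - b^(L-4)) - psiAP s (N - 2 b^(L-4))`
(`psiAP s x = ∑_{n ≤ x} residueClass s n`, `residueClass s n = Λ n` if `(n : ZMod q) = s`, else `0`). `psiAP_tendsto` for each of the finitely many `s : ZMod q`: for every `ε > 0` and `x ≥ x₀`: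
`|psiAP s x - x/φ(q)| ≤ ε x`. So the sum is `≥ b^(L-4)/φ(q) - 2 ε b^L`; `ε = 1/(4 b^4 φ(q))`, `c = 1/(2 b^4 φ(q))`. (`x = N - 2 b^(L-4) ≥ b^(L-1) - 2 b^(L-4) → ∞`.)
-/

namespace Pool.Agent.LibRN31

open Finset Pool.Agent.LibHG31 Pool.Agent.LibHG31.TT
open scoped ArithmeticFunction.vonMangoldt
open Pool.Agent.LibPNT

open ArithmeticFunction.vonMangoldt in
/-- the sum as a difference of two values of `psiAP` -/
private theorem S3_sum (q : ℕ) (B N m₀ : ℕ) (hN : 2 * B ≤ N) :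
    ∑ M ∈ (Ico B (2 * B)).filter (fun M => M ≡ m₀ [MOD q]), Λ (N - M) =
      psiAP (((N : ℤ) - m₀ : ℤ) : ZMod q) ((N - B : ℕ) : ℝ) -
        psiAP (((N : ℤ) - m₀ : ℤ) : ZMod q) ((N - 2 * B : ℕ) : ℝ) := by
  classical
  set s : ZMod q := (((N : ℤ) - m₀ : ℤ) : ZMod q) with hs
  have h1 : ∑ M ∈ (Ico B (2 * B)).filter (fun M => M ≡ m₀ [MOD q]), Λ (N - M) =
      ∑ M ∈ Ico B (2 * B), residueClass s (N - M) := by
    rw [Finset.sum_filter]
    refine Finset.sum_congr rfl fun M hM => ?_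
    rw [Finset.mem_Ico] at hM
    have hMN : M ≤ N := by omega
    have hcast : ((N - M : ℕ) : ZMod q) = (N : ZMod q) - M := by
      rw [Nat.cast_sub hMN]
    have hse : s = (N : ZMod q) - m₀ := by
      rw [hs]; push_cast; ring
    have hiff : M ≡ m₀ [MOD q] ↔ ((N - M : ℕ) : ZMod q) = s := by
      rw [hcast, hse, ← ZMod.natCast_eq_natCast_iff, sub_right_inj]
    by_cases h : M ≡ m₀ [MOD q]
    · rw [if_pos h]
      have h2 := hiff.1 h
      rw [residueClass, Set.indicator_of_mem (by exact h2)]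
    · rw [if_neg h]
      have h2 : ¬ ((N - M : ℕ) : ZMod q) = s := fun h3 => h (hiff.2 h3)
      rw [residueClass, Set.indicator_of_notMem (by exact h2)]
  rw [h1]
  unfold psiAP
  rw [Nat.floor_natCast, Nat.floor_natCast]
  have h3 : Icc 1 (N - B) = Icc 1 (N - 2 * B) ∪ Ioc (N - 2 * B) (N - B) := by
    ext k
    simp only [mem_Icc, mem_union, mem_Ioc]
    omega
  have hd : Disjoint (Icc 1 (N - 2 * B)) (Ioc (N - 2 * B) (N - B)) := by
    rw [Finset.disjoint_left]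
    intro k hk hk'
    simp only [mem_Icc, mem_Ioc] at hk hk'
    omega
  rw [h3, Finset.sum_union hd, add_sub_cancel_left]
  refine Finset.sum_nbij' (fun M => N - M) (fun k => N - k) ?_ ?_ ?_ ?_ ?_
  · intro M hM
    simp only [mem_Ico, mem_Ioc] at hM ⊢
    omega
  · intro k hk
    simp only [mem_Ico, mem_Ioc] at hk ⊢
    omega
  · intro M hM
    simp only [mem_Ico] at hM
    show N - (N - M) = M
    omega
  · intro k hk
    simp only [mem_Ioc] at hk
    show N - (N - k) = k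
    omega
  · intro M _
    rfl

theorem main_term (b : ℕ) (hb : 2 ≤ b) : MainStmt b := by
  have hD : 0 < D0 b := by
    unfold D0
    have : 2 ^ 2 ≤ b ^ 2 := Nat.pow_le_pow_left hb 2
    omega
  have hq : 0 < b * D0 b := Nat.mul_pos (by omega) hD
  have : NeZero (b * D0 b) := ⟨hq.ne'⟩
  have hφ : (0 : ℝ) < (((b * D0 b).totient : ℝ))⁻¹ := by
    have : 0 < (b * D0 b).totient := Nat.totient_pos.2 hq
    positivity
  set φ : ℝ := (((b * D0 b).totient : ℝ))⁻¹ with hφd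
  have hbR : (0 : ℝ) < (b : ℝ) := by
    have : 0 < b := by omega
    exact_mod_cast this
  have hb4 : (0 : ℝ) < (b : ℝ) ^ 4 := by positivity
  set ε : ℝ := φ / (4 * (b : ℝ) ^ 4) with hε
  have hεp : 0 < ε := by positivity
  have hev : ∀ᶠ x : ℝ in Filter.atTop, ∀ s : ZMod (b * D0 b), IsUnit s →
      |psiAP s x / x - φ| < ε := by
    rw [Filter.eventually_all]
    intro s
    by_cases hs : IsUnit s
    · have ht := psiAP_tendsto hs
      rw [Metric.tendsto_nhds] at ht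
      have h2 := ht ε hεp
      filter_upwards [h2] with x hx _
      rw [Real.dist_eq] at hx
      exact hx
    · exact Filter.Eventually.of_forall fun x h => absurd h hs
  obtain ⟨X, hX⟩ := Filter.eventually_atTop.1 hev
  refine ⟨φ / (2 * (b : ℝ) ^ 4), by positivity, ⌈X⌉₊ + 6, ?_⟩
  intro L N m₀ hL hN hcop
  set s : ZMod (b * D0 b) := (((N : ℤ) - m₀ : ℤ) : ZMod (b * D0 b)) with hs
  have hunit : IsUnit s := by
    rw [hs, ZMod.coe_int_isUnit_iff_isCoprime]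
    exact hcop.symm
  obtain ⟨n, rfl⟩ : ∃ n, L = n + 4 := ⟨L - 4, by omega⟩
  have hNl : b ^ (n + 3) ≤ N := by
    have h := hN.1
    have e : n + 4 - 1 = n + 3 := by omega
    rw [e] at h
    exact h
  have hNu : N < b ^ (n + 4) := hN.2
  have hn4 : n + 4 - 4 = n := by omega
  have hBpos : 0 < b ^ n := Nat.pow_pos (by omega)
  have hb3 : 8 ≤ b ^ 3 := by
    calc 8 = 2 ^ 3 := by norm_num
      _ ≤ b ^ 3 := Nat.pow_le_pow_left hb 3
  have h8 : 8 * b ^ n ≤ N := by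
    calc 8 * b ^ n ≤ b ^ 3 * b ^ n := Nat.mul_le_mul_right _ hb3
      _ = b ^ (n + 3) := by rw [← pow_add]; congr 1; omega
      _ ≤ N := hNl
  have hkey := S3_sum (b * D0 b) (b ^ n) N m₀ (by omega)
  have hMM : ∑ M ∈ MM b (n + 4) m₀, Λ (N - M) =
      psiAP s ((N - b ^ n : ℕ) : ℝ) - psiAP s ((N - 2 * b ^ n : ℕ) : ℝ) := by
    unfold MM
    rw [hn4]
    exact hkey
  rw [hMM]
  have hnX : X ≤ (n : ℝ) := by
    have h1 : X ≤ (⌈X⌉₊ : ℝ) := Nat.le_ceil X
    have h2 : (⌈X⌉₊ : ℝ) ≤ (n : ℝ) := by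
      have : ⌈X⌉₊ ≤ n := by omega
      exact_mod_cast this
    exact h1.trans h2
  have hnb : n < b ^ n := Nat.lt_pow_self (by omega)
  have hx1 : ((N - b ^ n : ℕ) : ℝ) = (N : ℝ) - (b : ℝ) ^ n := by
    rw [Nat.cast_sub (by omega)]; push_cast; ring
  have hx2 : ((N - 2 * b ^ n : ℕ) : ℝ) = (N : ℝ) - 2 * (b : ℝ) ^ n := by
    rw [Nat.cast_sub (by omega)]; push_cast; ring
  set x1 : ℝ := ((N - b ^ n : ℕ) : ℝ) with hx1d
  set x2 : ℝ := ((N - 2 * b ^ n : ℕ) : ℝ) with hx2d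
  have h8R : 8 * (b : ℝ) ^ n ≤ (N : ℝ) := by exact_mod_cast h8
  have hnbR : (n : ℝ) < (b : ℝ) ^ n := by exact_mod_cast hnb
  have hNuR : (N : ℝ) ≤ (b : ℝ) ^ (n + 4) := by exact_mod_cast hNu.le
  have hBR : (0 : ℝ) < (b : ℝ) ^ n := by positivity
  have hx2X : X ≤ x2 := by linarith
  have hx1X : X ≤ x1 := by linarith
  have hx2p : 0 < x2 := by linarith
  have hx1p : 0 < x1 := by linarith
  have a1 := (abs_lt.1 (hX x1 hx1X s hunit)).1
  have a2 := (abs_lt.1 (hX x2 hx2X s hunit)).2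
  have b1 : (φ - ε) * x1 ≤ psiAP s x1 := by
    have : φ - ε ≤ psiAP s x1 / x1 := by linarith
    rwa [le_div_iff₀ hx1p] at this
  have b2 : psiAP s x2 ≤ (φ + ε) * x2 := by
    have : psiAP s x2 / x2 ≤ φ + ε := by linarith
    rwa [div_le_iff₀ hx2p] at this
  have hpow : (b : ℝ) ^ (n + 4) = (b : ℝ) ^ n * (b : ℝ) ^ 4 := pow_add _ _ _
  have hx1u : x1 ≤ (b : ℝ) ^ (n + 4) := by linarith
  have hx2u : x2 ≤ (b : ℝ) ^ (n + 4) := by linarith
  have c1 : ε * (x1 + x2) ≤ ε * (2 * (b : ℝ) ^ (n + 4)) :=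
    mul_le_mul_of_nonneg_left (by linarith) hεp.le
  have c2 : ε * (2 * (b : ℝ) ^ (n + 4)) = φ * (b : ℝ) ^ n / 2 := by
    rw [hε, hpow]
    field_simp
    ring
  have c3 : φ / (2 * (b : ℝ) ^ 4) * (b : ℝ) ^ (n + 4) = φ * (b : ℝ) ^ n / 2 := by
    rw [hpow]
    field_simp
  have c4 : φ * (x1 - x2) = φ * (b : ℝ) ^ n := by
    rw [hx1, hx2]; ring
  rw [c3]
  nlinarith [b1, b2, c1, c2, c4]

end Pool.Agent.LibRN31
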