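import Pool.Agent.LibRN31.SE
import Pool.Agent.LibPL63.SA3
import Pool.Agent.LibPL63.SA2
import Pool.Agent.LibRG87.Z

/-!
# Row S4 (STRONG/MEDIUM): the sieve

PLAN. `LibPL63.lemmaSA` with the `Average` (`hp` from `LibPL63.hp_of_classes`): `s = (MM b L m₀).image (rv b (L-3))` (`rv_injOn`; `rv_rv` on numbers `< b^(L-3)`), `om n = Λ (N - rv b (L-3) n)` (so `om (rv M) = Λ (N - M)`),
`good = {p prime, ¬ p ∣ b * D0 b}`, `lp p x = 1/p`, `X = ∑_{M} Λ (N - M)`, `Er q = (1/q) ∑_{a ∈ Ico 1 q} ‖EE b L m₀ N q a‖`.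
`hp_of_classes`: `#`-sum over the class `n ≡ a₀` mod `q`: `1[n ≡ a₀] = (1/q) ∑_{a<q} ee (a (n - a₀)/q)` (`TT.orth`), the term `a = 0` is `X/q`, the others are `≤ Er q`.
`k = 1`, `b₀` even with `eps0 C 1 b₀ ≤ 1/2`, `T = ∅`, `x p n = 1[p ∣ n]` (`Ep = 1/p`, `tot = 1`), `Pr = {p ≤ z prime, p ∤ b D0}`, `z = b^(L/R')`, `R' = R (2 b₀ + 6)` (`R` from `LevStmt`), so `z^(2 b₀+6) ≤ b^(L/R)`.
The error `∑_{D ⊆ Pr, ∏ D ≤ ..} Er (∏ D)`: `D ↦ ∏ D` is injective (squarefree products; `Finset.prod` of primes, `Nat.primeFactors_prod`) into `{1} ∪ {2 ≤ d ≤ b^(L/R), (d, b D0) = 1}`, `Er 1 = 0`: `≤ b^L/L^2` by `LevStmt`.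
`∏_{p ∈ Pr} (1 - 1/p) ≥ ∏_{p ≤ z} (1 - 1/p) ≥ c/log z` (`LibRG87.Z_mertens`), `log z ≤ b L`. With `MainStmt`: `∑_{M : (rv M, Pr) = 1} Λ (N - M) ≥ (1/2) c₁ b^L c/(b L) - b^L/L^2 ≥ c₂ b^L/L`.
The product `∏_{p ∈ Pr} (1 - x p n)` is `1` if no `p ∈ Pr` divides `n`, else `0`. A prime `p ∣ rv M` with `p ≤ z` and `p ∣ b D0` is impossible: `rv M` is prime to `b D0`
(`E5.rv_coprime`: `M ∈ KS b (L-3) 1 (m₀ % ..)`, `b ^ 3 - b = b * D0 b`; `M ≡ m₀` prime to `b D0`). The indicator is only needed as `≤` (the filter set of the statement contains all such `M`; `Λ ≥ 0`).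
-/

namespace Pool.Agent.LibRN31

open Finset Pool.Agent.LibHG31 Pool.Agent.LibHG31.TT
open scoped ArithmeticFunction.vonMangoldt

private theorem S4_eps (C : ℝ) (K : ℕ) :
    ∃ b0 : ℕ, Even b0 ∧ Pool.Agent.LibLG5.eps0 C K b0 ≤ 1 / 2 := by
  have h1 : Filter.Tendsto (fun n : ℕ => (C * K) ^ n / (n.factorial : ℝ)) Filter.atTop (nhds 0) :=
    FloorSemiring.tendsto_pow_div_factorial_atTop _
  have h2 : Filter.Tendsto (fun n : ℕ => C * Real.exp (C * K) *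
      ((C * K) ^ n / (n.factorial : ℝ))) Filter.atTop (nhds 0) := by
    have h := h1.const_mul (C * Real.exp (C * K))
    rwa [mul_zero] at h
  have h3 : ∀ᶠ n : ℕ in Filter.atTop, C * Real.exp (C * K) *
      ((C * K) ^ n / (n.factorial : ℝ)) < 1 / 2 := h2.eventually_lt_const (by norm_num)
  obtain ⟨N, hN⟩ := Filter.eventually_atTop.1 h3
  refine ⟨2 * N, even_two_mul N, ?_⟩
  have h4 := hN (2 * N + 1) (by omega)
  have h5 : Pool.Agent.LibLG5.eps0 C K (2 * N) = C * Real.exp (C * K) *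
      ((C * K) ^ (2 * N + 1) / ((2 * N + 1).factorial : ℝ)) := by
    unfold Pool.Agent.LibLG5.eps0
    ring
  rw [h5]
  exact h4.le

private noncomputable def S4_Er (b L m₀ N : ℕ) (q : ℕ) : ℝ :=
  (1 / (q : ℝ)) * ∑ a ∈ Ico 1 q, ‖EE b L m₀ N q a‖

private theorem S4_Er_nonneg (b L m₀ N q : ℕ) : 0 ≤ S4_Er b L m₀ N q :=
  mul_nonneg (by positivity) (Finset.sum_nonneg fun _ _ => norm_nonneg _)

private theorem S4_class (b L m₀ N q a : ℕ) (hq : 0 < q) (ha : a < q) :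
    |∑ M ∈ (MM b L m₀).filter (fun M => rv b (L - 3) M % q = a), (Λ (N - M) : ℝ) -
      (∑ M ∈ MM b L m₀, (Λ (N - M) : ℝ)) * (1 / (q : ℝ))| ≤ S4_Er b L m₀ N q := by
  have hqC : (q : ℂ) ≠ 0 := by exact_mod_cast hq.ne'
  have hind : ∀ M : ℕ, (∑ j ∈ range q, ee ((((rv b (L - 3) M : ℤ) - (a : ℤ) : ℤ) : ℝ) * j / q)) =
      if rv b (L - 3) M % q = a then (q : ℂ) else 0 := by
    intro M
    rw [orth q hq]
    have h1 : ((q : ℤ) ∣ (rv b (L - 3) M : ℤ) - (a : ℤ)) ↔ rv b (L - 3) M % q = a := by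
      constructor
      · intro h
        have h2 : a ≡ rv b (L - 3) M [MOD q] := (Nat.modEq_iff_dvd).2 h
        have h3 : a % q = rv b (L - 3) M % q := h2
        rw [Nat.mod_eq_of_lt ha] at h3
        exact h3.symm
      · intro h
        refine (Nat.modEq_iff_dvd).1 ?_
        show a % q = rv b (L - 3) M % q
        rw [Nat.mod_eq_of_lt ha, h]
    simp only [h1]
  have hsplit : ∀ M j : ℕ, ee ((((rv b (L - 3) M : ℤ) - (a : ℤ) : ℤ) : ℝ) * j / q) =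
      ee (-((a : ℝ) * j / q)) * ee ((j : ℝ) * rv b (L - 3) M / q) := by
    intro M j
    rw [← ee_add]
    congr 1
    push_cast
    ring
  have key : (((∑ M ∈ (MM b L m₀).filter (fun M => rv b (L - 3) M % q = a), (Λ (N - M) : ℝ)) -
      (∑ M ∈ MM b L m₀, (Λ (N - M) : ℝ)) * (1 / (q : ℝ)) : ℝ) : ℂ) =
      (1 / (q : ℂ)) * ∑ j ∈ Ico 1 q, ee (-((a : ℝ) * j / q)) * EE b L m₀ N q j := by
    have e1 : (((∑ M ∈ (MM b L m₀).filter (fun M => rv b (L - 3) M % q = a),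
        (Λ (N - M) : ℝ)) : ℝ) : ℂ) =
        (1 / (q : ℂ)) * ∑ j ∈ range q, ee (-((a : ℝ) * j / q)) * EE b L m₀ N q j := by
      rw [Finset.sum_filter]
      push_cast
      have e2 : ∀ j ∈ range q, ee (-((a : ℝ) * j / q)) * EE b L m₀ N q j =
          ∑ M ∈ MM b L m₀, ((Λ (N - M) : ℝ) : ℂ) *
            ee ((((rv b (L - 3) M : ℤ) - (a : ℤ) : ℤ) : ℝ) * j / q) := by
        intro j _
        unfold EE
        rw [Finset.mul_sum]
        refine Finset.sum_congr rfl fun M _ => ?_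
        rw [hsplit]
        ring
      rw [Finset.sum_congr rfl e2, Finset.sum_comm, Finset.mul_sum]
      refine Finset.sum_congr rfl fun M _ => ?_
      rw [← Finset.mul_sum, hind]
      split_ifs with h
      · field_simp
      · simp
    rw [Complex.ofReal_sub, e1, Finset.range_eq_Ico, Finset.sum_eq_sum_Ico_succ_bot hq]
    have e3 : EE b L m₀ N q 0 = ((∑ M ∈ MM b L m₀, (Λ (N - M) : ℝ) : ℝ) : ℂ) := by
      unfold EE
      push_cast
      refine Finset.sum_congr rfl fun M _ => ?_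
      simp
    rw [e3]
    push_cast
    simp only [mul_zero, zero_div, neg_zero, ee_zero, one_mul]
    ring
  have h0 := congrArg norm key
  rw [Complex.norm_real, Real.norm_eq_abs] at h0
  rw [h0, norm_mul]
  unfold S4_Er
  have h1 : ‖(1 / (q : ℂ))‖ = 1 / (q : ℝ) := by
    rw [norm_div, norm_one, Complex.norm_natCast]
  rw [h1]
  refine mul_le_mul_of_nonneg_left ?_ (by positivity)
  refine (norm_sum_le _ _).trans (le_of_eq ?_)
  refine Finset.sum_congr rfl fun j _ => ?_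
  rw [norm_mul, norm_ee, one_mul]

private theorem S4_MM_lt {b L m₀ M : ℕ} (hb : 2 ≤ b) (hL : 4 ≤ L) (hM : M ∈ MM b L m₀) :
    M < b ^ (L - 3) := by
  have h1 := (Finset.mem_Ico.1 (Finset.mem_filter.1 hM).1).2
  have h2 : b ^ (L - 3) = b * b ^ (L - 4) := by
    rw [show L - 3 = (L - 4) + 1 by omega, pow_succ, mul_comm]
  rw [h2]
  exact h1.trans_le (Nat.mul_le_mul_right _ hb)

private theorem S4_injOn {b L m₀ : ℕ} (hb : 2 ≤ b) (hL : 4 ≤ L) :
    Set.InjOn (rv b (L - 3)) (MM b L m₀ : Finset ℕ) := by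
  intro x hx y hy h
  exact rv_injOn b (L - 3) (by omega) (S4_MM_lt hb hL hx) (S4_MM_lt hb hL hy) h

private theorem S4_sum_image {b L m₀ N : ℕ} (hb : 2 ≤ b) (hL : 4 ≤ L) (F : ℕ → ℝ) :
    ∑ n ∈ (MM b L m₀).image (rv b (L - 3)), (Λ (N - rv b (L - 3) n) : ℝ) * F n =
      ∑ M ∈ MM b L m₀, (Λ (N - M) : ℝ) * F (rv b (L - 3) M) := by
  rw [Finset.sum_image (S4_injOn hb hL)]
  refine Finset.sum_congr rfl fun M hM => ?_
  rw [rv_rv b (L - 3) M (by omega) (S4_MM_lt hb hL hM)]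

private theorem S4_filter_image {b L m₀ N : ℕ} (hb : 2 ≤ b) (hL : 4 ≤ L) (q a : ℕ) :
    ∑ n ∈ (MM b L m₀).image (rv b (L - 3)) with n % q = a, (Λ (N - rv b (L - 3) n) : ℝ) =
      ∑ M ∈ (MM b L m₀).filter (fun M => rv b (L - 3) M % q = a), (Λ (N - M) : ℝ) := by
  rw [Finset.sum_filter, Finset.sum_filter]
  have h := S4_sum_image (m₀ := m₀) (N := N) hb hL (fun n => if n % q = a then (1 : ℝ) else 0)
  simpa only [mul_ite, mul_one, mul_zero] using h

private noncomputable def S4_avg (b L m₀ N : ℕ) (hb : 2 ≤ b) (hL : 4 ≤ L) :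
    Pool.Agent.LibPL63.Average where
  s := (MM b L m₀).image (rv b (L - 3))
  om := fun n => Λ (N - rv b (L - 3) n)
  good := {p | p.Prime ∧ ¬ p ∣ b * D0 b}
  lp := fun p _ => 1 / (p : ℝ)
  X := ∑ M ∈ MM b L m₀, (Λ (N - M) : ℝ)
  Er := S4_Er b L m₀ N
  om_nonneg := fun n _ => ArithmeticFunction.vonMangoldt_nonneg
  X_nonneg := Finset.sum_nonneg fun _ _ => ArithmeticFunction.vonMangoldt_nonneg
  Er_nonneg := fun q => S4_Er_nonneg b L m₀ N q
  good_prime := fun p hp => hp.1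
  lp_nonneg := fun p _ _ => by positivity
  lp_sum := fun p hp => by
    have hp0 : (p : ℝ) ≠ 0 := by exact_mod_cast hp.1.ne_zero
    rw [Finset.sum_const, Finset.card_range, nsmul_eq_mul]
    field_simp
  hp := by
    intro T g hT hg
    refine Pool.Agent.LibPL63.hp_of_classes _ _ {p | p.Prime ∧ ¬ p ∣ b * D0 b}
      (fun p hp => hp.1) (fun p _ => 1 / (p : ℝ)) _ (S4_Er b L m₀ N) ?_ T g hT hg
    intro T hT a ha
    have hq : 0 < ∏ p ∈ T, p := Finset.prod_pos fun p hp => (hT p hp).1.pos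
    have h := S4_class b L m₀ N (∏ p ∈ T, p) a hq ha
    rw [S4_filter_image hb hL]
    have e : ∏ p ∈ T, (1 / (p : ℝ)) = 1 / ((∏ p ∈ T, p : ℕ) : ℝ) := by
      push_cast
      rw [Finset.prod_div_distrib, Finset.prod_const_one]
    rw [e]
    exact h

private theorem S4_rem (b L m₀ N R : ℕ) (Pr : Finset ℕ)
    (hPr : ∀ p ∈ Pr, p.Prime ∧ ¬ p ∣ b * D0 b) (W : ℕ) (hW : W ≤ b ^ (L / R)) :
    ∑ D ∈ Pr.powerset with ∏ p ∈ D, p ≤ W, S4_Er b L m₀ N (∏ p ∈ D, p) ≤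
      ∑ d ∈ (Icc 2 (b ^ (L / R))).filter (fun d => d.Coprime (b * D0 b)), (1 / (d : ℝ)) *
      ∑ a ∈ Ico 1 d, ‖EE b L m₀ N d a‖ := by
  classical
  set S := Pr.powerset.filter (fun D => ∏ p ∈ D, p ≤ W) with hS
  have hE1 : S4_Er b L m₀ N 1 = 0 := by
    unfold S4_Er
    simp
  have hinj : Set.InjOn (fun D : Finset ℕ => ∏ p ∈ D, p) ((S.filter fun D => D ≠ ∅ : Finset (Finset ℕ))) := by
    intro D hD D' hD' h
    have h1 := (Finset.mem_filter.1 (Finset.mem_coe.1 hD)).1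
    have h2 := (Finset.mem_filter.1 (Finset.mem_coe.1 hD')).1
    rw [hS, Finset.mem_filter, Finset.mem_powerset] at h1 h2
    have h3 := Nat.primeFactors_prod (s := D) fun p hp => (hPr p (h1.1 hp)).1
    have h4 := Nat.primeFactors_prod (s := D') fun p hp => (hPr p (h2.1 hp)).1
    rw [← h3, ← h4]
    exact congrArg Nat.primeFactors h
  have e1 : ∑ D ∈ S, S4_Er b L m₀ N (∏ p ∈ D, p) =
      ∑ D ∈ S.filter (fun D => D ≠ ∅), S4_Er b L m₀ N (∏ p ∈ D, p) := by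
    refine (Finset.sum_filter_of_ne (s := S) (p := fun D => D ≠ ∅)
      (f := fun D => S4_Er b L m₀ N (∏ p ∈ D, p)) ?_).symm
    intro D _ hne h0
    apply hne
    simp only [h0]
    rw [Finset.prod_empty, hE1]
  rw [e1]
  rw [← Finset.sum_image (f := fun d => S4_Er b L m₀ N d) hinj]
  refine Finset.sum_le_sum_of_subset_of_nonneg ?_ fun d _ _ => S4_Er_nonneg b L m₀ N d
  intro d hd
  obtain ⟨D, hD, rfl⟩ := Finset.mem_image.1 hd
  obtain ⟨hDS, hD0⟩ := Finset.mem_filter.1 hD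
  rw [hS, Finset.mem_filter, Finset.mem_powerset] at hDS
  obtain ⟨hDP, hDW⟩ := hDS
  rw [Finset.mem_filter, Finset.mem_Icc]
  refine ⟨⟨?_, hDW.trans hW⟩, ?_⟩
  · obtain ⟨p, hp⟩ := Finset.nonempty_iff_ne_empty.2 hD0
    have h1 : p ∣ ∏ p ∈ D, p := Finset.dvd_prod_of_mem (fun p => p) hp
    have h2 : 0 < ∏ p ∈ D, p := Finset.prod_pos fun p hp => (hPr p (hDP hp)).1.pos
    exact (hPr p (hDP hp)).1.two_le.trans (Nat.le_of_dvd h2 h1)
  · exact Nat.Coprime.prod_left fun p hp =>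
      (Nat.Prime.coprime_iff_not_dvd (hPr p (hDP hp)).1).2 (hPr p (hDP hp)).2

private theorem S4_prod (z m : ℕ) :
    ∏ p ∈ (Finset.range (z + 1)).filter Nat.Prime, (1 - 1 / (p : ℝ)) ≤
      ∏ p ∈ (Finset.range (z + 1)).filter (fun p => p.Prime ∧ ¬ p ∣ m), (1 - 1 / (p : ℝ)) := by
  classical
  have hsub : (Finset.range (z + 1)).filter (fun p => p.Prime ∧ ¬ p ∣ m) ⊆
      (Finset.range (z + 1)).filter Nat.Prime := by
    intro p hp
    obtain ⟨h1, h2, _⟩ := Finset.mem_filter.1 hp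
    exact Finset.mem_filter.2 ⟨h1, h2⟩
  have hf : ∀ p : ℕ, p.Prime → 0 ≤ 1 - 1 / (p : ℝ) ∧ 1 - 1 / (p : ℝ) ≤ 1 := by
    intro p hp
    have h1 : (1 : ℝ) ≤ p := by exact_mod_cast hp.one_le
    have h2 : 1 / (p : ℝ) ≤ 1 := by
      rw [div_le_one (by linarith)]
      exact h1
    have h3 : 0 ≤ 1 / (p : ℝ) := by positivity
    constructor <;> linarith
  rw [← Finset.prod_sdiff hsub]
  refine mul_le_of_le_one_left (Finset.prod_nonneg fun p hp => ?_)
    (Finset.prod_le_one (fun p hp => ?_) fun p hp => ?_)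
  · exact (hf p (Finset.mem_filter.1 hp).2.1).1
  · exact (hf p (Finset.mem_filter.1 (Finset.mem_sdiff.1 hp).1).2).1
  · exact (hf p (Finset.mem_filter.1 (Finset.mem_sdiff.1 hp).1).2).2

private theorem S4_coprime {b L m₀ M : ℕ} (hb : 2 ≤ b) (hL : 4 ≤ L) (hm : m₀.Coprime (b * D0 b))
    (hM : M ∈ MM b L m₀) : (rv b (L - 3) M).Coprime (b * D0 b) := by
  obtain ⟨h1, h2⟩ := Finset.mem_filter.1 hM
  have hfac : b ^ 3 - b = b * D0 b := by
    unfold D0
    rw [Nat.mul_sub, mul_one]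
    congr 1
    ring
  have hmb : m₀.Coprime b := Nat.Coprime.coprime_mul_right_right hm
  have hmD : m₀.Coprime (D0 b) := Nat.Coprime.coprime_mul_left_right hm
  have hMb : M.Coprime b := by
    have h3 : M ≡ m₀ [MOD b] := h2.of_mul_right _
    unfold Nat.Coprime
    rw [Nat.ModEq.gcd_eq h3]
    exact hmb
  have hMD : M ≡ m₀ [MOD D0 b] := h2.of_mul_left _
  rw [← hfac]
  refine rv_coprime b (L - 3) 1 m₀ M hb (by omega) (by omega) (Nat.coprime_one_left b) hmD ?_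
  unfold KS II
  rw [Finset.mem_filter, Finset.mem_Ico]
  have h4 := Finset.mem_Ico.1 h1
  have h5 : L - 3 - 1 = L - 4 := by omega
  rw [h5]
  exact ⟨⟨by rw [one_mul]; exact h4.1, by simpa using h4.2⟩, hMb, hMD⟩

theorem sieve (b : ℕ) (hb : 2 ≤ b) (hlev : LevStmt b) (hmain : MainStmt b) : SieveStmt b := by
  classical
  obtain ⟨R, hR0, L₁, hlev⟩ := hlev
  obtain ⟨c₁, hc₁, L₂, hmain⟩ := hmain
  obtain ⟨C, _, hS⟩ := Pool.Agent.LibPL63.lemmaSA
  obtain ⟨b₀, hb₀, heps⟩ := S4_eps (C : ℝ) 1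
  obtain ⟨cm, hcm, hmer⟩ := Pool.Agent.LibRG87.Z_mertens
  have hbR : (0 : ℝ) < b := by exact_mod_cast (by omega : 0 < b)
  set R' : ℕ := R * (2 * b₀ + 6) with hR'
  have hR'0 : 0 < R' := Nat.mul_pos hR0 (by omega)
  set c : ℝ := c₁ * cm / (4 * b) with hc
  have hc0 : 0 < c := by positivity
  obtain ⟨L₃, hL₃⟩ := exists_nat_ge (1 / c)
  refine ⟨c, R', hc0, hR'0, L₁ + L₂ + L₃ + R' + 4, ?_⟩
  intro L N m₀ hL hN hm hcop
  have hL4 : 4 ≤ L := by omega
  have hLR : (0 : ℝ) < L := by exact_mod_cast (by omega : 0 < L)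
  have hlevL := hlev L N m₀ (by omega) hN
  have hmainL := hmain L N m₀ (by omega) hN hcop
  set z : ℕ := b ^ (L / R') with hz
  have hz1 : 1 ≤ L / R' := (Nat.one_le_div_iff hR'0).2 (by omega)
  have hz2 : 2 ≤ z := by
    calc 2 ≤ b := hb
      _ = b ^ 1 := (pow_one b).symm
      _ ≤ b ^ (L / R') := Nat.pow_le_pow_right (by omega) hz1
  have hzW : z ^ (2 * b₀ + 6) ≤ b ^ (L / R) := by
    rw [hz, ← pow_mul]
    refine Nat.pow_le_pow_right (by omega) ?_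
    rw [hR', ← Nat.div_div_eq_div_mul]
    exact Nat.div_mul_le_self _ _
  set Pr : Finset ℕ := (Finset.range (z + 1)).filter (fun p => p.Prime ∧ ¬ p ∣ b * D0 b) with hPr
  have hPr1 : ∀ p ∈ Pr, p.Prime ∧ ¬ p ∣ b * D0 b := fun p hp => (Finset.mem_filter.1 hp).2
  set A := S4_avg b L m₀ N hb hL4 with hA
  set x : ℕ → ℕ → ℝ := fun p n => if p ∣ n then 1 else 0 with hx
  have hx1 : ∀ p ∈ Pr, ∑ y ∈ range p, x p y = 1 := by
    intro p hp
    have hp0 : 0 < p := (hPr1 p hp).1.pos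
    rw [Finset.sum_eq_single_of_mem 0 (Finset.mem_range.2 hp0)]
    · simp [hx]
    · intro y hy hy0
      have h1 : ¬ p ∣ y := fun h => by
        have := Nat.le_of_dvd (Nat.pos_of_ne_zero hy0) h
        have := Finset.mem_range.1 hy
        omega
      simp [hx, h1]
  have hEp : ∀ p ∈ Pr, A.Ep p (x p) = 1 / (p : ℝ) := by
    intro p hp
    have h1 : A.Ep p (x p) = ∑ y ∈ range p, 1 / (p : ℝ) * x p y := rfl
    rw [h1, ← Finset.mul_sum, hx1 p hp, mul_one]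
  have h1 := hS 1 b₀ hb₀ (heps.trans (by norm_num)) A z (by omega) Pr
    (fun p hp => ⟨hPr1 p hp, by
      have := Finset.mem_range.1 (Finset.mem_filter.1 hp).1
      omega⟩)
    x (fun p _ n => by simp only [hx, Nat.dvd_add_self_right])
    (fun p _ n => by
      simp only [hx]
      split_ifs <;> norm_num)
    (fun p hp => by
      have hp2 : (2 : ℝ) ≤ p := by exact_mod_cast (hPr1 p hp).1.two_le
      rw [hEp p hp]
      refine ⟨one_div_le_one_div_of_le (by norm_num) hp2, by simp, ?_⟩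
      unfold Pool.Agent.LibLG5.tot
      have h2 : ∑ y ∈ range p, |x p y| = ∑ y ∈ range p, x p y := by
        refine Finset.sum_congr rfl fun y _ => ?_
        simp only [hx]
        split_ifs <;> norm_num
      rw [h2, hx1 p hp]
      simp)
    ∅ (fun _ _ => 0) (by simp) (Finset.disjoint_empty_left _) (by simp)
  simp only [Finset.prod_empty, mul_one, Nat.cast_one, one_pow, one_mul] at h1
  have e2 : ∏ p ∈ Pr, (1 - A.Ep p (x p)) = ∏ p ∈ Pr, (1 - 1 / (p : ℝ)) :=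
    Finset.prod_congr rfl fun p hp => by rw [hEp p hp]
  rw [e2] at h1
  set V : ℝ := ∏ p ∈ Pr, (1 - 1 / (p : ℝ)) with hV
  have e3 : A.X = ∑ M ∈ MM b L m₀, (Λ (N - M) : ℝ) := rfl
  set X : ℝ := ∑ M ∈ MM b L m₀, (Λ (N - M) : ℝ) with hX
  rw [e3] at h1
  have e4 : ∑ n ∈ A.s, A.om n * ∏ p ∈ Pr, (1 - x p n) =
      ∑ M ∈ MM b L m₀, (Λ (N - M) : ℝ) * ∏ p ∈ Pr, (1 - x p (rv b (L - 3) M)) :=
    S4_sum_image (m₀ := m₀) (N := N) hb hL4 (fun n => ∏ p ∈ Pr, (1 - x p n))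
  rw [e4] at h1
  have hrem : ∑ D ∈ Pr.powerset with ∏ p ∈ D, p ≤ z ^ (2 * b₀ + 6), A.Er (∏ p ∈ D, p) ≤
      (b : ℝ) ^ L / (L : ℝ) ^ 2 := (S4_rem b L m₀ N R Pr hPr1 _ hzW).trans hlevL
  have hup : ∑ M ∈ MM b L m₀, (Λ (N - M) : ℝ) * ∏ p ∈ Pr, (1 - x p (rv b (L - 3) M)) ≤
      ∑ M ∈ (MM b L m₀).filter (fun M => ∀ p : ℕ, p.Prime → p ∣ rv b (L - 3) M →
        b ^ (L / R') < p), (Λ (N - M) : ℝ) := by
    rw [Finset.sum_filter]
    refine Finset.sum_le_sum fun M hM => ?_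
    have hΛ : (0 : ℝ) ≤ Λ (N - M) := ArithmeticFunction.vonMangoldt_nonneg
    split_ifs with h
    · refine mul_le_of_le_one_right hΛ (Finset.prod_le_one (fun p _ => ?_) fun p _ => ?_)
      · simp only [hx]
        split_ifs <;> norm_num
      · simp only [hx]
        split_ifs <;> norm_num
    · push Not at h
      obtain ⟨p, hp, hpd, hpz⟩ := h
      have hpb : ¬ p ∣ b * D0 b := fun hd => by
        have h3 := Nat.dvd_gcd hpd hd
        rw [S4_coprime hb hL4 hm hM] at h3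
        exact hp.one_lt.ne' (Nat.dvd_one.1 h3)
      have hpP : p ∈ Pr := Finset.mem_filter.2 ⟨Finset.mem_range.2 (by omega), hp, hpb⟩
      have h4 : ∏ p ∈ Pr, (1 - x p (rv b (L - 3) M)) = 0 :=
        Finset.prod_eq_zero hpP (by simp [hx, hpd])
      rw [h4, mul_zero]
  have hX0 : 0 ≤ X := Finset.sum_nonneg fun _ _ => ArithmeticFunction.vonMangoldt_nonneg
  have hVz : cm / (b * L) ≤ V := by
    have h2 := (hmer z hz2).trans (S4_prod z (b * D0 b))
    refine le_trans ?_ h2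
    have hzR : (2 : ℝ) ≤ z := by exact_mod_cast hz2
    have hlog : 0 < Real.log z := Real.log_pos (by linarith)
    refine div_le_div_of_nonneg_left hcm.le hlog ?_
    rw [hz]
    push_cast
    rw [Real.log_pow]
    have h3 : Real.log b ≤ b := (Real.log_le_sub_one_of_pos hbR).trans (by linarith)
    have h4 : ((L / R' : ℕ) : ℝ) ≤ L := by exact_mod_cast Nat.div_le_self L R'
    have h5 : 0 ≤ Real.log b := Real.log_nonneg (by exact_mod_cast (by omega : 1 ≤ b))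
    calc ((L / R' : ℕ) : ℝ) * Real.log b ≤ L * b := by gcongr
      _ = b * L := mul_comm _ _
  have hV0 : 0 ≤ V := le_trans (by positivity) hVz
  have h5 := (abs_le.1 h1).1
  have h6 : Pool.Agent.LibLG5.eps0 C 1 b₀ * (X * V) ≤ 1 / 2 * (X * V) := by
    have h7 : Pool.Agent.LibLG5.eps0 (C : ℝ) 1 b₀ ≤ 1 / 2 := heps
    exact mul_le_mul_of_nonneg_right h7 (mul_nonneg hX0 hV0)
  have h7 : c₁ * (b : ℝ) ^ L * (cm / (b * L)) ≤ X * V :=
    mul_le_mul hmainL hVz (by positivity) hX0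
  have h8 : c₁ * (b : ℝ) ^ L * (cm / (b * L)) = 4 * (c * (b : ℝ) ^ L / L) := by
    rw [hc]
    field_simp
  have h9 : (b : ℝ) ^ L / (L : ℝ) ^ 2 ≤ c * (b : ℝ) ^ L / L := by
    have h10 : 1 / c ≤ L := by
      refine hL₃.trans ?_
      exact_mod_cast (by omega : L₃ ≤ L)
    have h11 : 1 ≤ c * L := by
      rw [div_le_iff₀ hc0] at h10
      linarith
    rw [div_le_div_iff₀ (by positivity) hLR]
    have h12 : (b : ℝ) ^ L * L * 1 ≤ (b : ℝ) ^ L * L * (c * L) :=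
      mul_le_mul_of_nonneg_left h11 (by positivity)
    calc (b : ℝ) ^ L * L = (b : ℝ) ^ L * L * 1 := (mul_one _).symm
      _ ≤ (b : ℝ) ^ L * L * (c * L) := h12
      _ = c * (b : ℝ) ^ L * (L : ℝ) ^ 2 := by ring
  have h13 : c * (b : ℝ) ^ L / L ≤ ∑ M ∈ MM b L m₀, (Λ (N - M) : ℝ) *
      ∏ p ∈ Pr, (1 - x p (rv b (L - 3) M)) := by
    linarith
  refine (h13.trans hup).trans (le_of_eq ?_)
  congr!

end Pool.Agent.LibRN31
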