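import Pool.Agent.LibRN31.SE
import Pool.Agent.LibHG31.D1
import Pool.Agent.LibHG31.D2

/-! # LibRN31 S5: the count from the sieve bound -/

namespace Pool.Agent.LibRN31

open Finset Filter Pool.Agent.LibHG31 Pool.Agent.LibHG31.TT
open scoped ArithmeticFunction.vonMangoldt

/-- the number whose base `b` digit string is that of `n` read backwards -/
def revb (b n : ℕ) : ℕ := Nat.ofDigits b (Nat.digits b n).reverse

open scoped Classical in
/-- the representations -/
noncomputable def RN (b N k : ℕ) (δ : ℝ) : Finset ℕ :=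
  (range N).filter (fun p => p.Prime ∧ ∃ n : ℕ, N = p + revb b n ∧ (revb b n).Coprime (b ^ 3 - b) ∧
    n.primeFactorsList.length ≤ k ∧ ∀ q : ℕ, q.Prime → q ∣ n → (N : ℝ) ^ δ < q)

theorem S5_cube (b : ℕ) : b ^ 3 - b = b * D0 b := by
  unfold D0
  rw [Nat.mul_sub, mul_one]
  congr 1
  ring

/-- the number of prime factors -/
private theorem S5_len (B n k : ℕ) (hn : n ≠ 0) (hB : 1 ≤ B) (h : ∀ q : ℕ, q.Prime → q ∣ n → B < q)
    (hk : n < B ^ k) : n.primeFactorsList.length ≤ k := by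
  by_contra hcon
  rw [not_le] at hcon
  have h1 : ∀ l : List ℕ, (∀ q ∈ l, B ≤ q) → B ^ l.length ≤ l.prod := by
    intro l
    induction l with
    | nil => simp
    | cons a l ih =>
      intro hl
      rw [List.length_cons, List.prod_cons, pow_succ']
      exact Nat.mul_le_mul (hl a (by simp)) (ih fun q hq => hl q (by simp [hq]))
  have h2 := h1 n.primeFactorsList (fun q hq =>
    (h q (Nat.prime_of_mem_primeFactorsList hq) (Nat.dvd_of_mem_primeFactorsList hq)).le)
  rw [Nat.prod_primeFactorsList hn] at h2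
  have h3 : B ^ k ≤ B ^ n.primeFactorsList.length := Nat.pow_le_pow_right hB hcon.le
  omega

/-- prime powers -/
private theorem S5_count (b L N : ℕ) (hb : 2 ≤ b) (hL : 1 ≤ L) (hN : N < b ^ L) (F : Finset ℕ)
    (hF : ∀ M ∈ F, M ≤ N) :
    ∑ M ∈ F, Λ (N - M) ≤ ((L : ℝ) * Real.log b) *
      (((F.filter (fun M => (N - M).Prime)).card : ℝ) +
        (Real.sqrt ((b : ℝ) ^ L) + 1) * ((L : ℝ) * Real.log b / Real.log 2 + 1)) := by
  classical
  set X := b ^ L with hX
  have hX2 : 2 ≤ X := by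
    calc 2 ≤ b := hb
      _ = b ^ 1 := (pow_one b).symm
      _ ≤ b ^ L := Nat.pow_le_pow_right (by omega) hL
  have hlogX : Real.log (X : ℝ) = (L : ℝ) * Real.log b := by
    rw [hX]
    push_cast
    rw [Real.log_pow]
  have hXr : (X : ℝ) = (b : ℝ) ^ L := by
    rw [hX]
    push_cast
    rfl
  have hcardA := card_prime_pow_le X hX2
  rw [hlogX, hXr] at hcardA
  have hlogb : 0 ≤ Real.log b := Real.log_natCast_nonneg b
  have hlam : ∀ n < X, Λ n ≤ (L : ℝ) * Real.log b := by
    intro n hn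
    rw [← hlogX]
    refine ArithmeticFunction.vonMangoldt_le_log.trans ?_
    rcases Nat.eq_zero_or_pos n with h0 | h0
    · rw [h0, Nat.cast_zero, Real.log_zero]
      exact Real.log_natCast_nonneg X
    · exact Real.log_le_log (by exact_mod_cast h0) (by exact_mod_cast hn.le)
  set A := (range X).filter (fun n => IsPrimePow n ∧ ¬ n.Prime) with hA
  set P := F.filter (fun M => (N - M).Prime) with hP
  set Q := F.filter (fun M => N - M ∈ A) with hQ
  have hQcard : Q.card ≤ A.card := by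
    apply card_le_card_of_injOn (fun M => N - M)
    · intro M hM
      exact (mem_filter.1 hM).2
    · intro M hM M' hM' h
      have h1 := hF M (mem_filter.1 hM).1
      have h2 := hF M' (mem_filter.1 hM').1
      simp only at h
      omega
  have h1 : ∑ M ∈ F, Λ (N - M) ≤ ∑ M ∈ P ∪ Q, Λ (N - M) := by
    have h2 : P ∪ Q ⊆ F := union_subset (filter_subset _ _) (filter_subset _ _)
    rw [← sum_subset h2]
    intro M hM hM2
    rw [ArithmeticFunction.vonMangoldt_eq_zero_iff]
    intro hpp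
    apply hM2
    rw [mem_union, hP, hQ, mem_filter, mem_filter]
    by_cases hpr : (N - M).Prime
    · exact Or.inl ⟨hM, hpr⟩
    · refine Or.inr ⟨hM, ?_⟩
      rw [hA, mem_filter, mem_range]
      exact ⟨by omega, hpp, hpr⟩
  refine h1.trans ?_
  have h2 : ∑ M ∈ P ∪ Q, Λ (N - M) ≤ ((P ∪ Q).card : ℝ) * ((L : ℝ) * Real.log b) := by
    rw [← nsmul_eq_mul]
    refine sum_le_card_nsmul _ _ _ fun M _ => hlam _ (by omega)
  refine h2.trans ?_
  rw [mul_comm]
  refine mul_le_mul_of_nonneg_left ?_ (by positivity)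
  have h3 : ((P ∪ Q).card : ℝ) ≤ P.card + Q.card := by exact_mod_cast card_union_le P Q
  have h4 : (Q.card : ℝ) ≤ A.card := by exact_mod_cast hQcard
  linarith

/-- asymptotics -/
private theorem S5_large (b : ℕ) (hb : 2 ≤ b) (c : ℝ) (hc : 0 < c) : ∃ L₀ : ℕ, ∀ L : ℕ, L₀ ≤ L →
    (Real.sqrt ((b : ℝ) ^ L) + 1) * ((L : ℝ) * Real.log b / Real.log 2 + 1) ≤ c * ((b : ℝ) ^ L / (L : ℝ) ^ 2) := by
  have hb2 : (2 : ℝ) ≤ b := by exact_mod_cast hb
  have hb0 : (0 : ℝ) < b := by linarith
  set s : ℝ := Real.sqrt b with hs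
  have hs1 : 1 < s := by
    rw [hs, Real.lt_sqrt (by norm_num)]
    linarith
  have hs0 : 0 < s := by linarith
  have hsq : s ^ 2 = b := Real.sq_sqrt hb0.le
  have hlog : 0 ≤ Real.log b := Real.log_natCast_nonneg b
  have hlog2 : 0 < Real.log 2 := Real.log_pos (by norm_num)
  set K : ℝ := Real.log b / Real.log 2 + 1 with hK
  have hK0 : 0 < K := by positivity
  have ht : Tendsto (fun L : ℕ => (L : ℝ) ^ 3 / s ^ L) atTop (nhds 0) :=
    tendsto_pow_const_div_const_pow_of_one_lt 3 hs1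
  have hev : ∀ᶠ L : ℕ in atTop, (L : ℝ) ^ 3 / s ^ L < c / (2 * K) :=
    ht.eventually_lt_const (by positivity)
  obtain ⟨L₀, h⟩ := eventually_atTop.1 hev
  refine ⟨max L₀ 1, fun L hL => ?_⟩
  have hL0 : L₀ ≤ L := le_trans (le_max_left _ _) hL
  have hL1 : 1 ≤ L := le_trans (le_max_right _ _) hL
  have hL1' : (1 : ℝ) ≤ L := by exact_mod_cast hL1
  have h1 := h L hL0
  have hsL : Real.sqrt ((b : ℝ) ^ L) = s ^ L := by
    rw [← hsq, ← pow_mul, mul_comm, pow_mul, Real.sqrt_sq (by positivity)]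
  have hbL : (b : ℝ) ^ L = s ^ L * s ^ L := by
    rw [← hsq, ← pow_mul, ← pow_add]
    congr 1
    ring
  rw [hsL, hbL]
  have hsL1 : 1 ≤ s ^ L := one_le_pow₀ hs1.le
  rw [div_lt_div_iff₀ (by positivity) (by positivity)] at h1
  have h2 : (s ^ L + 1) * ((L : ℝ) * Real.log b / Real.log 2 + 1) ≤ (2 * s ^ L) * ((L : ℝ) * K) := by
    apply mul_le_mul
    · linarith
    · rw [hK, mul_add, mul_one]
      have : (L : ℝ) * Real.log b / Real.log 2 = L * (Real.log b / Real.log 2) := by ring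
      linarith
    · positivity
    · positivity
  refine h2.trans ?_
  rw [← mul_div_assoc, le_div_iff₀ (by positivity)]
  have h3 : 2 * s ^ L * ((L : ℝ) * K) * (L : ℝ) ^ 2 = s ^ L * ((L : ℝ) ^ 3 * (2 * K)) := by ring
  have h4 : c * (s ^ L * s ^ L) = s ^ L * (c * s ^ L) := by ring
  rw [h3, h4]
  exact mul_le_mul_of_nonneg_left h1.le (by positivity)

theorem final (b : ℕ) (hb : 2 ≤ b) (hS : SieveStmt b) :
    ∃ (δ c : ℝ) (k : ℕ), 0 < δ ∧ 0 < c ∧ ∃ N₀ : ℕ, ∀ N : ℕ, N₀ ≤ N → Even N →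
      c * (N / Real.log N ^ 2) ≤ ((RN b N k δ).card : ℝ) := by
  classical
  obtain ⟨c, R, hc, hR, L₀, h⟩ := hS
  have hb2 : (2 : ℝ) ≤ b := by exact_mod_cast hb
  have hb0 : (0 : ℝ) < b := by linarith
  have hb1 : (1 : ℝ) < b := by linarith
  have hlogb : 0 < Real.log b := Real.log_pos hb1
  have hD : 0 < D0 b := by
    unfold D0
    have : 2 ^ 2 ≤ b ^ 2 := Nat.pow_le_pow_left hb 2
    omega
  obtain ⟨L₁, hL₁⟩ := S5_large b hb (c / (2 * Real.log b)) (by positivity)
  refine ⟨1 / (2 * R), c * Real.log b / 8, 2 * R, by positivity, by positivity,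
    b ^ (max (max L₀ L₁) (2 * R + 8)), ?_⟩
  intro N hN hev
  set L := Nat.log b N + 1 with hL
  have hN0 : N ≠ 0 := by
    have : 0 < b ^ (max (max L₀ L₁) (2 * R + 8)) := pow_pos (by omega) _
    omega
  have hLlow : b ^ (L - 1) ≤ N := by
    rw [hL, Nat.add_sub_cancel]
    exact Nat.pow_log_le_self b hN0
  have hLup : N < b ^ L := Nat.lt_pow_succ_log_self (by omega) N
  have hLge : max (max L₀ L₁) (2 * R + 8) ≤ L := by
    have h1 : b ^ (max (max L₀ L₁) (2 * R + 8)) < b ^ L := lt_of_le_of_lt hN hLup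
    exact ((Nat.pow_lt_pow_iff_right (by omega)).1 h1).le
  have hLL0 : L₀ ≤ L := le_trans (le_trans (le_max_left _ _) (le_max_left _ _)) hLge
  have hLL1 : L₁ ≤ L := le_trans (le_trans (le_max_right _ _) (le_max_left _ _)) hLge
  have hL8 : 2 * R + 8 ≤ L := le_trans (le_max_right _ _) hLge
  have hNL : NL b L N := ⟨hLlow, hLup⟩
  -- the class
  have hm : 1 ≤ b * D0 b := Nat.mul_pos (by omega) hD
  obtain ⟨m₀, _, hm1, hm2⟩ := exists_unit_sub (b * D0 b) hm 1 (isCoprime_one_left) (N : ℤ)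
    (Or.inl (by exact_mod_cast hev))
  rw [one_mul] at hm2
  have h1 := h L N m₀ hLL0 hNL hm1 (by exact_mod_cast hm2)
  set F := (MM b L m₀).filter (fun M => ∀ p : ℕ, p.Prime → p ∣ rv b (L - 3) M → b ^ (L / R) < p) with hF
  have h2b : 2 * b ^ (L - 4) ≤ b ^ (L - 3) := by
    have : b ^ (L - 3) = b * b ^ (L - 4) := by
      rw [← pow_succ']
      congr 1
      omega
    rw [this]
    exact Nat.mul_le_mul_right _ hb
  have hbLL : b ^ (L - 3) ≤ b ^ (L - 1) := Nat.pow_le_pow_right (by omega) (by omega)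
  have hMF : ∀ M ∈ F, b ^ (L - 4) ≤ M ∧ M < 2 * b ^ (L - 4) ∧ M ≡ m₀ [MOD b * D0 b] ∧
      ∀ p : ℕ, p.Prime → p ∣ rv b (L - 3) M → b ^ (L / R) < p := by
    intro M hM
    obtain ⟨h3, h4⟩ := mem_filter.1 hM
    obtain ⟨h5, h6⟩ := mem_filter.1 h3
    obtain ⟨h7, h8⟩ := mem_Ico.1 h5
    exact ⟨h7, h8, h6, h4⟩
  have hMN : ∀ M ∈ F, M ≤ N := by
    intro M hM
    have := hMF M hM
    omega
  have h3 := S5_count b L N hb (by omega) hLup F hMN
  set P := F.filter (fun M => (N - M).Prime) with hP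
  have hL0 : (0 : ℝ) < L := by exact_mod_cast (by omega : 0 < L)
  have h4 := hL₁ L hLL1
  have h5 : c / (2 * Real.log b) * ((b : ℝ) ^ L / (L : ℝ) ^ 2) ≤ (P.card : ℝ) := by
    have h6 : c * (b : ℝ) ^ L / L ≤ ((L : ℝ) * Real.log b) *
      ((P.card : ℝ) + c / (2 * Real.log b) * ((b : ℝ) ^ L / (L : ℝ) ^ 2)) := by
      refine (h1.trans h3).trans ?_
      exact mul_le_mul_of_nonneg_left (by linarith) (by positivity)
    have h7 : c * (b : ℝ) ^ L / L = ((L : ℝ) * Real.log b) *
      (2 * (c / (2 * Real.log b) * ((b : ℝ) ^ L / (L : ℝ) ^ 2))) := by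
      field_simp
    rw [h7] at h6
    have h8 := le_of_mul_le_mul_left h6 (by positivity)
    linarith
  -- the primes
  have h6 : P.card ≤ (RN b N (2 * R) (1 / (2 * R))).card := by
    apply card_le_card_of_injOn (fun M => N - M)
    · intro M hM
      obtain ⟨hM1, hM2⟩ := mem_filter.1 hM
      obtain ⟨g1, g2, g3, g4⟩ := hMF M hM1
      have hMpos : 0 < M := lt_of_lt_of_le (pow_pos (by omega) _) g1
      have hMcop : M.Coprime (b * D0 b) := by
        have : Nat.gcd (b * D0 b) M = Nat.gcd (b * D0 b) m₀ := by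
          rw [Nat.gcd_rec, g3, ← Nat.gcd_rec]
        rw [Nat.Coprime, Nat.gcd_comm, this, Nat.gcd_comm]
        exact hm1
      have hMb : M.Coprime b := Nat.Coprime.coprime_mul_right_right hMcop
      have hn1 := le_rv b (L - 3) M hb (by omega) hMb
      have hn2 := rv_lt b (L - 3) M (by omega)
      have hrev : revb b (rv b (L - 3) M) = M := by
        unfold revb
        rw [ofDigits_reverse b (L - 3) _ hb (by omega) hn1 hn2]
        exact rv_rv b (L - 3) M (by omega) (by omega)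
      have hnpos : 0 < rv b (L - 3) M := lt_of_lt_of_le (pow_pos (by omega) _) hn1
      have he1 : 1 ≤ L / R := by
        rw [Nat.le_div_iff_mul_le hR]
        omega
      have he2 : L < 2 * R * (L / R) := by
        have e1 : L < R * (L / R + 1) := Nat.lt_mul_div_succ L hR
        have e2 : R * 1 ≤ R * (L / R) := Nat.mul_le_mul_left _ he1
        have e3 : 2 * R * (L / R) = R * (L / R) + R * (L / R) := by ring
        have e4 : R * (L / R + 1) = R * (L / R) + R := by ring
        omega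
      have hlt : rv b (L - 3) M < (b ^ (L / R)) ^ (2 * R) := by
        rw [← pow_mul]
        refine lt_of_lt_of_le hn2 (Nat.pow_le_pow_right (by omega) ?_)
        rw [mul_comm]
        omega
      simp only [RN, coe_filter, mem_range, Set.mem_setOf_eq]
      refine ⟨by omega, hM2, rv b (L - 3) M, ?_, ?_, ?_, ?_⟩
      · rw [hrev]
        omega
      · rw [hrev, S5_cube]
        exact hMcop
      · exact S5_len (b ^ (L / R)) _ _ hnpos.ne' (Nat.one_le_pow _ _ (by omega)) g4 hlt
      · intro q hq hqd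
        have h7 := g4 q hq hqd
        have h8 : ((b ^ (L / R) : ℕ) : ℝ) < q := by exact_mod_cast h7
        refine lt_of_le_of_lt ?_ h8
        push_cast
        have h9 : (N : ℝ) ≤ (b : ℝ) ^ (2 * R * (L / R)) := by
          have : N < b ^ (2 * R * (L / R)) := lt_of_lt_of_le hLup (Nat.pow_le_pow_right (by omega) he2.le)
          exact_mod_cast this.le
        calc (N : ℝ) ^ (1 / (2 * (R : ℝ))) ≤ ((b : ℝ) ^ (2 * R * (L / R))) ^ (1 / (2 * (R : ℝ))) :=
              Real.rpow_le_rpow (by positivity) h9 (by positivity)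
          _ = (b : ℝ) ^ (L / R) := by
            rw [← Real.rpow_natCast, ← Real.rpow_mul hb0.le, ← Real.rpow_natCast]
            congr 1
            have : (R : ℝ) ≠ 0 := by positivity
            push_cast
            field_simp
    · intro M hM M' hM' he
      have e1 := hMN M (mem_filter.1 hM).1
      have e2 := hMN M' (mem_filter.1 hM').1
      simp only at he
      omega
  have h7 : (P.card : ℝ) ≤ ((RN b N (2 * R) (1 / (2 * R))).card : ℝ) := by exact_mod_cast h6
  refine le_trans ?_ (h5.trans h7)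
  -- comparison of `N / log² N` and `b^L / L²`
  have hNr : (0 : ℝ) < N := by exact_mod_cast Nat.pos_of_ne_zero hN0
  have g1 : (L : ℝ) * Real.log b / 2 ≤ Real.log N := by
    have g2 : Real.log ((b : ℝ) ^ (L - 1)) ≤ Real.log N :=
      Real.log_le_log (by positivity) (by exact_mod_cast hLlow)
    rw [Real.log_pow] at g2
    have g3 : (L : ℝ) / 2 ≤ ((L - 1 : ℕ) : ℝ) := by
      rw [Nat.cast_sub (by omega)]
      have : (2 : ℝ) ≤ L := by exact_mod_cast (by omega : 2 ≤ L)
      push_cast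
      linarith
    calc (L : ℝ) * Real.log b / 2 = (L : ℝ) / 2 * Real.log b := by ring
      _ ≤ ((L - 1 : ℕ) : ℝ) * Real.log b := mul_le_mul_of_nonneg_right g3 hlogb.le
      _ ≤ Real.log N := g2
  have g2 : (0 : ℝ) < (L : ℝ) * Real.log b / 2 := by positivity
  have g3 : (N : ℝ) ≤ (b : ℝ) ^ L := by exact_mod_cast hLup.le
  calc c * Real.log b / 8 * (N / Real.log N ^ 2)
      ≤ c * Real.log b / 8 * ((b : ℝ) ^ L / ((L : ℝ) * Real.log b / 2) ^ 2) := by
        refine mul_le_mul_of_nonneg_left ?_ (by positivity)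
        exact div_le_div₀ (by positivity) g3 (by positivity) (pow_le_pow_left₀ g2.le g1 2)
    _ = c / (2 * Real.log b) * ((b : ℝ) ^ L / (L : ℝ) ^ 2) := by
      field_simp
      ring

end Pool.Agent.LibRN31
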