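import Pool.Agent.LibHG31.T0

/-! # LibRN31 SD: definitions for the average over fractions -/

namespace Pool.Agent.LibRN31

open Finset Pool.Agent.LibHG31 Pool.Agent.LibHG31.TT

/-- the window product at the point `x` (`nd` = distance to the nearest integer) -/
noncomputable def VV (b : ℕ) (c : ℝ) (w : ℕ) (x : ℝ) : ℝ :=
  ∏ i ∈ range w, (1 - c * nd ((b : ℝ) ^ i * x) ^ 2)

/-- weight of a pair of consecutive digits (`v < b^2`) -/
noncomputable def gg (b : ℕ) (ρ : ℝ) (v : ℕ) : ℝ := if v = 0 ∨ v = b ^ 2 - 1 then 1 else ρ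

theorem VV_factor {c : ℝ} (hc : 0 < c) (hc1 : c < 1) (y : ℝ) :
    0 ≤ 1 - c * nd y ^ 2 ∧ 1 - c * nd y ^ 2 ≤ 1 := by
  have h1 := nd_nonneg y
  have h2 := nd_le_half y
  have h3 : nd y ^ 2 ≤ 1 := by nlinarith
  have h4 : 0 ≤ nd y ^ 2 := by positivity
  constructor <;> nlinarith

theorem VV_nonneg (b : ℕ) {c : ℝ} (hc : 0 < c) (hc1 : c < 1) (w : ℕ) (x : ℝ) : 0 ≤ VV b c w x :=
  prod_nonneg fun _ _ => (VV_factor hc hc1 _).1

theorem VV_le_one (b : ℕ) {c : ℝ} (hc : 0 < c) (hc1 : c < 1) (w : ℕ) (x : ℝ) : VV b c w x ≤ 1 :=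
  prod_le_one (fun _ _ => (VV_factor hc hc1 _).1) fun _ _ => (VV_factor hc hc1 _).2

end Pool.Agent.LibRN31
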