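import Pool.Agent.LibHG31.E5
import Pool.Agent.LibRN31.SD

/-! # LibRN31 SE: definitions and interfaces of the sieve part -/

namespace Pool.Agent.LibRN31

open Finset Pool.Agent.LibHG31 Pool.Agent.LibHG31.TT
open scoped ArithmeticFunction.vonMangoldt

/-- the numbers `M = N - p`: `L - 3` digits, leading digit `1`, class `m₀` mod `b (b^2-1)` -/
def MM (b L m₀ : ℕ) : Finset ℕ :=
  (Ico (b ^ (L - 4)) (2 * b ^ (L - 4))).filter (fun M => M ≡ m₀ [MOD b * D0 b])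

/-- the exponential sum over the reversals -/
noncomputable def EE (b L m₀ N d a : ℕ) : ℂ :=
  ∑ M ∈ MM b L m₀, ((Λ (N - M) : ℝ) : ℂ) * ee ((a : ℝ) * rv b (L - 3) M / d)

/-- `N` has `L` digits -/
def NL (b L N : ℕ) : Prop := b ^ (L - 1) ≤ N ∧ N < b ^ L

/-- the average of the window products over fractions -/
def AvgStmt (b : ℕ) : Prop :=
  ∀ c : ℝ, 0 < c → c < 1 → ∃ R : ℕ, 0 < R ∧ ∀ A : ℕ, ∃ L₀ : ℕ, ∀ L w : ℕ, L₀ ≤ L → L ≤ 40 * w →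
    ∑ d ∈ (Icc 2 (b ^ (L / R))).filter (fun d => d.Coprime b), (1 / (d : ℝ)) *
      ∑ a ∈ Ico 1 d, VV b c w ((a : ℝ) / d) ^ (1 / 8 : ℝ) ≤ 1 / (L : ℝ) ^ A

/-- bound of the exponential sum -/
def EEStmt (b : ℕ) : Prop :=
  ∃ (Dt A : ℕ) (C : ℝ), 1 ≤ Dt ∧ 0 < C ∧ ∃ L₀ : ℕ, ∀ L N m₀ d a : ℕ, L₀ ≤ L → NL b L N → 0 < d →
    ‖EE b L m₀ N d a‖ ≤ C * (L : ℝ) ^ A * (b : ℝ) ^ L *
      (VV b (1 / (2 * (b : ℝ) ^ 3)) (2 * Dt * (L / (64 * Dt)))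
          (((b ^ (L - 4 - 4 * Dt * (L / (64 * Dt))) * D0 b : ℕ) : ℝ) * ((a : ℝ) / d)) ^ (1 / 8 : ℝ) +
        (1 / 2 : ℝ) ^ (((L / (64 * Dt) : ℕ) : ℝ) / 8))

/-- level of distribution -/
def LevStmt (b : ℕ) : Prop :=
  ∃ R : ℕ, 0 < R ∧ ∃ L₀ : ℕ, ∀ L N m₀ : ℕ, L₀ ≤ L → NL b L N →
    ∑ d ∈ (Icc 2 (b ^ (L / R))).filter (fun d => d.Coprime (b * D0 b)), (1 / (d : ℝ)) *
      ∑ a ∈ Ico 1 d, ‖EE b L m₀ N d a‖ ≤ (b : ℝ) ^ L / (L : ℝ) ^ 2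

/-- the main term -/
def MainStmt (b : ℕ) : Prop :=
  ∃ c : ℝ, 0 < c ∧ ∃ L₀ : ℕ, ∀ L N m₀ : ℕ, L₀ ≤ L → NL b L N →
    IsCoprime ((N : ℤ) - m₀) ((b * D0 b : ℕ) : ℤ) →
    c * (b : ℝ) ^ L ≤ ∑ M ∈ MM b L m₀, Λ (N - M)

open scoped Classical in
/-- lower bound of the sieve: `rv M` has no prime factor `≤ b^(L/R)` -/
def SieveStmt (b : ℕ) : Prop :=
  ∃ (c : ℝ) (R : ℕ), 0 < c ∧ 0 < R ∧ ∃ L₀ : ℕ, ∀ L N m₀ : ℕ, L₀ ≤ L → NL b L N →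
    m₀.Coprime (b * D0 b) → IsCoprime ((N : ℤ) - m₀) ((b * D0 b : ℕ) : ℤ) →
    c * (b : ℝ) ^ L / L ≤
      ∑ M ∈ (MM b L m₀).filter (fun M => ∀ p : ℕ, p.Prime → p ∣ rv b (L - 3) M → b ^ (L / R) < p),
        Λ (N - M)

end Pool.Agent.LibRN31
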